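import Pool.Agent.Lib.MP_0f1fb3_an.Top

/-!
The Hausdorff measure of the model space is at least the push-forward of `ω² du dv`.
-/

set_option autoImplicit false

open MeasureTheory Set
open scoped ENNReal NNReal Topology

namespace Pool.MP_0f1fb3_an

/-! ### Tents -/

/-- the tent of height `K * s` -/
noncomputable def tent (K s x₀ t : ℝ) : ℝ := max 0 (K * (s - |t - x₀|))

lemma tent_nonneg (K s x₀ t : ℝ) : 0 ≤ tent K s x₀ t := le_max_left _ _

lemma tent_zero {K s x₀ t : ℝ} (hK : 0 ≤ K) (h : s ≤ |t - x₀|) : tent K s x₀ t = 0 := by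
  unfold tent
  apply max_eq_left
  nlinarith

lemma tent_of_le {K s x₀ t : ℝ} (hK : 0 ≤ K) (h : |t - x₀| ≤ s) :
    tent K s x₀ t = K * (s - |t - x₀|) := by
  unfold tent
  apply max_eq_right
  apply mul_nonneg hK; linarith

lemma tent_lip {K s x₀ : ℝ} (hK : 0 ≤ K) (t t' : ℝ) :
    |tent K s x₀ t' - tent K s x₀ t| ≤ K * |t' - t| := by
  unfold tent
  refine (abs_max_sub_max_le_max _ _ _ _).trans ?_
  rw [sub_self, abs_zero, max_le_iff]
  refine ⟨by positivity, ?_⟩
  have e : K * (s - |t' - x₀|) - K * (s - |t - x₀|) = K * (|t - x₀| - |t' - x₀|) := by ring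
  rw [e, abs_mul, abs_of_nonneg hK]
  apply mul_le_mul_of_nonneg_left _ hK
  refine (abs_abs_sub_abs_le_abs_sub _ _).trans ?_
  rw [abs_sub_comm t' t]
  apply le_of_eq; congr 1; ring

lemma tent_le_integral {f : ℝ → ℝ} (hf0 : ∀ t, 0 ≤ f t)
    (hfi : ∀ a b, IntervalIntegrable f volume a b) {K s x₀ : ℝ} (hK : 0 ≤ K)
    (hc : ∀ t, |t - x₀| < s → f t = K) {u u' : ℝ} (h : u ≤ u') :
    |tent K s x₀ u' - tent K s x₀ u| ≤ ∫ t in u..u', f t := by
  have hnn : 0 ≤ ∫ t in u..u', f t := intervalIntegral.integral_nonneg h fun t _ => hf0 t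
  rcases le_or_gt (x₀ + s) u with h1 | h1
  · have a1 : s ≤ |u - x₀| := le_trans (by linarith) (le_abs_self _)
    have a2 : s ≤ |u' - x₀| := le_trans (by linarith) (le_abs_self _)
    rw [tent_zero hK a1, tent_zero hK a2]
    simpa using hnn
  rcases le_or_gt u' (x₀ - s) with h2 | h2
  · have a1 : s ≤ |u - x₀| := le_trans (by linarith) (neg_le_abs _)
    have a2 : s ≤ |u' - x₀| := le_trans (by linarith) (neg_le_abs _)
    rw [tent_zero hK a1, tent_zero hK a2]
    simpa using hnn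
  rcases le_or_gt s 0 with h3 | h3
  · have a1 : s ≤ |u - x₀| := h3.trans (abs_nonneg _)
    have a2 : s ≤ |u' - x₀| := h3.trans (abs_nonneg _)
    rw [tent_zero hK a1, tent_zero hK a2]
    simpa using hnn
  set a := max u (x₀ - s) with ha
  set b := min u' (x₀ + s) with hb
  have hab : a ≤ b := by
    rw [ha, hb, max_le_iff, le_min_iff, le_min_iff]
    refine ⟨⟨h, h1.le⟩, h2.le, by linarith⟩
  have hua : u ≤ a := le_max_left _ _
  have hbu : b ≤ u' := min_le_left _ _
  have ta : tent K s x₀ a = tent K s x₀ u := by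
    rcases le_total (x₀ - s) u with h4 | h4
    · rw [ha, max_eq_left h4]
    · rw [ha, max_eq_right h4]
      have a1 : s ≤ |u - x₀| := le_trans (by linarith) (neg_le_abs _)
      have a2 : s ≤ |x₀ - s - x₀| := le_trans (by linarith) (neg_le_abs _)
      rw [tent_zero hK a1, tent_zero hK a2]
  have tb : tent K s x₀ b = tent K s x₀ u' := by
    rcases le_total u' (x₀ + s) with h4 | h4
    · rw [hb, min_eq_left h4]
    · rw [hb, min_eq_right h4]
      have a1 : s ≤ |u' - x₀| := le_trans (by linarith) (le_abs_self _)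
      have a2 : s ≤ |x₀ + s - x₀| := le_trans (by linarith) (le_abs_self _)
      rw [tent_zero hK a1, tent_zero hK a2]
  rw [← ta, ← tb]
  have e1 : ∫ t in a..b, f t = K * (b - a) := by
    have : ∫ t in a..b, f t = ∫ _ in a..b, K := by
      apply intervalIntegral.integral_congr_ae
      have hne : ∀ᵐ t : ℝ, t ≠ b := by
        simp [ae_iff, measure_singleton]
      filter_upwards [hne] with t ht hmem
      rw [uIoc_of_le hab] at hmem
      apply hc
      rw [abs_lt]
      have k1 : x₀ - s ≤ a := le_max_right _ _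
      have k2 : b ≤ x₀ + s := min_le_right _ _
      have k3 := hmem.1
      have k4 := lt_of_le_of_ne hmem.2 ht
      constructor <;> linarith
    rw [this, intervalIntegral.integral_const, smul_eq_mul, mul_comm]
  calc |tent K s x₀ b - tent K s x₀ a| ≤ K * |b - a| := tent_lip hK _ _
    _ = K * (b - a) := by rw [abs_of_nonneg (by linarith)]
    _ = ∫ t in a..b, f t := e1.symm
    _ ≤ ∫ t in u..u', f t :=
      intervalIntegral.integral_mono_interval hua hab hbu
        (Filter.Eventually.of_forall fun t => hf0 t) (hfi _ _)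

lemma dst_leaf {x₀ y₀ x y s K : ℝ} (hs : 0 < s) (hs2 : s < 1 / 2) (hK : 0 ≤ K)
    (hω : ∀ x y : ℝ, |x - x₀| < s → |y - y₀| < s → ω x y = K)
    (hx : |x - x₀| ≤ s) (hy : |y - y₀| ≤ s) :
    K * max |x - x₀| |y - y₀| ≤ dst (pt x y) (pt x₀ y₀) := by
  have hA : Adm (bump (tent K s x₀) (tent K s y₀) (y₀ - 1 / 2)) := by
    refine adm_bump (tent_nonneg _ _ _) (tent_nonneg _ _ _) ?_ ?_ ?_ ?_ ?_ ?_
    · apply tent_zero hK
      rw [show y₀ - 1 / 2 - y₀ = -(1 / 2) by ring, abs_neg, abs_of_pos (by norm_num)]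
      exact hs2.le
    · apply tent_zero hK
      rw [show y₀ - 1 / 2 + 1 - y₀ = (1 / 2) by ring, abs_of_pos (by norm_num)]
      exact hs2.le
    · intro u
      refine ⟨max u (x₀ + s), le_max_left _ _, tent_zero hK ?_⟩
      have : x₀ + s ≤ max u (x₀ + s) := le_max_right _ _
      exact le_trans (by linarith) (le_abs_self _)
    · intro u
      refine ⟨min u (x₀ - s), min_le_left _ _, tent_zero hK ?_⟩
      have : min u (x₀ - s) ≤ x₀ - s := min_le_right _ _
      exact le_trans (by linarith) (neg_le_abs _)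
    · intro u u' v huu _ _ hv
      have hv' : |v - y₀| < s := by
        by_contra hcon
        exact hv (tent_zero hK (not_lt.mp hcon))
      exact tent_le_integral (fun t => ω_nonneg t v) (ii_ω_left v) hK
        (fun t ht => hω t v ht hv') huu
    · intro u v v' hu _ hvv _
      have hu' : |u - x₀| < s := by
        by_contra hcon
        exact hu (tent_zero hK (not_lt.mp hcon))
      exact tent_le_integral (fun t => ω_nonneg u t) (ii_ω_right u) hK
        (fun t ht => hω u t hu' ht) hvv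
  have h := le_dst hA (pt x y) (pt x₀ y₀)
  refine le_trans ?_ h
  rw [bump_pt, bump_pt]
  have hfr : ∀ z : ℝ, |z - y₀| ≤ s → y₀ - 1 / 2 + Int.fract (z - (y₀ - 1 / 2)) = z := by
    intro z hz
    rw [abs_le] at hz
    rw [Int.fract_eq_self.mpr ⟨by linarith, by linarith⟩]
    ring
  rw [hfr y hy, hfr y₀ (by simpa using hs.le), tent_of_le hK hx, tent_of_le hK hy,
    tent_of_le hK (by simpa using hs.le), tent_of_le hK (by simpa using hs.le)]
  simp only [sub_self, abs_zero, sub_zero, min_self]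
  rw [abs_sub_comm (min (K * (s - |x - x₀|)) (K * (s - |y - y₀|))) (K * s)]
  refine le_trans ?_ (le_abs_self _)
  rcases le_total |x - x₀| |y - y₀| with hm | hm
  · rw [max_eq_right hm]
    have := min_le_right (K * (s - |x - x₀|)) (K * (s - |y - y₀|))
    nlinarith
  · rw [max_eq_left hm]
    have := min_le_left (K * (s - |x - x₀|)) (K * (s - |y - y₀|))
    nlinarith

/-! ### Local constancy of the weight -/

/-- the grid points -/
def gridPts : Set ℝ := ⋃ (k : ℕ) (m : ℤ), {(m : ℝ) / 20 ^ k}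

lemma volume_gridPts : volume gridPts = 0 := by
  unfold gridPts
  refine measure_iUnion_null fun k => measure_iUnion_null fun m => ?_
  exact measure_singleton _

lemma fl_local {x : ℝ} (hx : x ∉ gridPts) (k : ℕ) :
    ∃ δ : ℝ, 0 < δ ∧ ∀ x', |x' - x| < δ → fl k x' = fl k x := by
  have h := (fl_eq_iff k x (fl k x)).mp rfl
  have hne : (fl k x : ℝ) / 20 ^ k ≠ x := by
    intro he
    apply hx
    rw [gridPts, mem_iUnion]
    exact ⟨k, mem_iUnion.mpr ⟨fl k x, he.symm⟩⟩
  have h1 : (fl k x : ℝ) / 20 ^ k < x := lt_of_le_of_ne h.1 hne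
  refine ⟨min (x - (fl k x : ℝ) / 20 ^ k) (((fl k x : ℝ) + 1) / 20 ^ k - x),
    lt_min (by linarith) (by linarith [h.2]), fun x' hx' => ?_⟩
  rw [lt_min_iff, abs_lt, abs_lt] at hx'
  rw [fl_eq_iff]
  constructor
  · linarith [hx'.1.1]
  · linarith [hx'.2.2]

lemma ae_const : ∀ᵐ p : ℝ × ℝ, ω p.1 p.2 ≠ 0 →
    ∃ δ > 0, ∀ x y : ℝ, |x - p.1| < δ → |y - p.2| < δ → ω x y = ω p.1 p.2 := by
  have hN : ∀ᵐ x : ℝ, x ∉ gridPts := by
    rw [ae_iff]; simpa using volume_gridPts
  have h1 : ∀ᵐ p : ℝ × ℝ, p.1 ∉ gridPts :=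
    (Measure.quasiMeasurePreserving_fst (μ := (volume : Measure ℝ)) (ν := (volume : Measure ℝ))).ae hN
  have h2 : ∀ᵐ p : ℝ × ℝ, p.2 ∉ gridPts :=
    (Measure.quasiMeasurePreserving_snd (μ := (volume : Measure ℝ)) (ν := (volume : Measure ℝ))).ae hN
  filter_upwards [h1, h2] with p hp1 hp2 h0
  have hF : (p.1, p.2) ∈ Fz := by
    by_contra hcon
    exact h0 (ω_of_notMem hcon)
  obtain ⟨k, hk⟩ := hF
  obtain ⟨δ₁, hδ₁, hd₁⟩ := fl_local hp1 k
  obtain ⟨δ₂, hδ₂, hd₂⟩ := fl_local hp2 k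
  obtain ⟨δ₃, hδ₃, hd₃⟩ := fl_local hp1 0
  refine ⟨min δ₁ (min δ₂ δ₃), by positivity, fun x y hx hy => ?_⟩
  rw [lt_min_iff, lt_min_iff] at hx hy
  have e1 := hd₁ x hx.1
  have e2 := hd₂ y hy.2.1
  have e3 := hd₃ x hx.2.2
  rw [fl_zero, fl_zero] at e3
  rw [ω_of_mem ⟨k, by simp only at hk ⊢; rw [e1, e2]; exact hk⟩, ω_of_mem ⟨k, hk⟩, e3]

/-! ### Lower bound -/

/-- the fundamental strip -/
def strip : Set (ℝ × ℝ) := (univ : Set ℝ) ×ˢ Ico (0 : ℝ) 1

lemma measurableSet_strip : MeasurableSet strip := MeasurableSet.univ.prod measurableSet_Ico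

lemma injOn_strip : InjOn (fun p : ℝ × ℝ => pt p.1 p.2) strip := by
  intro p hp q hq h
  simp only [pt, Pt.mid.injEq, Subtype.mk.injEq] at h
  obtain ⟨h1, h2⟩ := h
  rw [Int.fract_eq_self.mpr hp.2, Int.fract_eq_self.mpr hq.2] at h2
  exact Prod.ext h1 h2

/-- small squares well inside a region where `ω` is a positive constant -/
def GoodSq (t : ℚ × ℚ × ℚ) : Prop :=
  0 < (t.2.2 : ℝ) ∧ 3 * (t.2.2 : ℝ) ≤ 1 / 2 ∧ ∃ c : ℝ, 0 < c ∧ ∀ x y : ℝ, |x - t.1| < 3 * t.2.2 →
    |y - t.2.1| < 3 * t.2.2 → ω x y = c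

/-- the squares -/
def Sq (t : ℚ × ℚ × ℚ) : Set (ℝ × ℝ) :=
  {p | GoodSq t ∧ |p.1 - t.1| < t.2.2 ∧ |p.2 - t.2.1| < t.2.2}

lemma measurableSet_Sq (t : ℚ × ℚ × ℚ) : MeasurableSet (Sq t) := by
  by_cases h : GoodSq t
  · have e : Sq t = {p : ℝ × ℝ | |p.1 - t.1| < t.2.2} ∩ {p : ℝ × ℝ | |p.2 - t.2.1| < t.2.2} := by
      ext p; simp [Sq, h]
    rw [e]
    refine MeasurableSet.inter ?_ ?_
    · exact measurableSet_lt (by fun_prop) measurable_const
    · exact measurableSet_lt (by fun_prop) measurable_const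
  · have e : Sq t = ∅ := by
      ext p; simp [Sq, h]
    rw [e]; exact MeasurableSet.empty

lemma ae_mem_Sq : ∀ᵐ p : ℝ × ℝ, ω p.1 p.2 ≠ 0 → ∃ t, p ∈ Sq t := by
  filter_upwards [ae_const] with p hp h0
  obtain ⟨δ, hδ, hc⟩ := hp h0
  have hpos : 0 < ω p.1 p.2 := lt_of_le_of_ne (ω_nonneg _ _) (Ne.symm h0)
  obtain ⟨d, hd0, hd1⟩ := exists_rat_btwn (show (0 : ℝ) < min (δ / 4) (1 / 6) by positivity)
  have hd2 : (d : ℝ) < δ / 4 := lt_of_lt_of_le hd1 (min_le_left _ _)
  have hd3 : (d : ℝ) < 1 / 6 := lt_of_lt_of_le hd1 (min_le_right _ _)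
  obtain ⟨a, ha1, ha2⟩ := exists_rat_btwn (show p.1 < p.1 + d by linarith)
  obtain ⟨b, hb1, hb2⟩ := exists_rat_btwn (show p.2 < p.2 + d by linarith)
  refine ⟨(a, b, d), ⟨hd0, by simp only; linarith, ω p.1 p.2, hpos, fun x y hx hy => ?_⟩, ?_, ?_⟩
  · simp only at hx hy
    rw [abs_lt] at hx hy
    apply hc x y <;> rw [abs_lt] <;> constructor <;> linarith
  · simp only
    rw [abs_lt]; constructor <;> linarith
  · simp only
    rw [abs_lt]; constructor <;> linarith

/-- on a good square, `c² vol ≤ μH` -/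
lemma Sq_le (t : ℚ × ℚ × ℚ) {S : Set (ℝ × ℝ)} (hS : S ⊆ Sq t) (hSm : MeasurableSet S) :
    ∫⁻ p in S, ENNReal.ofReal (ω p.1 p.2) ^ 2 ≤
      (Measure.hausdorffMeasure 2 : Measure Pt) ((fun p : ℝ × ℝ => pt p.1 p.2) '' S) := by
  rcases S.eq_empty_or_nonempty with rfl | ⟨p₀, hp₀⟩
  · simp
  have hG : GoodSq t := (hS hp₀).1
  obtain ⟨hd, hd2, c, hc, hom⟩ := hG
  set δ : ℝ := ((t.2.2 : ℚ) : ℝ) with hδ
  have hin : ∀ p ∈ S, |p.1 - t.1| < δ ∧ |p.2 - t.2.1| < δ := fun p hp => (hS hp).2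
  have homS : ∀ p ∈ S, ω p.1 p.2 = c := by
    intro p hp
    have := hin p hp
    exact hom _ _ (by linarith [this.1]) (by linarith [this.2])
  -- the lower distance bound
  have hdist : ∀ p ∈ S, ∀ q ∈ S, c * dist p q ≤ dist (pt p.1 p.2) (pt q.1 q.2) := by
    intro p hp q hq
    have h1 := hin p hp
    have h2 := hin q hq
    rw [abs_lt, abs_lt] at h1 h2
    have h := dst_leaf (x₀ := q.1) (y₀ := q.2) (x := p.1) (y := p.2) (s := 2 * δ) (K := c)
      (by linarith) (by linarith) hc.le (by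
        intro x y hx hy
        rw [abs_lt] at hx hy
        apply hom x y <;> rw [abs_lt] <;> constructor <;> linarith [h2.1.1, h2.1.2, h2.2.1, h2.2.2])
      (by rw [abs_le]; constructor <;> linarith [h1.1.1, h1.1.2, h2.1.1, h2.1.2])
      (by rw [abs_le]; constructor <;> linarith [h1.2.1, h1.2.2, h2.2.1, h2.2.2])
    rw [Prod.dist_eq, Real.dist_eq, Real.dist_eq, dist_def]
    exact h
  -- the inverse is Lipschitz
  set F : ℝ × ℝ → Pt := fun p => pt p.1 p.2 with hF
  have hinj : InjOn F S := by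
    intro p hp q hq h
    have := hdist p hp q hq
    have h' : pt p.1 p.2 = pt q.1 q.2 := h
    rw [h', dist_self] at this
    have h3 : dist p q ≤ 0 := by
      by_contra hlt
      have := mul_pos hc (not_le.mp hlt)
      linarith
    exact dist_le_zero.mp h3
  have hinv : LipschitzOnWith (Real.toNNReal c⁻¹) (Function.invFunOn F S) (F '' S) := by
    refine LipschitzOnWith.of_dist_le_mul ?_
    rintro _ ⟨p, hp, rfl⟩ _ ⟨q, hq, rfl⟩
    rw [hinj.leftInvOn_invFunOn hp, hinj.leftInvOn_invFunOn hq, Real.coe_toNNReal _ (by positivity)]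
    have := hdist p hp q hq
    rw [inv_mul_eq_div, le_div_iff₀ hc, mul_comm]
    exact this
  have himg : Function.invFunOn F S '' (F '' S) = S := by
    rw [image_image]
    ext p
    constructor
    · rintro ⟨q, hq, rfl⟩
      have hq' : Function.invFunOn F S (F q) = q := hinj.leftInvOn_invFunOn hq
      show Function.invFunOn F S (F q) ∈ S
      rw [hq']; exact hq
    · intro hp
      exact ⟨p, hp, hinj.leftInvOn_invFunOn hp⟩
  have hle := hinv.hausdorffMeasure_image_le (by norm_num : (0 : ℝ) ≤ 2)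
  rw [himg, hausdorffMeasure_prod_real] at hle
  have e1 : ∫⁻ p in S, ENNReal.ofReal (ω p.1 p.2) ^ 2 = ENNReal.ofReal c ^ 2 * volume S := by
    rw [setLIntegral_congr_fun hSm (g := fun _ => ENNReal.ofReal c ^ 2)
      (fun p hp => by simp only; rw [homS p hp])]
    simp
  rw [e1]
  calc ENNReal.ofReal c ^ 2 * volume S ≤ ENNReal.ofReal c ^ 2 *
        ((Real.toNNReal c⁻¹ : ℝ≥0∞) ^ (2 : ℝ) *
          (Measure.hausdorffMeasure 2 : Measure Pt) (F '' S)) := by gcongr
    _ = (Measure.hausdorffMeasure 2 : Measure Pt) (F '' S) := by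
      rw [← mul_assoc]
      have e2 : ENNReal.ofReal c ^ 2 * (Real.toNNReal c⁻¹ : ℝ≥0∞) ^ (2 : ℝ) = 1 := by
        have e3 : (Real.toNNReal c⁻¹ : ℝ≥0∞) ^ (2 : ℝ) = ENNReal.ofReal c⁻¹ ^ 2 := by
          have : (2 : ℝ) = ((2 : ℕ) : ℝ) := by norm_num
          rw [this, ENNReal.rpow_natCast]; rfl
        rw [e3, ← mul_pow, ← ENNReal.ofReal_mul hc.le, mul_inv_cancel₀ hc.ne']
        simp
      rw [e2, one_mul]

lemma set_lower {A : Set Pt} (hA : MeasurableSet A) :
    ∫⁻ p in strip ∩ (fun p : ℝ × ℝ => pt p.1 p.2) ⁻¹' A, ENNReal.ofReal (ω p.1 p.2) ^ 2 ≤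
      (Measure.hausdorffMeasure 2 : Measure Pt) A := by
  set F : ℝ × ℝ → Pt := fun p => pt p.1 p.2 with hF
  have hFc : Continuous F := continuous_pt
  have hFm : Measurable F := hFc.measurable
  set g : ℝ × ℝ → ℝ≥0∞ := fun p => ENNReal.ofReal (ω p.1 p.2) ^ 2 with hg
  have hgm : Measurable g := (measurable_ω.ennreal_ofReal).pow_const 2
  obtain ⟨e, he⟩ := exists_surjective_nat (ℚ × ℚ × ℚ)
  set Q : ℕ → Set (ℝ × ℝ) := fun m => Sq (e m) with hQ
  have hQm : ∀ m, MeasurableSet (Q m) := fun m => measurableSet_Sq _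
  set T : Set (ℝ × ℝ) := strip ∩ F ⁻¹' A with hT
  have hTm : MeasurableSet T := measurableSet_strip.inter (hFm hA)
  set S : ℕ → Set (ℝ × ℝ) := fun m => T ∩ disjointed Q m with hS
  have hSm : ∀ m, MeasurableSet (S m) := fun m =>
    hTm.inter (MeasurableSet.disjointed hQm m)
  have hSQ : ∀ m, S m ⊆ Sq (e m) := fun m => inter_subset_right.trans (disjointed_subset Q m)
  have h1 : ∫⁻ p in T, g p ≤ ∫⁻ p in ⋃ m, S m, g p := by
    have e1 : (⋃ m, S m) = T ∩ ⋃ m, Q m := by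
      rw [hS, ← inter_iUnion, iUnion_disjointed]
    rw [e1, ← lintegral_indicator hTm, ← lintegral_indicator (hTm.inter (MeasurableSet.iUnion hQm))]
    refine lintegral_mono_ae ?_
    filter_upwards [ae_mem_Sq] with p hp
    by_cases hpT : p ∈ T
    · rw [indicator_of_mem hpT]
      by_cases h0 : ω p.1 p.2 = 0
      · rw [hg]; simp [h0]
      · obtain ⟨t, ht⟩ := hp h0
        obtain ⟨m, rfl⟩ := he t
        have hmem : p ∈ T ∩ ⋃ m, Q m := ⟨hpT, mem_iUnion.mpr ⟨m, ht⟩⟩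
        rw [indicator_of_mem hmem]
    · rw [indicator_of_notMem hpT]; exact zero_le
  have hdisj : Pairwise (Function.onFun Disjoint fun m => F '' S m) := by
    intro m l hml
    rw [Function.onFun, Set.disjoint_left]
    rintro _ ⟨p, hp, rfl⟩ ⟨q, hq, hpq⟩
    have : q = p := injOn_strip hq.1.1 hp.1.1 hpq
    subst this
    exact Set.disjoint_left.mp (disjoint_disjointed Q hml) hp.2 hq.2
  have himm : ∀ m, MeasurableSet (F '' S m) := fun m =>
    (hSm m).image_of_continuousOn_injOn hFc.continuousOn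
      (injOn_strip.mono (fun p hp => hp.1.1))
  calc ∫⁻ p in T, g p ≤ ∫⁻ p in ⋃ m, S m, g p := h1
    _ ≤ ∑' m, ∫⁻ p in S m, g p := lintegral_iUnion_le _ _
    _ ≤ ∑' m, (Measure.hausdorffMeasure 2 : Measure Pt) (F '' S m) :=
      ENNReal.tsum_le_tsum fun m => Sq_le (e m) (hSQ m) (hSm m)
    _ = (Measure.hausdorffMeasure 2 : Measure Pt) (⋃ m, F '' S m) :=
      (measure_iUnion hdisj himm).symm
    _ ≤ _ := by
      apply measure_mono
      refine iUnion_subset fun m => ?_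
      rintro _ ⟨p, hp, rfl⟩
      exact hp.1.2

theorem hausdorff_lower (f : Pt → ℝ≥0∞) (hf : Measurable f) :
    ∫⁻ p in (univ : Set ℝ) ×ˢ Ico (0 : ℝ) 1, f (pt p.1 p.2) * ENNReal.ofReal (ω p.1 p.2) ^ 2 ≤
      ∫⁻ x, f x ∂(Measure.hausdorffMeasure 2 : Measure Pt) := by
  set F : ℝ × ℝ → Pt := fun p => pt p.1 p.2 with hF
  have hFm : Measurable F := (continuous_pt : Continuous F).measurable
  set g : ℝ × ℝ → ℝ≥0∞ := fun p => ENNReal.ofReal (ω p.1 p.2) ^ 2 with hg
  have hgm : Measurable g := (measurable_ω.ennreal_ofReal).pow_const 2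
  set ν : Measure Pt := ((volume.restrict strip).withDensity g).map F with hν
  have hle : ν ≤ (Measure.hausdorffMeasure 2 : Measure Pt) := by
    rw [Measure.le_iff]
    intro A hA
    rw [hν, Measure.map_apply hFm hA, withDensity_apply _ (hFm hA), Measure.restrict_restrict (hFm hA),
      inter_comm]
    exact set_lower hA
  calc _ = ∫⁻ x, f x ∂ν := by
        have h1 := lintegral_withDensity_eq_lintegral_mul (volume.restrict strip) hgm (hf.comp hFm)
        have h2 : ∫⁻ x, f x ∂ν = ∫⁻ a, (f ∘ F) a ∂(volume.restrict strip).withDensity g := by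
          rw [hν, lintegral_map hf hFm]
          rfl
        rw [h2, h1]
        refine lintegral_congr fun p => ?_
        simp only [Pi.mul_apply, Function.comp, hF, hg]
        rw [mul_comm]
    _ ≤ _ := lintegral_mono' hle le_rfl

theorem lintegral_sq_le (ρ : Pt → ℝ≥0∞) (hρ : Measurable ρ) :
    ∫⁻ z in (univ ×ˢ Ico (0 : ℝ) 1 : Set (ℝ × ℝ)),
      (ρ (pt z.1 z.2) * ENNReal.ofReal (ω z.1 z.2)) ^ 2 ≤
    ∫⁻ x, ρ x ^ 2 ∂(Measure.hausdorffMeasure 2 : Measure Pt) := by
  have h := hausdorff_lower (fun x => ρ x ^ 2) (hρ.pow_const 2)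
  simpa only [mul_pow] using h

end Pool.MP_0f1fb3_an
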