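import Pool.Agent.Lib.MP_0f1fb3_an.Top

set_option autoImplicit false

open MeasureTheory Set
open scoped ENNReal NNReal Topology

namespace Pool.MP_0f1fb3_an

lemma summable_Kc : Summable Kc := by
  have h0 : Summable fun n : ℕ => 4 / ((n : ℝ) + 1) ^ 2 := by
    have h1 : Summable fun n : ℕ => (1 : ℝ) / (n : ℝ) ^ 2 :=
      Real.summable_one_div_nat_pow.2 (by norm_num)
    have h2 := ((summable_nat_add_iff 1).2 h1).mul_left 4
    refine h2.congr fun n => ?_
    push_cast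
    ring
  refine Summable.of_nat_of_neg ?_ ?_
  · refine Summable.of_nonneg_of_le (fun n => (Kc_pos _).le) (fun n => (Kc_le _).trans ?_) h0
    simp
  · refine Summable.of_nonneg_of_le (fun n => (Kc_pos _).le) (fun n => (Kc_le _).trans ?_) h0
    simp

lemma tsum_Kc_lt_top : ∑' j : ℤ, ENNReal.ofReal (Kc j) < ⊤ := by
  rw [← ENNReal.ofReal_tsum_of_nonneg (fun j => (Kc_pos j).le) summable_Kc]
  exact ENNReal.ofReal_lt_top

/-- the half open column `[j, j+1) × [0, 1)` -/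
def col (j : ℤ) : Set (ℝ × ℝ) := Ico (j : ℝ) (j + 1) ×ˢ Ico (0 : ℝ) 1

lemma volume_col (j : ℤ) : volume (col j) = 1 := by
  unfold col
  rw [Measure.volume_eq_prod, Measure.prod_prod, Real.volume_Ico, Real.volume_Ico]
  simp

lemma floor_of_mem_col {j : ℤ} {u : ℝ} (h : u ∈ Ico (j : ℝ) (j + 1)) : ⌊u⌋ = j :=
  Int.floor_eq_iff.2 ⟨h.1, h.2⟩

lemma lip_hor {j : ℤ} {u u' : ℝ} (v : ℝ) (hu : u ∈ Ico (j : ℝ) (j + 1))
    (hu' : u' ∈ Ico (j : ℝ) (j + 1)) : dst (pt u v) (pt u' v) ≤ Kc j * |u - u'| := by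
  wlog h : u ≤ u' generalizing u u'
  · rw [dst_comm, abs_sub_comm]; exact this hu' hu (le_of_not_ge h)
  refine (dst_hor v h).trans ?_
  have : ∫ t in u..u', ω t v ≤ ∫ _ in u..u', Kc j := by
    refine intervalIntegral.integral_mono_on h (ii_ω_left _ _ _) (by simp) fun t ht => ?_
    have hf : ⌊t⌋ = j := floor_of_mem_col ⟨hu.1.trans ht.1, ht.2.trans_lt hu'.2⟩
    have := ω_le_Kc t v
    rwa [hf] at this
  refine this.trans ?_
  rw [intervalIntegral.integral_const, smul_eq_mul, abs_sub_comm, mul_comm]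
  exact mul_le_mul_of_nonneg_left (le_abs_self _) (Kc_pos j).le

lemma lip_ver {j : ℤ} {u : ℝ} (v v' : ℝ) (hu : u ∈ Ico (j : ℝ) (j + 1)) :
    dst (pt u v) (pt u v') ≤ Kc j * |v - v'| := by
  wlog h : v ≤ v' generalizing v v'
  · rw [dst_comm, abs_sub_comm]; exact this _ _ (le_of_not_ge h)
  refine (dst_ver u h).trans ?_
  have : ∫ t in v..v', ω u t ≤ ∫ _ in v..v', Kc j := by
    refine intervalIntegral.integral_mono_on h (ii_ω_right _ _ _) (by simp) fun t ht => ?_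
    have := ω_le_Kc u t
    rwa [floor_of_mem_col hu] at this
  refine this.trans ?_
  rw [intervalIntegral.integral_const, smul_eq_mul, abs_sub_comm, mul_comm]
  exact mul_le_mul_of_nonneg_left (le_abs_self _) (Kc_pos j).le

lemma lipschitzOnWith_col (j : ℤ) :
    LipschitzOnWith (2 * (Kc j).toNNReal) (fun z : ℝ × ℝ => pt z.1 z.2) (col j) := by
  apply LipschitzOnWith.of_dist_le_mul
  rintro z hz w hw
  rw [dist_def, Prod.dist_eq, Real.dist_eq, Real.dist_eq]
  have h1 := le_max_left |z.1 - w.1| |z.2 - w.2|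
  have h2 := le_max_right |z.1 - w.1| |z.2 - w.2|
  have h3 : dst (pt z.1 z.2) (pt w.1 z.2) ≤ Kc j * |z.1 - w.1| := lip_hor _ hz.1 hw.1
  have h4 : dst (pt w.1 z.2) (pt w.1 w.2) ≤ Kc j * |z.2 - w.2| := lip_ver _ _ hw.1
  have h5 := dst_triangle (pt z.1 z.2) (pt w.1 z.2) (pt w.1 w.2)
  push_cast
  rw [Real.coe_toNNReal _ (Kc_pos j).le]
  have h6 := mul_le_mul_of_nonneg_left h1 (Kc_pos j).le
  have h7 := mul_le_mul_of_nonneg_left h2 (Kc_pos j).le
  show dst (pt z.1 z.2) (pt w.1 w.2) ≤ _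
  nlinarith

lemma hausdorff_col_le (j : ℤ) :
    (Measure.hausdorffMeasure 2 : Measure Pt) ((fun z : ℝ × ℝ => pt z.1 z.2) '' col j) ≤
      4 * ENNReal.ofReal (Kc j) := by
  have h := (lipschitzOnWith_col j).hausdorffMeasure_image_le (d := 2) (by norm_num)
  refine h.trans ?_
  rw [hausdorffMeasure_prod_real, volume_col, mul_one]
  have e : ((2 * (Kc j).toNNReal : ℝ≥0) : ℝ≥0∞) = ENNReal.ofReal (2 * Kc j) := by
    rw [ENNReal.ofReal, Real.toNNReal_mul (by norm_num)]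
    simp
  rw [e, ENNReal.ofReal_rpow_of_nonneg (by have := Kc_pos j; positivity) (by norm_num)]
  have e4 : (4 : ℝ≥0∞) = ENNReal.ofReal 4 := by simp
  rw [e4, ← ENNReal.ofReal_mul (by norm_num)]
  apply ENNReal.ofReal_le_ofReal
  have h1 := Kc_pos j
  have h2 := Kc_le_one j
  rw [show (2 : ℝ) = ((2 : ℕ) : ℝ) by norm_num, Real.rpow_natCast]
  push_cast
  nlinarith

theorem hausdorffMeasure_lt_top :
    (Measure.hausdorffMeasure 2 : Measure Pt) univ < ⊤ := by
  have : NullSingletonClass (Measure.hausdorffMeasure 2 : Measure Pt) :=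
    Measure.nullSingletonClass_hausdorff Pt (by norm_num)
  have hcov : (univ : Set Pt) ⊆
      (⋃ j : ℤ, (fun z : ℝ × ℝ => pt z.1 z.2) '' col j) ∪ ({Pt.top} ∪ {Pt.bot}) := by
    intro p _
    rcases Pt.cases' p with rfl | rfl | ⟨u, v, hv, rfl⟩
    · right; left; rfl
    · right; right; rfl
    · left
      rw [mem_iUnion]
      exact ⟨⌊u⌋, (u, v), ⟨⟨Int.floor_le u, Int.lt_floor_add_one u⟩, hv⟩, rfl⟩
  refine (measure_mono hcov).trans_lt ?_
  refine (measure_union_le _ _).trans_lt ?_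
  have h0 : (Measure.hausdorffMeasure 2 : Measure Pt) ({Pt.top} ∪ {Pt.bot}) = 0 := by
    rw [measure_union_null_iff]; exact ⟨measure_singleton _, measure_singleton _⟩
  rw [h0, add_zero]
  refine (measure_iUnion_le _).trans_lt ?_
  refine (ENNReal.tsum_le_tsum hausdorff_col_le).trans_lt ?_
  rw [ENNReal.tsum_mul_left]
  exact ENNReal.mul_lt_top (by simp) tsum_Kc_lt_top

theorem volume_Fz_lt_top :
    volume (Fz ∩ (univ ×ˢ Ico (0 : ℝ) 1)) < ⊤ := by
  have hcov : Fz ∩ (univ ×ˢ Ico (0 : ℝ) 1) ⊆ ⋃ j : ℤ, F2 κ j := by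
    rintro z ⟨hz, hz'⟩
    rw [mem_iUnion]
    exact ⟨⌊z.1⌋, hz, ⟨Int.floor_le _, Int.lt_floor_add_one _⟩, hz'.2⟩
  refine (measure_mono hcov).trans_lt ((measure_iUnion_le _).trans_lt ?_)
  refine (ENNReal.tsum_le_tsum fun j => (volume_F2_le κ j).trans ?_).trans_lt tsum_Kc_lt_top
  apply ENNReal.ofReal_le_ofReal
  unfold Kc
  exact pow_le_pow_left₀ (by norm_num) (by norm_num) _

end Pool.MP_0f1fb3_an
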