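import Mathlib

set_option autoImplicit false

open MeasureTheory Set
open scoped ENNReal NNReal Topology

namespace Pool.MP_0f1fb3_an

/-- `X` is doubling: there is `N` such that every ball of radius `r` is covered by `N` balls of
radius `r/2`. -/
def IsDoubling (X : Type) [MetricSpace X] : Prop :=
  ∃ N : ℕ, ∀ (x : X) (r : ℝ), 0 < r →
    ∃ t : Finset X, t.card ≤ N ∧ Metric.ball x r ⊆ ⋃ y ∈ t, Metric.ball y (r / 2)

/-- The unit sphere of `ℝ³` with the Euclidean distance: this is the Riemann sphere `Ĉ` with the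
chordal metric. -/
abbrev S2 : Type := Metric.sphere (0 : EuclideanSpace ℝ (Fin 3)) 1

/-- `f : Y → X` satisfies the quasisymmetry inequality for some homeomorphism
`η : [0,∞) → [0,∞)`. -/
def IsQuasisymmetric {Y X : Type} [MetricSpace Y] [MetricSpace X] (f : Y → X) : Prop :=
  ∃ η : ℝ≥0 ≃ₜ ℝ≥0, ∀ (x a y : Y) (t : ℝ≥0),
    dist x a ≤ t * dist y a → dist (f x) (f a) ≤ η t * dist (f y) (f a)

/-- `X` is a quasisphere: there is a quasisymmetric homeomorphism from the sphere onto `X`. -/
def IsQuasisphere (X : Type) [MetricSpace X] : Prop :=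
  ∃ f : S2 ≃ₜ X, IsQuasisymmetric f

section curves
variable {X : Type} [MetricSpace X]

/-- The arc length function `t ↦ ℓ(γ|[a,t])` of a curve `γ : [a,b] → X` (constant after `b`). -/
noncomputable def arcLen (γ : ℝ → X) (a b t : ℝ) : ℝ :=
  (eVariationOn γ (Icc a (min t b))).toReal

/-- The line integral `∫_γ ρ ds` of `ρ` over a rectifiable curve `γ : [a,b] → X`: the
Lebesgue-Stieltjes integral of `ρ ∘ γ` over `[a,b]` against the arc length function. (For a
rectifiable curve the arc length function is monotone, so the first case of the definition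
applies.) -/
noncomputable def lineInt (ρ : X → ℝ≥0∞) (γ : ℝ → X) (a b : ℝ) : ℝ≥0∞ :=
  open scoped Classical in
  if h : Monotone (arcLen γ a b) then
    ∫⁻ t in Icc a b, ρ (γ t) ∂h.stieltjesFunction.measure
  else ⊤

/-- `γ : [a,b] → X` is a rectifiable curve. -/
structure IsRectCurve (γ : ℝ → X) (a b : ℝ) : Prop where
  le : a ≤ b
  cont : ContinuousOn γ (Icc a b)
  rect : eVariationOn γ (Icc a b) ≠ ⊤

variable [MeasurableSpace X] [BorelSpace X]

/-- `ρ` is admissible for the family `Γ(E, F; X)` of curves joining `E` to `F`. -/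
def IsAdmissible (E F : Set X) (ρ : X → ℝ≥0∞) : Prop :=
  Measurable ρ ∧ ∀ (γ : ℝ → X) (a b : ℝ), IsRectCurve γ a b → γ a ∈ E → γ b ∈ F →
    1 ≤ lineInt ρ γ a b

/-- `Mod₂ Γ(E, F; X)`, with respect to the Hausdorff measure of dimension two. -/
noncomputable def mod2 (E F : Set X) : ℝ≥0∞ :=
  ⨅ (ρ : X → ℝ≥0∞) (_ : IsAdmissible E F ρ), ∫⁻ x, ρ x ^ 2 ∂(Measure.hausdorffMeasure 2 : Measure X)

end curves

/-- a nondegenerate continuum -/
structure IsContinuum {X : Type} [MetricSpace X] (E : Set X) : Prop where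
  compact : IsCompact E
  connected : IsConnected E
  nontrivial : E.Nontrivial

/-- the distance between two sets -/
noncomputable def setDist {X : Type} [MetricSpace X] (E F : Set X) : ℝ :=
  ⨅ p : E × F, dist (p.1 : X) (p.2 : X)

/-- `X` is `2`-Loewner. -/
def IsLoewner (X : Type) [MetricSpace X] [MeasurableSpace X] [BorelSpace X] : Prop :=
  ∃ φ : ℝ → ℝ, (∀ t, 0 < t → 0 < φ t) ∧
    ∀ (E F : Set X) (t : ℝ), 0 < t → IsContinuum E → IsContinuum F → Disjoint E F →
      setDist E F ≤ t * min (Metric.diam E) (Metric.diam F) →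
      ENNReal.ofReal (φ t) ≤ mod2 E F

end Pool.MP_0f1fb3_an
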