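import Pool.Agent.Lib.MP_0f1fb3_an.Digits

set_option autoImplicit false

open MeasureTheory Set
open scoped ENNReal NNReal Topology

namespace Pool.MP_0f1fb3_an

/-! ## sums over digits -/

lemma sum_range_mul20 (g : ℕ → ℝ) (n : ℕ) :
    ∑ a ∈ Finset.range (20 * n), g a =
      ∑ A ∈ Finset.range n, ∑ d ∈ Finset.range 20, g (20 * A + d) := by
  induction n with
  | zero => simp
  | succ n ih =>
    rw [show 20 * (n + 1) = 20 * n + 20 by ring, Finset.sum_range_add, ih,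
      Finset.sum_range_succ (fun A => ∑ d ∈ Finset.range 20, g (20 * A + d)) n]

lemma bd_mul_add (A : ℤ) (d : ℕ) (hd : d < 20) : bd (20 * A + d) ↔ (d = 0 ∨ d = 19) := by
  unfold bd; omega

lemma sum_digit (h : ℕ → ℝ) (R : ℕ) (A : ℤ) :
    ∑ d ∈ Finset.range 20, h (nxt R (bd (20 * A + (d : ℕ)))) =
      if R = 0 then 20 * h 0 else 2 * h (R - 1) + 18 * h (R + 1) := by
  have h1 : ∀ d ∈ Finset.range 20, h (nxt R (bd (20 * A + (d : ℕ)))) =
      if R = 0 then h 0 else if (d = 0 ∨ d = 19) then h (R - 1) else h (R + 1) := by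
    intro d hd
    rw [Finset.mem_range] at hd
    unfold nxt
    by_cases hR : R = 0
    · simp [hR]
    · simp only [hR, if_false, bd_mul_add A d hd]
      split_ifs <;> rfl
  rw [Finset.sum_congr rfl h1]
  by_cases hR : R = 0
  · simp [hR]
  · simp only [hR, if_false]
    simp only [Finset.sum_range_succ, Finset.sum_range_zero]
    norm_num
    ring

lemma S1_succ (h : ℕ → ℝ) (r k : ℕ) :
    ∑ a ∈ Finset.range (20 ^ (k + 1)), h (R1 r (k + 1) (a : ℤ)) =
      ∑ A ∈ Finset.range (20 ^ k),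
        (if R1 r k (A : ℤ) = 0 then 20 * h 0
          else 2 * h (R1 r k (A : ℤ) - 1) + 18 * h (R1 r k (A : ℤ) + 1)) := by
  rw [pow_succ', sum_range_mul20]
  refine Finset.sum_congr rfl fun A _ => ?_
  rw [← sum_digit h (R1 r k (A : ℤ)) (A : ℤ)]
  refine Finset.sum_congr rfl fun d hd => ?_
  rw [Finset.mem_range] at hd
  rw [R1_succ]
  have e : (((20 * A + d : ℕ) : ℤ)) / 20 = A := by push_cast; omega
  rw [e]
  push_cast
  rfl

lemma S1_nine (r k : ℕ) :
    ∑ a ∈ Finset.range (20 ^ k), ((1 / 9 : ℝ)) ^ (R1 r k (a : ℤ)) = 20 ^ k * (1 / 9) ^ r := by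
  induction k with
  | zero => simp [R1]
  | succ k ih =>
    rw [S1_succ (fun n => (1 / 9 : ℝ) ^ n)]
    rw [show (20 : ℝ) ^ (k + 1) * (1 / 9) ^ r = 20 * (20 ^ k * (1 / 9) ^ r) by ring, ← ih,
      Finset.mul_sum]
    refine Finset.sum_congr rfl fun A _ => ?_
    rcases Nat.eq_zero_or_pos (R1 r k (A : ℤ)) with h0 | h0
    · simp [h0]
    · obtain ⟨n, hn⟩ := Nat.exists_eq_succ_of_ne_zero h0.ne'
      rw [hn]
      simp only [Nat.succ_eq_add_one, Nat.add_eq_zero_iff, one_ne_zero, and_false, if_false,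
        Nat.add_sub_cancel]
      ring

lemma S1_three (r k : ℕ) :
    ∑ a ∈ Finset.range (20 ^ k),
      (if R1 r k (a : ℤ) = 0 then 0 else ((1 / 3 : ℝ)) ^ (R1 r k (a : ℤ))) ≤ 12 ^ k * (1 / 3) ^ r := by
  induction k with
  | zero =>
    simp only [pow_zero, Finset.range_one, Finset.sum_singleton, R1, one_mul]
    split_ifs
    · positivity
    · exact le_rfl
  | succ k ih =>
    rw [S1_succ (fun n => if n = 0 then (0 : ℝ) else (1 / 3 : ℝ) ^ n)]
    calc _ ≤ ∑ A ∈ Finset.range (20 ^ k), 12 *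
          (if R1 r k (A : ℤ) = 0 then 0 else ((1 / 3 : ℝ)) ^ (R1 r k (A : ℤ))) := by
          refine Finset.sum_le_sum fun A _ => ?_
          rcases Nat.eq_zero_or_pos (R1 r k (A : ℤ)) with h0 | h0
          · simp [h0]
          · obtain ⟨n, hn⟩ := Nat.exists_eq_succ_of_ne_zero h0.ne'
            rw [hn]
            simp only [Nat.succ_eq_add_one, Nat.add_eq_zero_iff, one_ne_zero, and_false, if_false,
              Nat.add_sub_cancel]
            have hp : (0 : ℝ) < (1 / 3) ^ n := by positivity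
            rcases Nat.eq_zero_or_pos n with hn0 | hn0
            · subst hn0; norm_num
            · rw [if_neg hn0.ne']
              rw [pow_succ, pow_succ]
              nlinarith
      _ = 12 * ∑ A ∈ Finset.range (20 ^ k),
          (if R1 r k (A : ℤ) = 0 then 0 else ((1 / 3 : ℝ)) ^ (R1 r k (A : ℤ))) := by
          rw [Finset.mul_sum]
      _ ≤ 12 * (12 ^ k * (1 / 3) ^ r) := by gcongr
      _ = _ := by ring

/-- number of frozen cells at depth `k` -/
noncomputable def cnt (r k : ℕ) : ℝ :=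
  ∑ a ∈ Finset.range (20 ^ k), (if R1 r k (a : ℤ) = 0 then (1 : ℝ) else 0)

lemma cnt_le (r k : ℕ) : cnt r k ≤ 20 ^ k * (1 / 9) ^ r := by
  rw [← S1_nine]
  unfold cnt
  refine Finset.sum_le_sum fun a _ => ?_
  split_ifs with h
  · simp [h]
  · positivity

lemma le_cnt (r k : ℕ) : 20 ^ k * (1 / 9) ^ r - 12 ^ k * (1 / 3) ^ r ≤ cnt r k := by
  have h1 := S1_three r k
  rw [← S1_nine]
  have h2 : ∑ a ∈ Finset.range (20 ^ k), ((1 / 9 : ℝ)) ^ (R1 r k (a : ℤ)) ≤
      cnt r k + ∑ a ∈ Finset.range (20 ^ k),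
      (if R1 r k (a : ℤ) = 0 then 0 else ((1 / 3 : ℝ)) ^ (R1 r k (a : ℤ))) := by
    unfold cnt
    rw [← Finset.sum_add_distrib]
    refine Finset.sum_le_sum fun a _ => ?_
    split_ifs with h
    · simp [h]
    · rw [zero_add]
      gcongr
      norm_num
  linarith

lemma tendsto_cnt (r : ℕ) :
    Filter.Tendsto (fun k => cnt r k / 20 ^ k) Filter.atTop (𝓝 ((1 / 9 : ℝ) ^ r)) := by
  have h1 : Filter.Tendsto (fun k : ℕ => (1 / 9 : ℝ) ^ r - (3 / 5) ^ k * (1 / 3) ^ r)
      Filter.atTop (𝓝 ((1 / 9 : ℝ) ^ r - 0 * (1 / 3) ^ r)) := by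
    apply Filter.Tendsto.sub tendsto_const_nhds
    apply Filter.Tendsto.mul_const
    exact tendsto_pow_atTop_nhds_zero_of_lt_one (by norm_num) (by norm_num)
  rw [zero_mul, sub_zero] at h1
  refine tendsto_of_tendsto_of_tendsto_of_le_of_le h1 tendsto_const_nhds ?_ ?_
  · intro k
    have h2 := le_cnt r k
    have hp : (0 : ℝ) < 20 ^ k := by positivity
    show _ ≤ cnt r k / 20 ^ k
    rw [le_div_iff₀ hp]
    have : ((3 / 5 : ℝ)) ^ k * 20 ^ k = 12 ^ k := by rw [← mul_pow]; norm_num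
    calc ((1 / 9 : ℝ) ^ r - (3 / 5) ^ k * (1 / 3) ^ r) * 20 ^ k
        = 20 ^ k * (1 / 9) ^ r - ((3 / 5) ^ k * 20 ^ k) * (1 / 3) ^ r := by ring
      _ ≤ _ := by rw [this]; exact h2
  · intro k
    have hp : (0 : ℝ) < 20 ^ k := by positivity
    show cnt r k / 20 ^ k ≤ _
    rw [div_le_iff₀ hp, mul_comm]
    exact cnt_le r k

/-! ## integrals of step functions -/

lemma lint_cell (g : ℤ → ℝ≥0∞) (k : ℕ) (a : ℤ) :
    ∫⁻ x in Ico ((a : ℝ) / 20 ^ k) (((a : ℝ) + 1) / 20 ^ k), g (fl k x) =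
      g a * ENNReal.ofReal (1 / 20 ^ k) := by
  rw [setLIntegral_congr_fun measurableSet_Ico (g := fun _ => g a)
    (fun x hx => by rw [(fl_eq_iff k x a).2 hx])]
  rw [setLIntegral_const, Real.volume_Ico]
  congr 2
  ring

lemma lint_fl (g : ℤ → ℝ≥0∞) (k : ℕ) (A : ℤ) (n : ℕ) :
    ∫⁻ x in Ico ((A : ℝ) / 20 ^ k) (((A : ℝ) + n) / 20 ^ k), g (fl k x) =
      (∑ i ∈ Finset.range n, g (A + i)) * ENNReal.ofReal (1 / 20 ^ k) := by
  induction n with
  | zero => simp
  | succ n ih =>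
    have hp : (0 : ℝ) < 20 ^ k := by positivity
    have e : Ico ((A : ℝ) / 20 ^ k) (((A : ℝ) + (n + 1 : ℕ)) / 20 ^ k) =
        Ico ((A : ℝ) / 20 ^ k) (((A : ℝ) + n) / 20 ^ k) ∪
        Ico ((((A + n : ℤ) : ℝ)) / 20 ^ k) ((((A + n : ℤ) : ℝ) + 1) / 20 ^ k) := by
      push_cast
      rw [Ico_union_Ico_eq_Ico]
      · congr 1; ring
      · exact div_le_div_of_nonneg_right (by simp) hp.le
      · exact div_le_div_of_nonneg_right (by simp) hp.le
    rw [e, lintegral_union measurableSet_Ico, ih, lint_cell, Finset.sum_range_succ, add_mul]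
    push_cast
    exact Ico_disjoint_Ico_same

lemma volume_F1k (r k : ℕ) : volume (F1k r k ∩ Ico 0 1) = ENNReal.ofReal (cnt r k / 20 ^ k) := by
  have h := lint_fl (fun a => if R1 r k a = 0 then 1 else 0) k 0 (20 ^ k)
  have hp : (0 : ℝ) < 20 ^ k := by positivity
  have e1 : (((0 : ℤ) : ℝ)) / 20 ^ k = 0 := by simp
  have e2 : ((((0 : ℤ) : ℝ)) + ((20 ^ k : ℕ) : ℝ)) / 20 ^ k = 1 := by
    push_cast; rw [zero_add, div_self hp.ne']
  rw [e1, e2] at h
  have e3 : ∫⁻ x in Ico (0 : ℝ) 1, (if R1 r k (fl k x) = 0 then (1 : ℝ≥0∞) else 0) =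
      volume (F1k r k ∩ Ico 0 1) := by
    have : ∀ x, (if R1 r k (fl k x) = 0 then (1 : ℝ≥0∞) else 0) =
        (F1k r k).indicator 1 x := by
      intro x
      by_cases hx : R1 r k (fl k x) = 0
      · rw [if_pos hx, indicator_of_mem (show x ∈ F1k r k from hx)]; rfl
      · rw [if_neg hx, indicator_of_notMem (show x ∉ F1k r k from hx)]
    simp_rw [this]
    rw [lintegral_indicator_one (measurableSet_F1k r k), Measure.restrict_apply
      (measurableSet_F1k r k)]
  rw [← e3, h]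
  unfold cnt
  rw [div_eq_mul_one_div (∑ a ∈ Finset.range (20 ^ k), (if R1 r k (a : ℤ) = 0 then (1 : ℝ) else 0)),
    ENNReal.ofReal_mul (Finset.sum_nonneg fun _ _ => by positivity)]
  congr 1
  rw [ENNReal.ofReal_sum_of_nonneg (fun _ _ => by positivity)]
  refine Finset.sum_congr rfl fun i _ => ?_
  rw [zero_add]
  split_ifs <;> simp

lemma volume_F1 (r : ℕ) : volume (F1 r ∩ Ico 0 1) = ENNReal.ofReal ((1 / 9) ^ r) := by
  have h1 : Filter.Tendsto (fun k => volume (F1k r k ∩ Ico 0 1)) Filter.atTop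
      (𝓝 (volume (⋃ k, F1k r k ∩ Ico 0 1))) :=
    tendsto_measure_iUnion_atTop (fun i j hij => inter_subset_inter_left _ (F1k_mono r hij))
  rw [← iUnion_inter, ← F1_eq] at h1
  have h2 : Filter.Tendsto (fun k => volume (F1k r k ∩ Ico 0 1)) Filter.atTop
      (𝓝 (ENNReal.ofReal ((1 / 9) ^ r))) := by
    simp_rw [volume_F1k]
    exact (ENNReal.continuous_ofReal.tendsto _).comp (tendsto_cnt r)
  exact tendsto_nhds_unique h1 h2

/-- real-valued indicator of `F1 r` -/
noncomputable def χ (r : ℕ) (x : ℝ) : ℝ := (F1 r).indicator 1 x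

lemma χ_nonneg (r : ℕ) (x : ℝ) : 0 ≤ χ r x := by
  unfold χ; exact indicator_nonneg (fun _ _ => by simp) _

lemma χ_le_one (r : ℕ) (x : ℝ) : χ r x ≤ 1 := by
  unfold χ; exact indicator_le_self' (fun _ _ => by simp) _

lemma measurable_χ (r : ℕ) : Measurable (χ r) :=
  measurable_one.indicator (measurableSet_F1 r)

lemma χ_anti {r r' : ℕ} (h : r ≤ r') (x : ℝ) : χ r' x ≤ χ r x := by
  unfold χ
  exact indicator_le_indicator_of_subset (F1_anti h) (fun _ => by simp) _

lemma χ_periodic (r : ℕ) : Function.Periodic (χ r) 1 := by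
  intro x
  have h : x + 1 ∈ F1 r ↔ x ∈ F1 r := by
    have := F1_add_int r x 1
    simpa using this
  unfold χ
  by_cases hx : x ∈ F1 r
  · rw [indicator_of_mem (h.2 hx), indicator_of_mem hx]; rfl
  · rw [indicator_of_notMem (fun h' => hx (h.1 h')), indicator_of_notMem hx]

lemma χ_intervalIntegrable (r : ℕ) (c : ℝ) (a b : ℝ) :
    IntervalIntegrable (fun x => χ r (c * x)) volume a b := by
  rw [intervalIntegrable_iff]
  refine Measure.integrableOn_of_bounded (M := 1) (by simp) ?_ ?_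
  · exact ((measurable_χ r).comp (measurable_const_mul c)).aestronglyMeasurable
  · exact Filter.Eventually.of_forall fun x => by
      rw [Real.norm_of_nonneg (χ_nonneg r _)]; exact χ_le_one r _

lemma integral_χ_zero_one (r : ℕ) : ∫ x in (0 : ℝ)..1, χ r x = (1 / 9) ^ r := by
  rw [intervalIntegral.integral_of_le zero_le_one, ← integral_Ico_eq_integral_Ioc]
  unfold χ
  rw [integral_indicator_one (measurableSet_F1 r)]
  rw [Measure.real, Measure.restrict_apply (measurableSet_F1 r), volume_F1,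
    ENNReal.toReal_ofReal (by positivity)]

lemma integral_χ (r : ℕ) (a : ℝ) (n : ℕ) : ∫ x in a..(a + n), χ r x = n * (1 / 9) ^ r := by
  have h := (χ_periodic r).intervalIntegral_add_zsmul_eq (n : ℤ) a
    (fun t₁ t₂ => by simpa using χ_intervalIntegrable r 1 t₁ t₂)
  simp only [zsmul_eq_mul, mul_one, Int.cast_natCast] at h
  rw [h]
  have h2 := (χ_periodic r).intervalIntegral_add_eq a 0
  rw [zero_add] at h2
  rw [h2, integral_χ_zero_one]

lemma integral_χ_cell (r k : ℕ) (a : ℝ) :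
    ∫ t in (a / 20 ^ k)..((a + 1) / 20 ^ k), χ r (20 ^ k * t) = (1 / 9) ^ r / 20 ^ k := by
  have hp : (0 : ℝ) < 20 ^ k := by positivity
  rw [intervalIntegral.integral_comp_mul_left (fun x => χ r x) hp.ne']
  rw [mul_div_cancel₀ _ hp.ne', mul_div_cancel₀ _ hp.ne']
  have := integral_χ r a 1
  rw [Nat.cast_one, one_mul] at this
  rw [this, smul_eq_mul]
  ring

lemma integral_χ_cell' (r k : ℕ) (a : ℝ) :
    ∫ t in (a / 20 ^ k)..((a + 1) / 20 ^ k), χ r (20 ^ (k + 1) * t) = (1 / 9) ^ r / 20 ^ k := by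
  have hp : (0 : ℝ) < 20 ^ k := by positivity
  have hp' : (0 : ℝ) < 20 ^ (k + 1) := by positivity
  rw [intervalIntegral.integral_comp_mul_left (fun x => χ r x) hp'.ne']
  have e1 : (20 : ℝ) ^ (k + 1) * (a / 20 ^ k) = 20 * a := by rw [pow_succ]; field_simp
  have e2 : (20 : ℝ) ^ (k + 1) * ((a + 1) / 20 ^ k) = 20 * a + (20 : ℕ) := by
    rw [pow_succ]; field_simp; push_cast; ring
  rw [e1, e2, integral_χ, smul_eq_mul]
  push_cast
  rw [pow_succ]
  field_simp

/-! ## two-dimensional frozen set: measure bound -/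

lemma sum_digit2 (h : ℕ → ℝ) (R : ℕ) (A B : ℤ) :
    ∑ d ∈ Finset.range 20, ∑ e ∈ Finset.range 20,
      h (nxt R (bd (20 * A + (d : ℕ)) ∨ bd (20 * B + (e : ℕ)))) =
      if R = 0 then 400 * h 0 else 76 * h (R - 1) + 324 * h (R + 1) := by
  have h1 : ∀ d ∈ Finset.range 20, ∀ e ∈ Finset.range 20,
      h (nxt R (bd (20 * A + (d : ℕ)) ∨ bd (20 * B + (e : ℕ)))) =
      if R = 0 then h 0 else if ((d = 0 ∨ d = 19) ∨ (e = 0 ∨ e = 19)) then h (R - 1)
        else h (R + 1) := by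
    intro d hd e he
    rw [Finset.mem_range] at hd he
    unfold nxt
    by_cases hR : R = 0
    · simp [hR]
    · simp only [hR, if_false, bd_mul_add A d hd, bd_mul_add B e he]
      split_ifs <;> rfl
  rw [Finset.sum_congr rfl fun d hd => Finset.sum_congr rfl (h1 d hd)]
  by_cases hR : R = 0
  · simp [hR]; ring
  · simp only [hR, if_false]
    simp only [Finset.sum_range_succ, Finset.sum_range_zero]
    norm_num
    ring

/-- sum over the depth-`k` cells of the column `j` -/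
noncomputable def S2sum (κ : ℤ → ℕ) (j : ℤ) (k : ℕ) (h : ℕ → ℝ) : ℝ :=
  ∑ a ∈ Finset.range (20 ^ k), ∑ b ∈ Finset.range (20 ^ k), h (R2 κ k (20 ^ k * j + a) b)

lemma S2sum_succ (κ : ℤ → ℕ) (j : ℤ) (k : ℕ) (h : ℕ → ℝ) :
    S2sum κ j (k + 1) h =
      S2sum κ j k (fun R => if R = 0 then 400 * h 0 else 76 * h (R - 1) + 324 * h (R + 1)) := by
  unfold S2sum
  rw [pow_succ' 20 k, sum_range_mul20]
  refine Finset.sum_congr rfl fun A _ => ?_
  simp_rw [sum_range_mul20]
  rw [Finset.sum_comm]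
  refine Finset.sum_congr rfl fun B _ => ?_
  rw [← sum_digit2 h _ (20 ^ k * j + A) B]
  refine Finset.sum_congr rfl fun d hd => Finset.sum_congr rfl fun e he => ?_
  rw [Finset.mem_range] at hd he
  rw [R2_succ]
  have e1 : ((20 : ℤ) ^ (k + 1) * j + ((20 * A + d : ℕ) : ℤ)) / 20 = 20 ^ k * j + A := by
    rw [pow_succ', mul_assoc]; push_cast; omega
  have e2 : (((20 * B + e : ℕ) : ℤ)) / 20 = B := by push_cast; omega
  have e3 : (20 : ℤ) ^ (k + 1) * j + ((20 * A + d : ℕ) : ℤ) = 20 * (20 ^ k * j + A) + (d : ℕ) := by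
    rw [pow_succ', mul_assoc]; push_cast; ring
  have e4 : (((20 * B + e : ℕ) : ℤ)) = 20 * (B : ℤ) + (e : ℕ) := by push_cast; rfl
  rw [e1, e2]
  simp only [e3, e4]

lemma S2sum_pow (κ : ℤ → ℕ) (j : ℤ) (k : ℕ) :
    S2sum κ j k (fun R => (19 / 81 : ℝ) ^ R) = 400 ^ k * (19 / 81) ^ κ j := by
  induction k with
  | zero => simp [S2sum, R2]
  | succ k ih =>
    rw [S2sum_succ, pow_succ, mul_comm ((400 : ℝ) ^ k), mul_assoc, ← ih]
    unfold S2sum
    rw [Finset.mul_sum]
    refine Finset.sum_congr rfl fun a _ => ?_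
    rw [Finset.mul_sum]
    refine Finset.sum_congr rfl fun b _ => ?_
    rcases Nat.eq_zero_or_pos (R2 κ k (20 ^ k * j + a) b) with h0 | h0
    · simp [h0]
    · obtain ⟨n, hn⟩ := Nat.exists_eq_succ_of_ne_zero h0.ne'
      rw [hn]
      simp only [Nat.succ_eq_add_one, Nat.add_eq_zero_iff, one_ne_zero, and_false, if_false,
        Nat.add_sub_cancel]
      ring

/-- frozen part of column `j` by depth `k` -/
def F2k (κ : ℤ → ℕ) (j : ℤ) (k : ℕ) : Set (ℝ × ℝ) :=
  {z | R2 κ k (fl k z.1) (fl k z.2) = 0} ∩ (Ico (j : ℝ) (j + 1) ×ˢ Ico (0 : ℝ) 1)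

lemma measurableSet_R2 (κ : ℤ → ℕ) (k : ℕ) :
    MeasurableSet {z : ℝ × ℝ | R2 κ k (fl k z.1) (fl k z.2) = 0} := by
  have h1 : Measurable fun z : ℝ × ℝ => (fl k z.1, fl k z.2) :=
    ((measurable_fl k).comp measurable_fst).prodMk ((measurable_fl k).comp measurable_snd)
  exact h1 (MeasurableSet.of_discrete (s := {p : ℤ × ℤ | R2 κ k p.1 p.2 = 0}))

lemma volume_F2k_le (κ : ℤ → ℕ) (j : ℤ) (k : ℕ) :
    volume (F2k κ j k) ≤ ENNReal.ofReal ((19 / 81) ^ κ j) := by
  have hp : (0 : ℝ) < 20 ^ k := by positivity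
  have hm : MeasurableSet (F2k κ j k) :=
    (measurableSet_R2 κ k).inter (measurableSet_Ico.prod measurableSet_Ico)
  rw [Measure.volume_eq_prod, Measure.prod_apply hm]
  -- inner measure
  have hin : ∀ x : ℝ, volume (Prod.mk x ⁻¹' F2k κ j k) =
      (Ico (j : ℝ) (j + 1)).indicator (fun x => (∑ b ∈ Finset.range (20 ^ k),
        (if R2 κ k (fl k x) b = 0 then (1 : ℝ≥0∞) else 0)) * ENNReal.ofReal (1 / 20 ^ k)) x := by
    intro x
    by_cases hx : x ∈ Ico (j : ℝ) (j + 1)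
    · rw [indicator_of_mem hx]
      have h := lint_fl (fun b => if R2 κ k (fl k x) b = 0 then 1 else 0) k 0 (20 ^ k)
      have e1 : (((0 : ℤ) : ℝ)) / 20 ^ k = 0 := by simp
      have e2 : ((((0 : ℤ) : ℝ)) + ((20 ^ k : ℕ) : ℝ)) / 20 ^ k = 1 := by
        push_cast; rw [zero_add, div_self hp.ne']
      rw [e1, e2] at h
      simp only [zero_add] at h
      rw [← h]
      have hms : MeasurableSet {y : ℝ | R2 κ k (fl k x) (fl k y) = 0} :=
        (measurable_fl k) (MeasurableSet.of_discrete (s := {b : ℤ | R2 κ k (fl k x) b = 0}))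
      have : ∀ y, (if R2 κ k (fl k x) (fl k y) = 0 then (1 : ℝ≥0∞) else 0) =
          ({y : ℝ | R2 κ k (fl k x) (fl k y) = 0}).indicator 1 y := by
        intro y
        by_cases hy : R2 κ k (fl k x) (fl k y) = 0
        · rw [if_pos hy, indicator_of_mem
            (show y ∈ {y : ℝ | R2 κ k (fl k x) (fl k y) = 0} from hy)]; rfl
        · rw [if_neg hy, indicator_of_notMem
            (show y ∉ {y : ℝ | R2 κ k (fl k x) (fl k y) = 0} from hy)]
      simp_rw [this]
      rw [lintegral_indicator_one hms, Measure.restrict_apply hms]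
      congr 1
      ext y
      simp only [F2k, mem_preimage, mem_inter_iff, mem_prod, mem_setOf_eq, hx, true_and]
    · rw [indicator_of_notMem hx]
      have : Prod.mk x ⁻¹' F2k κ j k = ∅ := by
        ext y
        simp only [F2k, mem_preimage, mem_inter_iff, mem_prod, hx, false_and, and_false,
          mem_empty_iff_false]
      rw [this, measure_empty]
  simp_rw [hin]
  rw [lintegral_indicator measurableSet_Ico]
  have h := lint_fl (fun a => (∑ b ∈ Finset.range (20 ^ k),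
        (if R2 κ k a b = 0 then (1 : ℝ≥0∞) else 0)) * ENNReal.ofReal (1 / 20 ^ k)) k
        (20 ^ k * j) (20 ^ k)
  have e1 : (((20 ^ k * j : ℤ) : ℝ)) / 20 ^ k = j := by
    push_cast; field_simp
  have e2 : ((((20 ^ k * j : ℤ) : ℝ)) + ((20 ^ k : ℕ) : ℝ)) / 20 ^ k = j + 1 := by
    push_cast; field_simp
  rw [e1, e2] at h
  rw [h]
  -- compare with the conserved sum
  have hS := S2sum_pow κ j k
  have key : (∑ i ∈ Finset.range (20 ^ k), (∑ b ∈ Finset.range (20 ^ k),
      (if R2 κ k (20 ^ k * j + i) b = 0 then (1 : ℝ≥0∞) else 0)) * ENNReal.ofReal (1 / 20 ^ k)) ≤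
      ENNReal.ofReal (400 ^ k * (19 / 81) ^ κ j) * ENNReal.ofReal (1 / 20 ^ k) := by
    rw [← Finset.sum_mul]
    gcongr
    rw [← hS]
    unfold S2sum
    rw [ENNReal.ofReal_sum_of_nonneg (fun _ _ => Finset.sum_nonneg fun _ _ => by positivity)]
    refine Finset.sum_le_sum fun a _ => ?_
    rw [ENNReal.ofReal_sum_of_nonneg (fun _ _ => by positivity)]
    refine Finset.sum_le_sum fun b _ => ?_
    split_ifs with h0
    · rw [h0]; simp
    · exact bot_le
  refine (mul_le_mul_left key (ENNReal.ofReal (1 / 20 ^ k))).trans ?_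
  rw [← ENNReal.ofReal_mul (by positivity), ← ENNReal.ofReal_mul (by positivity)]
  apply ENNReal.ofReal_le_ofReal
  have : (400 : ℝ) ^ k = 20 ^ k * 20 ^ k := by rw [← mul_pow]; norm_num
  rw [this]
  field_simp
  exact le_rfl

/-- frozen part of column `j` -/
def F2 (κ : ℤ → ℕ) (j : ℤ) : Set (ℝ × ℝ) :=
  {z | ∃ k, R2 κ k (fl k z.1) (fl k z.2) = 0} ∩ (Ico (j : ℝ) (j + 1) ×ˢ Ico (0 : ℝ) 1)

lemma volume_F2_le (κ : ℤ → ℕ) (j : ℤ) :
    volume (F2 κ j) ≤ ENNReal.ofReal ((19 / 81) ^ κ j) := by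
  have e : F2 κ j = ⋃ k, F2k κ j k := by
    ext z
    simp only [F2, F2k, mem_inter_iff, mem_setOf_eq, mem_iUnion]
    constructor
    · rintro ⟨⟨k, hk⟩, h⟩; exact ⟨k, hk, h⟩
    · rintro ⟨k, hk, h⟩; exact ⟨⟨k, hk⟩, h⟩
  have hmono : Monotone (F2k κ j) := by
    apply monotone_nat_of_le_succ
    rintro k z ⟨hz, hz'⟩
    refine ⟨?_, hz'⟩
    have hz0 : R2 κ k (fl k z.1) (fl k z.2) = 0 := hz
    show R2 κ (k + 1) (fl (k + 1) z.1) (fl (k + 1) z.2) = 0
    rw [R2_succ, fl_succ_div, fl_succ_div, hz0, nxt_zero]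
  rw [e, hmono.measure_iUnion]
  exact iSup_le fun k => volume_F2k_le κ j k

end Pool.MP_0f1fb3_an
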