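import Mathlib

set_option autoImplicit false

open MeasureTheory Set
open scoped ENNReal NNReal Topology

namespace Pool.MP_0f1fb3_an

/-! ## digits and walks -/

/-- the last base-20 digit is a boundary digit -/
def bd (i : ℤ) : Prop := i % 20 = 0 ∨ i % 20 = 19

instance : DecidablePred bd := fun i => by unfold bd; infer_instance

/-- one step of the walk (`0` is absorbing) -/
def nxt (r : ℕ) (P : Prop) [Decidable P] : ℕ := if r = 0 then 0 else if P then r - 1 else r + 1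

lemma nxt_zero (P : Prop) [Decidable P] : nxt 0 P = 0 := by simp [nxt]

lemma nxt_le (r : ℕ) (P : Prop) [Decidable P] : nxt r P ≤ r + 1 := by
  unfold nxt; split_ifs <;> omega

lemma le_nxt (r : ℕ) (P : Prop) [Decidable P] : r ≤ nxt r P + 1 := by
  unfold nxt; split_ifs <;> omega

lemma nxt_mono {r r' : ℕ} {P Q : Prop} [Decidable P] [Decidable Q] (h : r ≤ r') (hPQ : Q → P) :
    nxt r P ≤ nxt r' Q := by
  unfold nxt
  by_cases hP : P
  · by_cases hQ : Q
    · simp only [hP, hQ, if_true]; split_ifs <;> omega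
    · simp only [hP, hQ, if_true, if_false]; split_ifs <;> omega
  · have hQ : ¬ Q := fun q => hP (hPQ q)
    simp only [hP, hQ, if_false]; split_ifs <;> omega

/-- one-dimensional walk along the digits of a depth-`k` index -/
def R1 (r : ℕ) : ℕ → ℤ → ℕ
  | 0, _ => r
  | k + 1, a => nxt (R1 r k (a / 20)) (bd a)

/-- two-dimensional walk -/
def R2 (κ : ℤ → ℕ) : ℕ → ℤ → ℤ → ℕ
  | 0, a, _ => κ a
  | k + 1, a, b => nxt (R2 κ k (a / 20) (b / 20)) (bd a ∨ bd b)

lemma R1_zero (r : ℕ) (a : ℤ) : R1 r 0 a = r := rfl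
lemma R1_succ (r k : ℕ) (a : ℤ) : R1 r (k + 1) a = nxt (R1 r k (a / 20)) (bd a) := rfl
lemma R2_zero (κ : ℤ → ℕ) (a b : ℤ) : R2 κ 0 a b = κ a := rfl
lemma R2_succ (κ : ℤ → ℕ) (k : ℕ) (a b : ℤ) :
    R2 κ (k + 1) a b = nxt (R2 κ k (a / 20) (b / 20)) (bd a ∨ bd b) := rfl

lemma div_div_pow (a : ℤ) (l : ℕ) : a / 20 / 20 ^ l = a / 20 ^ (l + 1) := by
  rw [Int.ediv_ediv_of_nonneg (by norm_num), pow_succ']

lemma bd_add_mul (a m : ℤ) : bd (a + 20 * m) ↔ bd a := by
  unfold bd; omega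

lemma R1_add_mul (r k : ℕ) (a m : ℤ) : R1 r k (a + 20 ^ k * m) = R1 r k a := by
  induction k generalizing a m with
  | zero => rfl
  | succ k ih =>
    have e1 : (a + 20 ^ (k + 1) * m) / 20 = a / 20 + 20 ^ k * m := by
      rw [pow_succ', mul_assoc]; omega
    have e2 : bd (a + 20 ^ (k + 1) * m) ↔ bd a := by
      rw [pow_succ', mul_assoc]; exact bd_add_mul _ _
    rw [R1_succ, R1_succ, e1, ih]
    simp only [e2]

lemma R2_add_mul (κ : ℤ → ℕ) (k : ℕ) (a b m : ℤ) :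
    R2 κ k a (b + 20 ^ k * m) = R2 κ k a b := by
  induction k generalizing a b m with
  | zero => rfl
  | succ k ih =>
    have e1 : (b + 20 ^ (k + 1) * m) / 20 = b / 20 + 20 ^ k * m := by
      rw [pow_succ', mul_assoc]; omega
    have e2 : bd (b + 20 ^ (k + 1) * m) ↔ bd b := by
      rw [pow_succ', mul_assoc]; exact bd_add_mul _ _
    rw [R2_succ, R2_succ, e1, ih]
    simp only [e2]

lemma R2_zero_absorb (κ : ℤ → ℕ) (k l : ℕ) (a b : ℤ)
    (h : R2 κ k (a / 20 ^ l) (b / 20 ^ l) = 0) : R2 κ (k + l) a b = 0 := by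
  induction l generalizing a b with
  | zero => simpa using h
  | succ l ih =>
    rw [← add_assoc, R2_succ, ih _ _ (by rw [div_div_pow, div_div_pow]; exact h), nxt_zero]

lemma R1_zero_absorb (r k l : ℕ) (a : ℤ)
    (h : R1 r k (a / 20 ^ l) = 0) : R1 r (k + l) a = 0 := by
  induction l generalizing a with
  | zero => simpa using h
  | succ l ih =>
    rw [← add_assoc, R1_succ, ih _ (by rw [div_div_pow]; exact h), nxt_zero]

lemma R2_le_R1 (κ : ℤ → ℕ) (r k l : ℕ) (a b : ℤ)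
    (h : R2 κ k (a / 20 ^ l) (b / 20 ^ l) ≤ r) : R2 κ (k + l) a b ≤ R1 r l a := by
  induction l generalizing a b with
  | zero => simpa [R1] using h
  | succ l ih =>
    rw [← add_assoc, R2_succ, R1_succ]
    exact nxt_mono (ih _ _ (by rw [div_div_pow, div_div_pow]; exact h)) Or.inl

lemma R2_le_R1' (κ : ℤ → ℕ) (r k l : ℕ) (a b : ℤ)
    (h : R2 κ k (a / 20 ^ l) (b / 20 ^ l) ≤ r) : R2 κ (k + l) a b ≤ R1 r l b := by
  induction l generalizing a b with
  | zero => simpa [R1] using h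
  | succ l ih =>
    rw [← add_assoc, R2_succ, R1_succ]
    exact nxt_mono (ih _ _ (by rw [div_div_pow, div_div_pow]; exact h)) Or.inr

lemma R1_mono {r r' : ℕ} (h : r ≤ r') (k : ℕ) (a : ℤ) : R1 r k a ≤ R1 r' k a := by
  induction k generalizing a with
  | zero => simpa [R1] using h
  | succ k ih => rw [R1_succ, R1_succ]; exact nxt_mono (ih _) id

/-- adjacent cells -/
def Adj (a a' : ℤ) : Prop := a ≤ a' + 1 ∧ a' ≤ a + 1

lemma Adj.symm {a a' : ℤ} (h : Adj a a') : Adj a' a := ⟨h.2, h.1⟩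

lemma Adj.refl (a : ℤ) : Adj a a := ⟨by omega, by omega⟩

lemma Adj.div {a a' : ℤ} (h : Adj a a') : Adj (a / 20) (a' / 20) := by
  unfold Adj at *; omega

lemma Adj.div_pow {a a' : ℤ} (h : Adj a a') (l : ℕ) : Adj (a / 20 ^ l) (a' / 20 ^ l) := by
  induction l generalizing a a' with
  | zero => simpa using h
  | succ l ih =>
    rw [← div_div_pow, ← div_div_pow]; exact ih h.div

lemma Adj.bd_of_ne {a a' : ℤ} (h : Adj a a') (hne : a / 20 ≠ a' / 20) : bd a ∧ bd a' := by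
  unfold Adj at h; unfold bd; omega

lemma R2_adj (κ : ℤ → ℕ) (hκ : ∀ a a', Adj a a' → κ a' ≤ κ a + 1) (k : ℕ) (a a' b b' : ℤ)
    (ha : Adj a a') (hb : Adj b b') : R2 κ k a' b' ≤ R2 κ k a b + 2 := by
  induction k generalizing a a' b b' with
  | zero =>
    rw [R2_zero, R2_zero]
    have := hκ a a' ha
    omega
  | succ k ih =>
    rw [R2_succ, R2_succ]
    have h1 := ih _ _ _ _ ha.div hb.div
    by_cases hA : a / 20 = a' / 20
    · by_cases hB : b / 20 = b' / 20
      · rw [hA, hB]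
        have h2 := nxt_le (R2 κ k (a' / 20) (b' / 20)) (bd a' ∨ bd b')
        by_cases h0 : R2 κ k (a' / 20) (b' / 20) = 0
        · rw [h0, nxt_zero]; omega
        · have h3 := le_nxt (R2 κ k (a' / 20) (b' / 20)) (bd a ∨ bd b)
          omega
      · obtain ⟨h2, h3⟩ := hb.bd_of_ne hB
        simp only [h2, h3, or_true]
        unfold nxt
        simp only [if_true]
        split_ifs <;> omega
    · obtain ⟨h2, h3⟩ := ha.bd_of_ne hA
      simp only [h2, h3, true_or]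
      unfold nxt
      simp only [if_true]
      split_ifs <;> omega

/-! ## floors -/

/-- the index of the depth-`n` cell of `x` -/
noncomputable def fl (n : ℕ) (x : ℝ) : ℤ := ⌊(20 : ℝ) ^ n * x⌋

lemma fl_zero (x : ℝ) : fl 0 x = ⌊x⌋ := by simp [fl]

lemma fl_succ_div (n : ℕ) (x : ℝ) : fl (n + 1) x / 20 = fl n x := by
  unfold fl
  have h := Int.floor_div_natCast ((20 : ℝ) ^ (n + 1) * x) 20
  rw [show (20 : ℤ) = ((20 : ℕ) : ℤ) by norm_num, ← h]
  congr 1
  push_cast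
  rw [pow_succ]; ring

lemma fl_div_pow (n l : ℕ) (x : ℝ) : fl (n + l) x / 20 ^ l = fl n x := by
  induction l with
  | zero => simp
  | succ l ih => rw [← div_div_pow, ← add_assoc, fl_succ_div, ih]

lemma fl_div_pow' (n : ℕ) (x : ℝ) : fl n x / 20 ^ n = ⌊x⌋ := by
  have := fl_div_pow 0 n x
  rwa [zero_add, fl_zero] at this

lemma fl_mul (n l : ℕ) (x : ℝ) : fl l ((20 : ℝ) ^ n * x) = fl (n + l) x := by
  unfold fl; rw [← mul_assoc, ← pow_add, add_comm]

lemma fl_add_int (n : ℕ) (x : ℝ) (m : ℤ) : fl n (x + m) = fl n x + 20 ^ n * m := by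
  unfold fl
  rw [mul_add]
  have : (20 : ℝ) ^ n * (m : ℝ) = (((20 : ℤ) ^ n * m : ℤ) : ℝ) := by push_cast; ring
  rw [this, Int.floor_add_intCast]

lemma fl_eq_iff (n : ℕ) (x : ℝ) (a : ℤ) :
    fl n x = a ↔ (a : ℝ) / 20 ^ n ≤ x ∧ x < ((a : ℝ) + 1) / 20 ^ n := by
  have h : (0 : ℝ) < 20 ^ n := by positivity
  unfold fl
  rw [Int.floor_eq_iff, div_le_iff₀ h, lt_div_iff₀ h, mul_comm]

lemma measurable_fl (n : ℕ) : Measurable (fl n) := by
  unfold fl
  exact Int.measurable_floor.comp (measurable_const_mul _)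

/-! ## frozen sets -/

/-- one-dimensional frozen set -/
def F1 (r : ℕ) : Set ℝ := {x | ∃ k, R1 r k (fl k x) = 0}

/-- frozen by depth `k` -/
def F1k (r k : ℕ) : Set ℝ := {x | R1 r k (fl k x) = 0}

lemma F1_eq (r : ℕ) : F1 r = ⋃ k, F1k r k := by
  ext x; simp [F1, F1k]

lemma measurableSet_F1k (r k : ℕ) : MeasurableSet (F1k r k) :=
  (measurable_fl k) (MeasurableSet.of_discrete (s := {a : ℤ | R1 r k a = 0}))

lemma measurableSet_F1 (r : ℕ) : MeasurableSet (F1 r) := by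
  rw [F1_eq]; exact MeasurableSet.iUnion fun k => measurableSet_F1k r k

lemma F1k_mono (r : ℕ) : Monotone (F1k r) := by
  apply monotone_nat_of_le_succ
  intro k x hx
  show R1 r (k + 1) _ = 0
  rw [R1_succ, fl_succ_div]
  have : R1 r k (fl k x) = 0 := hx
  rw [this, nxt_zero]

lemma F1_anti {r r' : ℕ} (h : r ≤ r') : F1 r' ⊆ F1 r := by
  rintro x ⟨k, hk⟩
  exact ⟨k, Nat.le_zero.1 (hk ▸ R1_mono h k _)⟩

lemma F1_zero : F1 0 = univ := by
  ext x; simp only [F1, mem_setOf_eq, mem_univ, iff_true]; exact ⟨0, rfl⟩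

lemma F1_add_int (r : ℕ) (x : ℝ) (m : ℤ) : x + m ∈ F1 r ↔ x ∈ F1 r := by
  simp only [F1, mem_setOf_eq, fl_add_int, R1_add_mul]

end Pool.MP_0f1fb3_an
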