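import Pool.Agent.Lib.MP_0f1fb3_an.Top

set_option autoImplicit false

open MeasureTheory Set
open scoped ENNReal NNReal Topology

namespace Pool.MP_0f1fb3_an

lemma cover_of_class {X ι : Type} [MetricSpace X] [DecidableEq ι] (x : X) (r : ℝ) (f : X → ι)
    (S : Finset ι) (h1 : ∀ q ∈ Metric.ball x r, f q ∈ S)
    (h2 : ∀ q ∈ Metric.ball x r, ∀ q' ∈ Metric.ball x r, f q = f q' → dist q q' < r / 2) :
    ∃ t : Finset X, t.card ≤ S.card ∧ Metric.ball x r ⊆ ⋃ y ∈ t, Metric.ball y (r / 2) := by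
  classical
  let g : ι → X := fun i => if h : ∃ q ∈ Metric.ball x r, f q = i then h.choose else x
  refine ⟨S.image g, Finset.card_image_le, fun q hq => ?_⟩
  have hex : ∃ q' ∈ Metric.ball x r, f q' = f q := ⟨q, hq, rfl⟩
  have hg : g (f q) = hex.choose := dif_pos hex
  have hc := hex.choose_spec
  rw [mem_iUnion₂]
  refine ⟨g (f q), Finset.mem_image_of_mem g (h1 q hq), ?_⟩
  rw [Metric.mem_ball, hg]
  exact h2 q hq _ hc.1 hc.2.symm

lemma exists_scale (u v c : ℝ) (hc : 0 < c) (h1 : c ≤ Dp 1 u v) :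
    ∃ k, 1 ≤ k ∧ c ≤ Dp k u v ∧ Dp k u v ≤ 180 * c := by
  have hex : ∃ n, Dp n u v < c := by
    have hD := Dp_pos 0 u v
    obtain ⟨n, hn⟩ := exists_pow_lt_of_lt_one (show 0 < c / Dp 0 u v by positivity)
      (show (9 / 20 : ℝ) < 1 by norm_num)
    refine ⟨n, ?_⟩
    have := Dp_add_le 0 n u v
    rw [zero_add] at this
    rw [lt_div_iff₀ hD] at hn
    linarith
  classical
  have hk := Nat.find_spec hex
  set k := Nat.find hex
  have hmin := fun m (hm : m < k) => Nat.find_min hex hm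
  have hk2 : 2 ≤ k := by
    by_contra hlt
    have : k = 0 ∨ k = 1 := by omega
    rcases this with h0 | h0
    · have h3 := Dp_succ_le 0 u v
      rw [h0] at hk
      have := Dp_pos 0 u v
      rw [zero_add] at h3
      linarith
    · rw [h0] at hk; linarith
  obtain ⟨j, hj⟩ : ∃ j, k = j + 1 := ⟨k - 1, by omega⟩
  refine ⟨j, by omega, not_lt.1 (hmin j (by omega)), ?_⟩
  have := Dp_le_succ j u v
  rw [← hj] at this
  linarith

lemma exists_Mc : ∃ M : ℤ, (419904401 : ℝ) ≤ M := ⟨419904401, by norm_num⟩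

/-- constant in the class finsets -/
noncomputable def Mc : ℤ := exists_Mc.choose

lemma exists_mm : ∃ m : ℕ, (9 / 20 : ℝ) ^ m * (324 * (180 * 324)) < 1 / 80 ∧
    (9 / 20 : ℝ) ^ m * 2099520 < 1 / 80 := ⟨30, by norm_num, by norm_num⟩

/-- number of refinement steps -/
noncomputable def mm : ℕ := exists_mm.choose

/-- number of balls, local case -/
noncomputable def Sloc : Finset (ℤ × ℤ) :=
  Finset.Icc 0 (3 * 20 ^ mm) ×ˢ Finset.Icc 0 (3 * 20 ^ mm)

/-- number of balls, global case -/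
noncomputable def Sglob : Finset (Bool × ℤ × ℤ × ℤ) :=
  Finset.univ ×ˢ (Finset.Icc (-Mc) Mc ×ˢ (Finset.Icc 0 (20 ^ mm) ×ˢ Finset.Icc 0 (20 ^ mm)))

lemma fl_range {k m : ℕ} {a : ℤ} {x : ℝ} (h : Adj a (fl k x)) :
    0 ≤ fl (k + m) x - 20 ^ m * (a - 1) ∧ fl (k + m) x - 20 ^ m * (a - 1) ≤ 3 * 20 ^ m := by
  have hp : (0 : ℤ) < 20 ^ m := by positivity
  have h1 := fl_div_pow k m x
  have h2 := Int.ediv_mul_le (fl (k + m) x) hp.ne'
  have h3 := Int.lt_ediv_add_one_mul_self (fl (k + m) x) hp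
  rw [h1] at h2 h3
  obtain ⟨h4, h5⟩ := h
  constructor
  · nlinarith
  · nlinarith

lemma doubling_local (u v r : ℝ) (hr : 0 < r) (h : r ≤ Dp 1 u v / 324) :
    ∃ t : Finset Pt, t.card ≤ Sloc.card ∧
      Metric.ball (pt u v) r ⊆ ⋃ y ∈ t, Metric.ball y (r / 2) := by
  classical
  obtain ⟨k, hk1, hk2, hk3⟩ := exists_scale u v (324 * r) (by positivity) (by linarith)
  have hnear : ∀ q ∈ Metric.ball (pt u v) r, ∃ w : ℝ × ℝ, q = pt w.1 w.2 ∧
      Adj (fl k u) (fl k w.1) ∧ Adj (fl k v) (fl k w.2) := by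
    intro q hq
    rw [Metric.mem_ball', dist_def] at hq
    obtain ⟨u', v', h1, h2, h3⟩ := near_of_dst_lt hk1 u v q (by linarith)
    exact ⟨(u', v'), h1, h2, h3⟩
  let c : Pt → ℝ × ℝ := fun q => if hq : q ∈ Metric.ball (pt u v) r then (hnear q hq).choose
    else (0, 0)
  have hc : ∀ q ∈ Metric.ball (pt u v) r, q = pt (c q).1 (c q).2 ∧
      Adj (fl k u) (fl k (c q).1) ∧ Adj (fl k v) (fl k (c q).2) := by
    intro q hq
    have : c q = (hnear q hq).choose := dif_pos hq
    rw [this]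
    exact (hnear q hq).choose_spec
  refine cover_of_class _ _ (fun q => (fl (k + mm) (c q).1 - 20 ^ mm * (fl k u - 1),
    fl (k + mm) (c q).2 - 20 ^ mm * (fl k v - 1))) Sloc ?_ ?_
  · intro q hq
    obtain ⟨-, h2, h3⟩ := hc q hq
    have h4 := fl_range (m := mm) h2
    have h5 := fl_range (m := mm) h3
    unfold Sloc
    rw [Finset.mem_product, Finset.mem_Icc, Finset.mem_Icc]
    exact ⟨h4, h5⟩
  · intro q hq q' hq' hqq
    obtain ⟨e1, h2, h3⟩ := hc q hq
    obtain ⟨e1', h2', h3'⟩ := hc q' hq'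
    simp only [Prod.mk.injEq, sub_left_inj] at hqq
    have h4 := dst_same_cell (k + mm) (c q).1 (c q).2 (c q').1 (c q').2 hqq.1 hqq.2
    have h5 := Dp_add_le k mm (c q).1 (c q).2
    have h6 : Dp k (c q).1 (c q).2 ≤ 324 * Dp k u v := D_adj k h2.symm h3.symm
    rw [dist_def, e1, e1']
    have h7 : (9 / 20 : ℝ) ^ mm * Dp k (c q).1 (c q).2 ≤
        (9 / 20 : ℝ) ^ mm * (324 * (180 * (324 * r))) := by
      gcongr; linarith
    have h8 : (9 / 20 : ℝ) ^ mm * (324 * (180 * 324)) < 1 / 80 := exists_mm.choose_spec.1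
    nlinarith

lemma D0_adj {j j' : ℤ} (h : Adj j j') : D0 j' ≤ 36 * D0 j := by
  unfold D0
  have h1 := κ_adj j' j h.symm
  have : (1 / 36 : ℝ) ^ (κ j' + 1) ≤ (1 / 36) ^ κ j :=
    pow_le_pow_of_le_one (by norm_num) (by norm_num) h1
  rw [pow_succ] at this
  linarith

lemma Sz_nonneg (p : Pt) : 0 ≤ Sz p := by
  rcases p with _ | _ | ⟨u, v⟩
  · exact le_rfl
  · exact le_rfl
  · exact (D0_pos _).le

lemma Th_le_top (u : ℝ) : Th u ≤ ThP Pt.top := by
  have h := ThP_top_sub u 0
  rw [ThP_pt] at h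
  have : 0 ≤ ∫ t in Ioi u, θ t := integral_nonneg fun _ => θ_nonneg _
  linarith

lemma bot_le_Th (u : ℝ) : ThP Pt.bot ≤ Th u := by
  have h := ThP_sub_bot u 0
  rw [ThP_pt] at h
  have : 0 ≤ ∫ t in Iic u, θ t := integral_nonneg fun _ => θ_nonneg _
  linarith

/-- sizes of columns near a point of small size -/
lemma Sz_near (p : Pt) (r : ℝ) (hr : 0 < r) (hp : Sz p ≤ 58320 * r) (q : Pt)
    (hq : |ThP p - ThP q| < r) : Sz q ≤ 2099520 * r := by
  rcases q.cases' with rfl | rfl | ⟨u', v', -, rfl⟩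
  · show (0 : ℝ) ≤ _; positivity
  · show (0 : ℝ) ≤ _; positivity
  · rw [Sz_pt]
    rw [ThP_pt] at hq
    have hu1 := Int.floor_le u'
    have hu2 := (Int.lt_floor_add_one u').le
    -- the two neighbouring columns
    have hright : ThP p ≥ Th (⌊u'⌋ + 2) → D0 ⌊u'⌋ ≤ 36 * r := by
      intro h
      have h1 := Th_column (⌊u'⌋ + 1)
      have h2 := D0_adj (j := ⌊u'⌋ + 1) (j' := ⌊u'⌋) ⟨by omega, by omega⟩
      push_cast at h1
      rw [show (⌊u'⌋ : ℝ) + 1 + 1 = ⌊u'⌋ + 2 by ring] at h1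
      have h3 := Th_mono hu2
      have h4 := (abs_lt.1 hq).2
      linarith
    have hleft : ThP p ≤ Th (⌊u'⌋ - 1) → D0 ⌊u'⌋ ≤ 36 * r := by
      intro h
      have h1 := Th_column (⌊u'⌋ - 1)
      have h2 := D0_adj (j := ⌊u'⌋ - 1) (j' := ⌊u'⌋) ⟨by omega, by omega⟩
      push_cast at h1
      rw [show (⌊u'⌋ : ℝ) - 1 + 1 = ⌊u'⌋ by ring] at h1
      have h3 := Th_mono hu1
      have h4 := (abs_lt.1 hq).1
      linarith
    rcases p.cases' with rfl | rfl | ⟨u, v, -, rfl⟩
    · have := hright (Th_le_top _)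
      linarith
    · have := hleft (bot_le_Th _)
      linarith
    · rw [Sz_pt] at hp
      rw [ThP_pt] at hright hleft
      have hv1 := Int.floor_le u
      have hv2 := (Int.lt_floor_add_one u).le
      by_cases hA : Adj ⌊u⌋ ⌊u'⌋
      · have := D0_adj hA
        linarith
      · have : ⌊u'⌋ + 2 ≤ ⌊u⌋ ∨ ⌊u⌋ + 2 ≤ ⌊u'⌋ := by unfold Adj at hA; omega
        rcases this with h | h
        · have h' : (⌊u'⌋ : ℝ) + 2 ≤ u := by
            have : ((⌊u'⌋ + 2 : ℤ) : ℝ) ≤ ⌊u⌋ := by exact_mod_cast h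
            push_cast at this; linarith
          have := hright (Th_mono h')
          linarith
        · have h' : u ≤ (⌊u'⌋ : ℝ) - 1 := by
            have : ((⌊u⌋ + 2 : ℤ) : ℝ) ≤ ⌊u'⌋ := by exact_mod_cast h
            push_cast at this; linarith
          have := hleft (Th_mono h')
          linarith

/-- the class of a point, global case -/
noncomputable def clsG (p : Pt) (r : ℝ) (q : Pt) : Bool × ℤ × ℤ × ℤ :=
  if Sz q < r / 200 then (false, ⌊16 * ThP q / r⌋ - ⌊16 * ThP p / r⌋, 0, 0)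
  else match q with
    | Pt.mid u v => (true, ⌊200 * Th ⌊u⌋ / r⌋ - ⌊200 * ThP p / r⌋, fl mm u - 20 ^ mm * ⌊u⌋, fl mm v)
    | _ => (false, 0, 0, 0)

lemma floor_diff_le {x y c : ℝ} {M : ℤ} (h : |x - y| ≤ c) (hM : c + 1 ≤ M) :
    -M ≤ ⌊x⌋ - ⌊y⌋ ∧ ⌊x⌋ - ⌊y⌋ ≤ M := by
  have h1 := Int.floor_le x
  have h2 := Int.lt_floor_add_one x
  have h3 := Int.floor_le y
  have h4 := Int.lt_floor_add_one y
  obtain ⟨h5, h6⟩ := abs_le.1 h
  constructor
  · have : (-(M : ℝ)) ≤ (⌊x⌋ : ℝ) - ⌊y⌋ := by linarith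
    exact_mod_cast this
  · have : (⌊x⌋ : ℝ) - ⌊y⌋ ≤ M := by linarith
    exact_mod_cast this

lemma doubling_global (p : Pt) (r : ℝ) (hr : 0 < r) (hp : Sz p ≤ 58320 * r) :
    ∃ t : Finset Pt, t.card ≤ Sglob.card ∧
      Metric.ball p r ⊆ ⋃ y ∈ t, Metric.ball y (r / 2) := by
  classical
  have hTh : ∀ q ∈ Metric.ball p r, |ThP p - ThP q| < r := by
    intro q hq
    rw [Metric.mem_ball', dist_def] at hq
    exact (ThP_le_dst p q).trans_lt hq
  refine cover_of_class _ _ (clsG p r) Sglob ?_ ?_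
  · intro q hq
    have h1 := hTh q hq
    have h2 := Sz_near p r hr hp q h1
    unfold Sglob clsG
    by_cases hs : Sz q < r / 200
    · rw [if_pos hs]
      simp only [Finset.mem_product, Finset.mem_univ, Finset.mem_Icc, true_and]
      have h3 : |16 * ThP q / r - 16 * ThP p / r| ≤ 16 := by
        rw [← sub_div, ← mul_sub, abs_div, abs_mul, abs_of_pos hr, div_le_iff₀ hr, abs_sub_comm]
        rw [abs_of_pos (show (0 : ℝ) < 16 by norm_num)]
        linarith
      have h4 := floor_diff_le (M := Mc) h3 (by have := exists_Mc.choose_spec; unfold Mc; linarith)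
      exact ⟨h4, ⟨le_rfl, by positivity⟩, ⟨le_rfl, by positivity⟩⟩
    · rw [if_neg hs]
      rcases q with _ | _ | ⟨u, v⟩
      · exact absurd (show (0 : ℝ) < r / 200 by positivity) hs
      · exact absurd (show (0 : ℝ) < r / 200 by positivity) hs
      · simp only [Finset.mem_product, Finset.mem_univ, Finset.mem_Icc, true_and]
        have h1' : |ThP p - Th u| < r := h1
        have h2' : D0 ⌊u⌋ ≤ 2099520 * r := h2
        have hu1 := Th_mono (Int.floor_le u)
        have hu2 := Th_mono (Int.lt_floor_add_one u).le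
        have hcol := Th_column ⌊u⌋
        obtain ⟨h5, h6⟩ := abs_lt.1 h1'
        have h3 : |200 * Th ⌊u⌋ / r - 200 * ThP p / r| ≤ 419904400 := by
          rw [← sub_div, ← mul_sub, abs_div, abs_mul, abs_of_pos hr, div_le_iff₀ hr]
          rw [abs_of_pos (show (0 : ℝ) < 200 by norm_num)]
          have : |Th ⌊u⌋ - ThP p| ≤ 2099521 * r := by
            rw [abs_le]; constructor <;> linarith
          linarith
        have h4 := floor_diff_le (M := Mc) h3
          (by have := exists_Mc.choose_spec; unfold Mc; linarith)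
        have h7 := fl_div_pow' mm u
        have hpz : (0 : ℤ) < 20 ^ mm := by positivity
        have h8 := Int.ediv_mul_le (fl mm u) hpz.ne'
        have h9 := Int.lt_ediv_add_one_mul_self (fl mm u) hpz
        rw [h7] at h8 h9
        have h10 : fl mm (v : ℝ) / 20 ^ mm = 0 := by
          rw [fl_div_pow', Int.floor_eq_zero_iff]; exact v.2
        have h11 := Int.ediv_mul_le (fl mm (v : ℝ)) hpz.ne'
        have h12 := Int.lt_ediv_add_one_mul_self (fl mm (v : ℝ)) hpz
        rw [h10] at h11 h12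
        refine ⟨h4, ⟨by linarith, by linarith⟩, ⟨by linarith, by linarith⟩⟩
  · intro q hq q' hq' hqq
    have h1 := hTh q hq
    have h1' := hTh q' hq'
    have h2 := Sz_near p r hr hp q h1
    rw [dist_def]
    by_cases hs : Sz q < r / 200
    · by_cases hs' : Sz q' < r / 200
      · unfold clsG at hqq
        rw [if_pos hs, if_pos hs'] at hqq
        simp only [Prod.mk.injEq, sub_left_inj, and_true, true_and] at hqq
        have h3 := Int.abs_sub_lt_one_of_floor_eq_floor hqq
        rw [← sub_div, ← mul_sub, abs_div, abs_mul, abs_of_pos hr, div_lt_iff₀ hr,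
          abs_of_pos (show (0 : ℝ) < 16 by norm_num)] at h3
        have h4 := dst_le_ThP q q'
        linarith
      · exfalso
        unfold clsG at hqq
        rw [if_pos hs, if_neg hs'] at hqq
        rcases q' with _ | _ | ⟨u', v'⟩
        · exact hs' (show (0 : ℝ) < r / 200 by positivity)
        · exact hs' (show (0 : ℝ) < r / 200 by positivity)
        · simp at hqq
    · by_cases hs' : Sz q' < r / 200
      · exfalso
        unfold clsG at hqq
        rw [if_neg hs, if_pos hs'] at hqq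
        rcases q with _ | _ | ⟨u, v⟩
        · exact hs (show (0 : ℝ) < r / 200 by positivity)
        · exact hs (show (0 : ℝ) < r / 200 by positivity)
        · simp at hqq
      · unfold clsG at hqq
        rw [if_neg hs, if_neg hs'] at hqq
        rcases q with _ | _ | ⟨u, v⟩
        · exact absurd (show (0 : ℝ) < r / 200 by positivity) hs
        · exact absurd (show (0 : ℝ) < r / 200 by positivity) hs
        rcases q' with _ | _ | ⟨u', v'⟩
        · exact absurd (show (0 : ℝ) < r / 200 by positivity) hs'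
        · exact absurd (show (0 : ℝ) < r / 200 by positivity) hs'
        simp only [Prod.mk.injEq, true_and, sub_left_inj] at hqq
        obtain ⟨e1, e2, e3⟩ := hqq
        have hs1 : r / 200 ≤ D0 ⌊u⌋ := not_lt.1 hs
        have hs1' : r / 200 ≤ D0 ⌊u'⌋ := not_lt.1 hs'
        have h3 := Int.abs_sub_lt_one_of_floor_eq_floor e1
        rw [← sub_div, ← mul_sub, abs_div, abs_mul, abs_of_pos hr, div_lt_iff₀ hr,
          abs_of_pos (show (0 : ℝ) < 200 by norm_num)] at h3
        have hcol : ⌊u⌋ = ⌊u'⌋ := by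
          rcases lt_trichotomy ⌊u⌋ ⌊u'⌋ with h | h | h
          · exfalso
            have h4 : ((⌊u⌋ : ℤ) : ℝ) + 1 ≤ ⌊u'⌋ := by exact_mod_cast h
            have h5 := Th_mono h4
            have h6 := Th_column ⌊u⌋
            have h7 := neg_abs_le (Th ⌊u⌋ - Th ⌊u'⌋)
            linarith
          · exact h
          · exfalso
            have h4 : ((⌊u'⌋ : ℤ) : ℝ) + 1 ≤ ⌊u⌋ := by exact_mod_cast h
            have h5 := Th_mono h4
            have h6 := Th_column ⌊u'⌋
            have h7 := le_abs_self (Th ⌊u⌋ - Th ⌊u'⌋)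
            linarith
        rw [hcol, sub_left_inj] at e2
        rw [mid_eq_pt, mid_eq_pt]
        have h4 := dst_same_cell mm u v u' v' e2 e3
        have h5 := Dp_add_le 0 mm u v
        rw [zero_add, Dp_zero] at h5
        have h2' : D0 ⌊u⌋ ≤ 2099520 * r := h2
        have h7 : (9 / 20 : ℝ) ^ mm * D0 ⌊u⌋ ≤ (9 / 20 : ℝ) ^ mm * (2099520 * r) := by gcongr
        have h8 : (9 / 20 : ℝ) ^ mm * 2099520 < 1 / 80 := exists_mm.choose_spec.2
        nlinarith

theorem isDoubling_Pt : IsDoubling Pt := by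
  refine ⟨max Sloc.card Sglob.card, fun p r hr => ?_⟩
  have hglob : Sz p ≤ 58320 * r → ∃ t : Finset Pt, t.card ≤ max Sloc.card Sglob.card ∧
      Metric.ball p r ⊆ ⋃ y ∈ t, Metric.ball y (r / 2) := by
    intro h
    obtain ⟨t, ht, ht'⟩ := doubling_global p r hr h
    exact ⟨t, ht.trans (le_max_right _ _), ht'⟩
  rcases p.cases' with rfl | rfl | ⟨u, v, -, rfl⟩
  · exact hglob (show (0 : ℝ) ≤ _ by positivity)
  · exact hglob (show (0 : ℝ) ≤ _ by positivity)
  · by_cases h : r ≤ Dp 1 u v / 324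
    · obtain ⟨t, ht, ht'⟩ := doubling_local u v r hr h
      exact ⟨t, ht.trans (le_max_left _ _), ht'⟩
    · apply hglob
      rw [Sz_pt, ← Dp_zero u v]
      have := Dp_le_succ 0 u v
      rw [zero_add] at this
      rw [not_le] at h
      linarith

end Pool.MP_0f1fb3_an
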