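import Pool.Agent.Lib.MP_0f1fb3_an.Space

set_option autoImplicit false

open MeasureTheory Set
open scoped ENNReal NNReal Topology

namespace Pool.MP_0f1fb3_an

/-! ## profiles of the block bumps -/

/-- weight of a block profile -/
noncomputable def wgt (K : ℝ) (r k : ℕ) (a : ℤ) (t : ℝ) : ℝ :=
  (Ico (((a : ℝ) - 1) / 20 ^ k) (((a : ℝ) + 2) / 20 ^ k)).indicator
    (fun t => K * χ r (20 ^ k * t)) t

/-- its primitive -/
noncomputable def prim (K : ℝ) (r k : ℕ) (a : ℤ) (x : ℝ) : ℝ :=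
  ∫ t in (((a : ℝ) - 1) / 20 ^ k)..x, wgt K r k a t

/-- the profile -/
noncomputable def prof (K : ℝ) (r k : ℕ) (a : ℤ) (x : ℝ) : ℝ :=
  min (prim K r k a x) (3 * (K * (1 / 9) ^ r / 20 ^ k) - prim K r k a x)

section prof
variable {K : ℝ} (hK : 0 ≤ K) (r k : ℕ) (a : ℤ)

include hK in
lemma wgt_nonneg (t : ℝ) : 0 ≤ wgt K r k a t := by
  unfold wgt
  exact indicator_nonneg (fun _ _ => mul_nonneg hK (χ_nonneg _ _)) _

lemma wgt_ii (x y : ℝ) : IntervalIntegrable (wgt K r k a) volume x y := by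
  rw [intervalIntegrable_iff]
  have h := (χ_intervalIntegrable r (20 ^ k) x y).const_mul K
  rw [intervalIntegrable_iff] at h
  exact h.indicator measurableSet_Ico

lemma prim_sub (x y : ℝ) : prim K r k a y - prim K r k a x = ∫ t in x..y, wgt K r k a t := by
  unfold prim
  rw [intervalIntegral.integral_interval_sub_left] <;> exact wgt_ii _ _ _ _ _

include hK in
lemma prim_mono : Monotone (prim K r k a) := by
  intro x y h
  have := prim_sub (K := K) r k a x y
  have h2 : 0 ≤ ∫ t in x..y, wgt K r k a t :=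
    intervalIntegral.integral_nonneg h fun _ _ => wgt_nonneg hK _ _ _ _
  linarith

lemma prim_lo {x : ℝ} (hx : x ≤ ((a : ℝ) - 1) / 20 ^ k) : prim K r k a x = 0 := by
  unfold prim
  rw [intervalIntegral.integral_symm, neg_eq_zero]
  apply intervalIntegral.integral_zero_ae
  have : ∀ᵐ t : ℝ, t ≠ ((a : ℝ) - 1) / 20 ^ k := by simp [ae_iff, measure_singleton]
  filter_upwards [this] with t ht h
  rw [uIoc_of_le hx] at h
  unfold wgt
  rw [indicator_of_notMem]
  intro h'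
  exact ht (le_antisymm h.2 h'.1)

lemma prim_hi {x : ℝ} (hx : ((a : ℝ) + 2) / 20 ^ k ≤ x) :
    prim K r k a x = prim K r k a (((a : ℝ) + 2) / 20 ^ k) := by
  have h := prim_sub (K := K) r k a (((a : ℝ) + 2) / 20 ^ k) x
  have : ∫ t in (((a : ℝ) + 2) / 20 ^ k)..x, wgt K r k a t = 0 := by
    apply intervalIntegral.integral_zero_ae
    refine Filter.Eventually.of_forall fun t h => ?_
    rw [uIoc_of_le hx] at h
    unfold wgt
    rw [indicator_of_notMem]
    intro h'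
    exact absurd h'.2 (not_lt.2 h.1.le)
  linarith

lemma prim_step (n : ℤ) (h0 : -1 ≤ n) (h1 : n ≤ 1) :
    prim K r k a (((a : ℝ) + n + 1) / 20 ^ k) - prim K r k a (((a : ℝ) + n) / 20 ^ k) =
      K * (1 / 9) ^ r / 20 ^ k := by
  rw [prim_sub]
  have hp : (0 : ℝ) < 20 ^ k := by positivity
  have h0' : (-1 : ℝ) ≤ n := by exact_mod_cast h0
  have h1' : (n : ℝ) ≤ 1 := by exact_mod_cast h1
  have e : ∫ t in (((a : ℝ) + n) / 20 ^ k)..(((a : ℝ) + n + 1) / 20 ^ k), wgt K r k a t =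
      ∫ t in (((a : ℝ) + n) / 20 ^ k)..(((a : ℝ) + n + 1) / 20 ^ k), K * χ r (20 ^ k * t) := by
    apply intervalIntegral.integral_congr_ae
    have : ∀ᵐ t : ℝ, t ≠ ((a : ℝ) + n + 1) / 20 ^ k := by simp [ae_iff, measure_singleton]
    filter_upwards [this] with t ht h
    rw [uIoc_of_le (div_le_div_of_nonneg_right (by linarith) hp.le)] at h
    unfold wgt
    rw [indicator_of_mem]
    constructor
    · refine le_trans ?_ h.1.le
      exact div_le_div_of_nonneg_right (by linarith) hp.le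
    · refine lt_of_lt_of_le (lt_of_le_of_ne h.2 ht) ?_
      exact div_le_div_of_nonneg_right (by linarith) hp.le
  rw [e, intervalIntegral.integral_const_mul, integral_χ_cell]
  ring

lemma prim_vals :
    prim K r k a ((a : ℝ) / 20 ^ k) = K * (1 / 9) ^ r / 20 ^ k ∧
    prim K r k a (((a : ℝ) + 1) / 20 ^ k) = 2 * (K * (1 / 9) ^ r / 20 ^ k) ∧
    prim K r k a (((a : ℝ) + 2) / 20 ^ k) = 3 * (K * (1 / 9) ^ r / 20 ^ k) := by
  have h1 := prim_step (K := K) r k a (-1) (by norm_num) (by norm_num)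
  have h2 := prim_step (K := K) r k a 0 (by norm_num) (by norm_num)
  have h3 := prim_step (K := K) r k a 1 (by norm_num) (by norm_num)
  have h0 := prim_lo (K := K) r k a (le_refl (((a : ℝ) - 1) / 20 ^ k))
  push_cast at h1 h2 h3
  rw [show (a : ℝ) + -1 + 1 = a by ring, show (a : ℝ) + -1 = a - 1 by ring, h0] at h1
  rw [show (a : ℝ) + 0 = a by ring] at h2
  rw [show (a : ℝ) + 1 + 1 = a + 2 by ring] at h3
  refine ⟨by linarith, by linarith, by linarith⟩

include hK in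
lemma prim_bounds (x : ℝ) : 0 ≤ prim K r k a x ∧
    prim K r k a x ≤ 3 * (K * (1 / 9) ^ r / 20 ^ k) := by
  constructor
  · have := prim_mono hK r k a (min_le_left x (((a : ℝ) - 1) / 20 ^ k))
    rwa [prim_lo r k a (min_le_right _ _)] at this
  · have := prim_mono hK r k a (le_max_left x (((a : ℝ) + 2) / 20 ^ k))
    rwa [prim_hi r k a (le_max_right _ _), (prim_vals r k a).2.2] at this

include hK in
lemma prof_nonneg (x : ℝ) : 0 ≤ prof K r k a x := by
  have := prim_bounds hK r k a x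
  exact le_min this.1 (by linarith)

include hK in
lemma prof_lo {x : ℝ} (hx : x ≤ ((a : ℝ) - 1) / 20 ^ k) : prof K r k a x = 0 := by
  have := prim_bounds hK r k a x
  unfold prof
  rw [prim_lo r k a hx] at this ⊢
  exact min_eq_left (by linarith)

include hK in
lemma prof_hi {x : ℝ} (hx : ((a : ℝ) + 2) / 20 ^ k ≤ x) : prof K r k a x = 0 := by
  have := prim_bounds hK r k a x
  unfold prof
  rw [prim_hi r k a hx, (prim_vals r k a).2.2] at this ⊢
  rw [sub_self]
  exact min_eq_right this.1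

include hK in
lemma prof_mid {x : ℝ} (h1 : (a : ℝ) / 20 ^ k ≤ x) (h2 : x ≤ ((a : ℝ) + 1) / 20 ^ k) :
    K * (1 / 9) ^ r / 20 ^ k ≤ prof K r k a x := by
  have m1 := prim_mono hK r k a h1
  have m2 := prim_mono hK r k a h2
  obtain ⟨v1, v2, -⟩ := prim_vals (K := K) r k a
  rw [v1] at m1
  rw [v2] at m2
  exact le_min m1 (by linarith)

include hK in
lemma prof_lip {x y : ℝ} (h : x ≤ y) :
    |prof K r k a y - prof K r k a x| ≤ ∫ t in x..y, wgt K r k a t := by
  unfold prof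
  refine (abs_min_sub_min_le_max _ _ _ _).trans ?_
  rw [← prim_sub]
  have hm := prim_mono hK r k a h
  apply max_le
  · rw [abs_of_nonneg (by linarith)]
  · rw [abs_of_nonpos (by linarith)]; linarith

include hK in
lemma prof_ne {x : ℝ} (h : prof K r k a x ≠ 0) : Adj a (fl k x) := by
  have hp : (0 : ℝ) < 20 ^ k := by positivity
  have h1 : ((a : ℝ) - 1) / 20 ^ k < x := by
    by_contra hc
    exact h (prof_lo hK r k a (not_lt.1 hc))
  have h2 : x < ((a : ℝ) + 2) / 20 ^ k := by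
    by_contra hc
    exact h (prof_hi hK r k a (not_lt.1 hc))
  rw [div_lt_iff₀ hp] at h1
  rw [lt_div_iff₀ hp] at h2
  constructor
  · have : a - 1 ≤ fl k x := by
      unfold fl
      rw [Int.le_floor]
      push_cast
      linarith
    omega
  · have : fl k x < a + 2 := by
      unfold fl
      rw [Int.floor_lt]
      push_cast
      linarith
    omega

end prof

lemma adj_of_mem {k : ℕ} {a : ℤ} {t : ℝ}
    (h : t ∈ Ico (((a : ℝ) - 1) / 20 ^ k) (((a : ℝ) + 2) / 20 ^ k)) : Adj a (fl k t) := by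
  have hp : (0 : ℝ) < 20 ^ k := by positivity
  obtain ⟨h1, h2⟩ := h
  rw [div_le_iff₀ hp] at h1
  rw [lt_div_iff₀ hp] at h2
  constructor
  · have : a - 1 ≤ fl k t := by
      unfold fl
      rw [Int.le_floor]
      push_cast
      linarith
    omega
  · have : fl k t < a + 2 := by
      unfold fl
      rw [Int.floor_lt]
      push_cast
      linarith
    omega

/-- the block bump at the cell `(a,b)` of depth `k` -/
noncomputable def bb (k : ℕ) (a b : ℤ) : Pt → ℝ :=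
  bump (prof (Kc (a / 20 ^ k) / 4) (R2 κ k a b + 2) k a)
    (prof (Kc (a / 20 ^ k) / 4) (R2 κ k a b + 2) k b) (((b : ℝ) - 1) / 20 ^ k)

lemma adm_bb {k : ℕ} (hk : 1 ≤ k) (a b : ℤ) : Adm (bb k a b) := by
  have hp : (0 : ℝ) < 20 ^ k := by positivity
  have hK : 0 ≤ Kc (a / 20 ^ k) / 4 := by have := Kc_pos (a / 20 ^ k); positivity
  have h20 : (20 : ℝ) ≤ 20 ^ k := by
    calc (20 : ℝ) = 20 ^ 1 := (pow_one _).symm
      _ ≤ 20 ^ k := pow_le_pow_right₀ (by norm_num) hk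
  have hwin : ((b : ℝ) + 2) / 20 ^ k ≤ ((b : ℝ) - 1) / 20 ^ k + 1 := by
    rw [div_add_one hp.ne', div_le_div_iff_of_pos_right hp]
    linarith
  -- pointwise comparison
  have hpt1 : ∀ t v, Adj b (fl k v) →
      wgt (Kc (a / 20 ^ k) / 4) (R2 κ k a b + 2) k a t ≤ ω t v := by
    intro t v hv
    unfold wgt
    by_cases ht : t ∈ Ico (((a : ℝ) - 1) / 20 ^ k) (((a : ℝ) + 2) / 20 ^ k)
    · rw [indicator_of_mem ht]
      have hat := adj_of_mem ht
      have h1 := R2_adj κ κ_adj k a (fl k t) b (fl k v) hat hv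
      have h2 := Kc_adj (hat.div_pow k)
      rw [fl_div_pow'] at h2
      exact (mul_le_mul_of_nonneg_right h2 (χ_nonneg _ _)).trans (chi_le_ω_hor k _ t v h1)
    · rw [indicator_of_notMem ht]; exact ω_nonneg _ _
  have hpt2 : ∀ t u, Adj a (fl k u) →
      wgt (Kc (a / 20 ^ k) / 4) (R2 κ k a b + 2) k b t ≤ ω u t := by
    intro t u hu
    unfold wgt
    by_cases ht : t ∈ Ico (((b : ℝ) - 1) / 20 ^ k) (((b : ℝ) + 2) / 20 ^ k)
    · rw [indicator_of_mem ht]
      have hbt := adj_of_mem ht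
      have h1 := R2_adj κ κ_adj k a (fl k u) b (fl k t) hu hbt
      have h2 := Kc_adj (hu.div_pow k)
      rw [fl_div_pow'] at h2
      exact (mul_le_mul_of_nonneg_right h2 (χ_nonneg _ _)).trans (chi_le_ω_ver k _ u t h1)
    · rw [indicator_of_notMem ht]; exact ω_nonneg _ _
  apply adm_bump
  · exact fun u => prof_nonneg hK _ _ _ u
  · exact fun u => prof_nonneg hK _ _ _ u
  · exact prof_lo hK _ _ _ le_rfl
  · exact prof_hi hK _ _ _ hwin
  · exact fun u => ⟨max u (((a : ℝ) + 2) / 20 ^ k), le_max_left _ _, prof_hi hK _ _ _ (le_max_right _ _)⟩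
  · exact fun u => ⟨min u (((a : ℝ) - 1) / 20 ^ k), min_le_left _ _, prof_lo hK _ _ _ (min_le_right _ _)⟩
  · intro u u' v huu _ _ hv
    refine (prof_lip hK _ _ _ huu).trans ?_
    exact intervalIntegral.integral_mono_on huu (wgt_ii _ _ _ _ _) (ii_ω_left _ _ _)
      fun t _ => hpt1 t v (prof_ne hK _ _ _ hv)
  · intro u v v' hu _ hvv _
    refine (prof_lip hK _ _ _ hvv).trans ?_
    exact intervalIntegral.integral_mono_on hvv (wgt_ii _ _ _ _ _) (ii_ω_right _ _ _)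
      fun t _ => hpt2 t u (prof_ne hK _ _ _ hu)

lemma bb_height (k : ℕ) (a b : ℤ) :
    Kc (a / 20 ^ k) / 4 * (1 / 9) ^ (R2 κ k a b + 2) / 20 ^ k = D k a b / 324 := by
  unfold D; rw [pow_add]; ring

/-- size of the cell of a point -/
noncomputable def Dp (k : ℕ) (u v : ℝ) : ℝ := D k (fl k u) (fl k v)

lemma Dp_pos (k : ℕ) (u v : ℝ) : 0 < Dp k u v := D_pos _ _ _

lemma bb_self {k : ℕ} (hk : 1 ≤ k) (u v : ℝ) :
    Dp k u v / 324 ≤ bb k (fl k u) (fl k v) (pt u v) := by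
  have hp : (0 : ℝ) < 20 ^ k := by positivity
  have h20 : (20 : ℝ) ≤ 20 ^ k := by
    calc (20 : ℝ) = 20 ^ 1 := (pow_one _).symm
      _ ≤ 20 ^ k := pow_le_pow_right₀ (by norm_num) hk
  obtain ⟨hu1, hu2⟩ := (fl_eq_iff k u _).1 rfl
  obtain ⟨hv1, hv2⟩ := (fl_eq_iff k v _).1 rfl
  set a := fl k u
  set b := fl k v
  have hK : 0 ≤ Kc (a / 20 ^ k) / 4 := by have := Kc_pos (a / 20 ^ k); positivity
  unfold bb
  rw [bump_pt]
  have hfr : Int.fract (v - ((b : ℝ) - 1) / 20 ^ k) = v - ((b : ℝ) - 1) / 20 ^ k := by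
    rw [Int.fract_eq_self]
    constructor
    · have : ((b : ℝ) - 1) / 20 ^ k ≤ (b : ℝ) / 20 ^ k :=
        div_le_div_of_nonneg_right (by linarith) hp.le
      linarith
    · have : ((b : ℝ) + 1) / 20 ^ k ≤ ((b : ℝ) - 1) / 20 ^ k + 1 := by
        rw [div_add_one hp.ne', div_le_div_iff_of_pos_right hp]
        linarith
      linarith
  rw [hfr, add_sub_cancel]
  unfold Dp
  rw [← bb_height]
  exact le_min (prof_mid hK _ _ _ hu1 hu2.le) (prof_mid hK _ _ _ hv1 hv2.le)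

/-- points at small distance lie in adjacent cells -/
lemma near_of_dst_lt {k : ℕ} (hk : 1 ≤ k) (u v : ℝ) (p : Pt)
    (h : dst (pt u v) p < Dp k u v / 324) :
    ∃ u' v', p = pt u' v' ∧ Adj (fl k u) (fl k u') ∧ Adj (fl k v) (fl k v') := by
  have h1 := le_dst (adm_bb hk (fl k u) (fl k v)) (pt u v) p
  have h2 := bb_self hk u v
  have h3 : 0 < bb k (fl k u) (fl k v) p := by
    have := le_abs_self (bb k (fl k u) (fl k v) (pt u v) - bb k (fl k u) (fl k v) p)
    linarith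
  have hK : 0 ≤ Kc (fl k u / 20 ^ k) / 4 := by have := Kc_pos (fl k u / 20 ^ k); positivity
  rcases p.cases' with rfl | rfl | ⟨u', v', -, rfl⟩
  · exact absurd h3 (lt_irrefl _)
  · exact absurd h3 (lt_irrefl _)
  · unfold bb at h3
    rw [bump_pt, lt_min_iff] at h3
    refine ⟨u', (((fl k v : ℤ) : ℝ) - 1) / 20 ^ k +
      Int.fract (v' - (((fl k v : ℤ) : ℝ) - 1) / 20 ^ k), ?_, prof_ne hK _ _ _ h3.1.ne',
      prof_ne hK _ _ _ h3.2.ne'⟩
    have e : (((fl k v : ℤ) : ℝ) - 1) / 20 ^ k +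
      Int.fract (v' - (((fl k v : ℤ) : ℝ) - 1) / 20 ^ k) =
      v' + ((-⌊v' - (((fl k v : ℤ) : ℝ) - 1) / 20 ^ k⌋ : ℤ) : ℝ) := by
      push_cast; rw [← Int.self_sub_floor]; ring
    rw [e, pt_add_int]

lemma abs_sub_of_adj {k : ℕ} {x x' : ℝ} (h : Adj (fl k x) (fl k x')) :
    |x - x'| ≤ 2 / 20 ^ k := by
  have hp : (0 : ℝ) < 20 ^ k := by positivity
  obtain ⟨h1, h2⟩ := (fl_eq_iff k x _).1 rfl
  obtain ⟨h3, h4⟩ := (fl_eq_iff k x' _).1 rfl
  obtain ⟨h5, h6⟩ := h
  have h5' : ((fl k x : ℤ) : ℝ) ≤ (fl k x' : ℤ) + 1 := by exact_mod_cast h5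
  have h6' : ((fl k x' : ℤ) : ℝ) ≤ (fl k x : ℤ) + 1 := by exact_mod_cast h6
  rw [div_le_iff₀ hp] at h1 h3
  rw [lt_div_iff₀ hp] at h2 h4
  rw [abs_le]
  constructor
  · rw [← neg_div, div_le_iff₀ hp]; nlinarith
  · rw [le_div_iff₀ hp]; nlinarith

lemma exists_pow_lt (ε : ℝ) (hε : 0 < ε) : ∃ k : ℕ, 1 ≤ k ∧ 2 / (20 : ℝ) ^ k < ε := by
  obtain ⟨k, hk⟩ := exists_pow_lt_of_lt_one (show (0 : ℝ) < ε / 2 by positivity)
    (show (1 / 20 : ℝ) < 1 by norm_num)
  refine ⟨k + 1, by omega, ?_⟩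
  rw [one_div, inv_pow] at hk
  have h1 : (20 : ℝ) ^ k ≤ 20 ^ (k + 1) := pow_le_pow_right₀ (by norm_num) (by omega)
  have hp : (0 : ℝ) < 20 ^ k := by positivity
  calc 2 / (20 : ℝ) ^ (k + 1) ≤ 2 / 20 ^ k := by gcongr
    _ = 2 * (20 ^ k)⁻¹ := by rw [div_eq_mul_inv]
    _ < ε := by linarith

lemma D0_pos (j : ℤ) : 0 < D0 j := by unfold D0; positivity

lemma dst_top_bot_pos : 0 < dst Pt.top Pt.bot := by
  have h1 := ThP_le_dst Pt.top Pt.bot
  have h2 := ThP_top_sub 1 0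
  have h3 := ThP_sub_bot 0 0
  have h4 : 0 ≤ ∫ t in Ioi (1 : ℝ), θ t := integral_nonneg fun _ => θ_nonneg _
  have h5 : 0 ≤ ∫ t in Iic (0 : ℝ), θ t := integral_nonneg fun _ => θ_nonneg _
  have h6 := Th_column 0
  rw [ThP_pt] at h2 h3
  have h7 := D0_pos 0
  push_cast at h6
  rw [zero_add] at h6
  have := le_abs_self (ThP Pt.top - ThP Pt.bot)
  linarith

lemma eq_of_dst_eq_zero {p q : Pt} (h : dst p q = 0) : p = q := by
  -- a point of the cylinder
  have key : ∀ (u v : ℝ), v ∈ Ico (0 : ℝ) 1 → ∀ q, dst (pt u v) q = 0 → pt u v = q := by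
    intro u v hv q hq
    have hnear : ∀ k, 1 ≤ k → ∃ u' v', q = pt u' v' ∧ Adj (fl k u) (fl k u') ∧
        Adj (fl k v) (fl k v') := fun k hk => near_of_dst_lt hk u v q (by
      rw [hq]; have := Dp_pos k u v; positivity)
    rcases q.cases' with rfl | rfl | ⟨u₀, v₀, hv₀, rfl⟩
    · obtain ⟨u', v', h', -⟩ := hnear 1 le_rfl
      exact absurd h' (by unfold pt; simp)
    · obtain ⟨u', v', h', -⟩ := hnear 1 le_rfl
      exact absurd h' (by unfold pt; simp)
    · have hinj : ∀ u' v', pt u₀ v₀ = pt u' v' → u₀ = u' ∧ v₀ = Int.fract v' := by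
        intro u' v' h'
        unfold pt at h'
        simp only [Pt.mid.injEq, Subtype.mk.injEq] at h'
        exact ⟨h'.1, by rw [← h'.2]; exact (Int.fract_eq_self.2 hv₀).symm⟩
      have hu : u = u₀ := by
        by_contra hne
        obtain ⟨k, hk1, hk⟩ := exists_pow_lt |u - u₀| (abs_pos.2 (sub_ne_zero.2 hne))
        obtain ⟨u', v', h', h1, -⟩ := hnear k hk1
        have h2 := abs_sub_of_adj h1
        rw [← (hinj _ _ h').1] at h2
        linarith
      have hv' : v = v₀ := by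
        by_contra hne
        have hlt : |v - v₀| < 1 := by
          rw [abs_lt]; constructor <;> linarith [hv.1, hv.2, hv₀.1, hv₀.2]
        obtain ⟨k, hk1, hk⟩ := exists_pow_lt (min |v - v₀| (1 - |v - v₀|))
          (lt_min (abs_pos.2 (sub_ne_zero.2 hne)) (by linarith))
        obtain ⟨u', v', h', -, h1⟩ := hnear k hk1
        have h2 := abs_sub_of_adj h1
        have h3 := (hinj _ _ h').2
        rw [lt_min_iff] at hk
        have h4 : v' = v₀ + ⌊v'⌋ := by rw [h3]; exact (Int.fract_add_floor v').symm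
        rw [h4] at h2
        rcases lt_trichotomy ⌊v'⌋ 0 with hm | hm | hm
        · have : ((⌊v'⌋ : ℤ) : ℝ) ≤ -1 := by exact_mod_cast (show ⌊v'⌋ ≤ -1 by omega)
          have h5 := (abs_le.1 h2).2
          have h6 := neg_abs_le (v - v₀)
          linarith [hk.2]
        · rw [hm, Int.cast_zero, add_zero] at h2
          linarith [hk.1]
        · have : (1 : ℝ) ≤ ((⌊v'⌋ : ℤ) : ℝ) := by exact_mod_cast (show 1 ≤ ⌊v'⌋ by omega)
          have h5 := (abs_le.1 h2).1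
          have h6 := le_abs_self (v - v₀)
          linarith [hk.2]
      rw [hu, hv']
  rcases p.cases' with rfl | rfl | ⟨u, v, hv, rfl⟩
  · rcases q.cases' with rfl | rfl | ⟨u', v', hv', rfl⟩
    · rfl
    · exact absurd h dst_top_bot_pos.ne'
    · exact (key u' v' hv' _ (by rw [dst_comm]; exact h)).symm
  · rcases q.cases' with rfl | rfl | ⟨u', v', hv', rfl⟩
    · exact absurd (by rw [dst_comm]; exact h) dst_top_bot_pos.ne'
    · rfl
    · exact (key u' v' hv' _ (by rw [dst_comm]; exact h)).symm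
  · exact key u v hv q h

noncomputable instance : MetricSpace Pt where
  dist := dst
  dist_self := dst_self
  dist_comm := dst_comm
  dist_triangle := dst_triangle
  eq_of_dist_eq_zero := eq_of_dst_eq_zero

lemma dist_def (p q : Pt) : dist p q = dst p q := rfl

/-! ## upper bounds -/

lemma ctr_mem_parent (k : ℕ) (a : ℤ) :
    ctr (k + 1) a ∈ Icc (((a / 20 : ℤ) : ℝ) / 20 ^ k) ((((a / 20 : ℤ) : ℝ) + 1) / 20 ^ k) := by
  have hp : (0 : ℝ) < 20 ^ k := by positivity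
  have h := fl_succ_div k (ctr (k + 1) a)
  rw [fl_ctr] at h
  obtain ⟨h1, h2⟩ := (fl_eq_iff k (ctr (k + 1) a) _).1 h.symm
  exact ⟨h1, h2.le⟩

/-- centre of the cell -/
noncomputable def cc (k : ℕ) (a b : ℤ) : Pt := pt (ctr k a) (ctr k b)

lemma dst_cc_child (k : ℕ) (a b : ℤ) :
    dst (cc k (a / 20) (b / 20)) (cc (k + 1) a b) ≤ 10 * D k (a / 20) (b / 20) := by
  have hmem : ∀ c : ℤ, ctr k c ∈ Icc ((c : ℝ) / 20 ^ k) (((c : ℝ) + 1) / 20 ^ k) := fun c =>
    ⟨(ctr_mem k c).1, (ctr_mem k c).2.le⟩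
  have h1 : dst (pt (ctr k (a / 20)) (ctr (k + 1) b)) (pt (ctr (k + 1) a) (ctr (k + 1) b)) ≤
      9 * D k (a / 20) (b / 20) :=
    dst_hor_le _ _ (hmem _) (ctr_mem_parent k a) (cost_hor' k (a / 20) b)
  have h2 : dst (pt (ctr k (a / 20)) (ctr k (b / 20))) (pt (ctr k (a / 20)) (ctr (k + 1) b)) ≤
      D k (a / 20) (b / 20) :=
    dst_ver_le _ _ (hmem _) (ctr_mem_parent k b) (cost_ver k (a / 20) (b / 20))
  have := dst_triangle (cc k (a / 20) (b / 20)) (pt (ctr k (a / 20)) (ctr (k + 1) b))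
    (cc (k + 1) a b)
  unfold cc at *
  linarith

/-- centre of the cell of a point -/
noncomputable def cp (k : ℕ) (u v : ℝ) : Pt := cc k (fl k u) (fl k v)

lemma Dp_succ_le (k : ℕ) (u v : ℝ) : Dp (k + 1) u v ≤ 9 / 20 * Dp k u v := by
  have := D_child_le k (fl (k + 1) u) (fl (k + 1) v)
  rwa [fl_succ_div, fl_succ_div] at this

lemma Dp_le_succ (k : ℕ) (u v : ℝ) : Dp k u v ≤ 180 * Dp (k + 1) u v := by
  have := D_le_child k (fl (k + 1) u) (fl (k + 1) v)
  rwa [fl_succ_div, fl_succ_div] at this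

lemma Dp_add_le (k n : ℕ) (u v : ℝ) : Dp (k + n) u v ≤ (9 / 20) ^ n * Dp k u v := by
  induction n with
  | zero => simp
  | succ n ih =>
    rw [← add_assoc]
    refine (Dp_succ_le _ _ _).trans ?_
    rw [pow_succ]; linarith

lemma dst_cp_succ (k : ℕ) (u v : ℝ) : dst (cp k u v) (cp (k + 1) u v) ≤ 10 * Dp k u v := by
  have := dst_cc_child k (fl (k + 1) u) (fl (k + 1) v)
  rwa [fl_succ_div, fl_succ_div] at this

lemma dst_cp_add (n : ℕ) (k : ℕ) (u v : ℝ) :
    dst (cp k u v) (cp (k + n) u v) ≤ 200 / 11 * Dp k u v := by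
  induction n generalizing k with
  | zero => rw [add_zero, dst_self]; have := Dp_pos k u v; positivity
  | succ n ih =>
    have h1 := ih (k + 1)
    have h2 := dst_cp_succ k u v
    have h3 := Dp_succ_le k u v
    have h4 := dst_triangle (cp k u v) (cp (k + 1) u v) (cp (k + (n + 1)) u v)
    rw [show k + 1 + n = k + (n + 1) by ring] at h1
    linarith

lemma dst_pt_cp_small (n : ℕ) (u v : ℝ) : dst (pt u v) (cp n u v) ≤ 2 * (2 / 20 ^ n) := by
  unfold cp cc
  refine (dst_le_abs _ _ _ _).trans ?_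
  have h1 := abs_sub_of_adj (k := n) (x := u) (x' := ctr n (fl n u))
    (by rw [fl_ctr]; exact Adj.refl _)
  have h2 := abs_sub_of_adj (k := n) (x := v) (x' := ctr n (fl n v))
    (by rw [fl_ctr]; exact Adj.refl _)
  linarith

lemma dst_pt_cp (k : ℕ) (u v : ℝ) : dst (pt u v) (cp k u v) ≤ 19 * Dp k u v := by
  have hD := Dp_pos k u v
  apply le_of_forall_pos_le_add
  intro ε hε
  obtain ⟨n, -, hn⟩ := exists_pow_lt (ε / 2) (by positivity)
  have h1 := dst_cp_add n k u v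
  have h2 := dst_pt_cp_small (k + n) u v
  have h3 := dst_triangle (pt u v) (cp (k + n) u v) (cp k u v)
  rw [dst_comm (cp (k + n) u v)] at h3
  have h4 : 2 / (20 : ℝ) ^ (k + n) ≤ 2 / 20 ^ n := by
    have : (20 : ℝ) ^ n ≤ 20 ^ (k + n) := pow_le_pow_right₀ (by norm_num) (by omega)
    gcongr
  linarith

lemma dst_cc_hor {k : ℕ} {a a' : ℤ} (b : ℤ) (h : Adj a a') :
    dst (cc k a b) (cc k a' b) ≤ D k a b + D k a' b := by
  wlog haa : a ≤ a' generalizing a a'
  · rw [dst_comm, add_comm]; exact this h.symm (by omega)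
  have hD := D_pos k a b
  have hD' := D_pos k a' b
  rcases eq_or_lt_of_le haa with rfl | hlt
  · rw [dst_self]; positivity
  · have ha' : a' = a + 1 := by unfold Adj at h; omega
    subst ha'
    have hp : (0 : ℝ) < 20 ^ k := by positivity
    unfold cc
    have h1 := cost_hor k a b
    have h2 := cost_hor k (a + 1) b
    have h3 : dst (pt (ctr k a) (ctr k b)) (pt (((a : ℝ) + 1) / 20 ^ k) (ctr k b)) ≤ D k a b :=
      dst_hor_le _ _ ⟨(ctr_mem k a).1, (ctr_mem k a).2.le⟩ ⟨cell_le k a, le_rfl⟩ h1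
    have h4 : dst (pt (((a : ℝ) + 1) / 20 ^ k) (ctr k b)) (pt (ctr k (a + 1)) (ctr k b)) ≤
        D k (a + 1) b := by
      have hm := ctr_mem k (a + 1)
      push_cast at hm h2
      refine dst_hor_le _ _ ⟨le_rfl, ?_⟩ ⟨hm.1, hm.2.le⟩ h2
      exact div_le_div_of_nonneg_right (by linarith) hp.le
    linarith [dst_triangle (pt (ctr k a) (ctr k b)) (pt (((a : ℝ) + 1) / 20 ^ k) (ctr k b))
      (pt (ctr k (a + 1)) (ctr k b))]

lemma dst_cc_ver {k : ℕ} {b b' : ℤ} (a : ℤ) (h : Adj b b') :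
    dst (cc k a b) (cc k a b') ≤ D k a b + D k a b' := by
  wlog hbb : b ≤ b' generalizing b b'
  · rw [dst_comm, add_comm]; exact this h.symm (by omega)
  have hD := D_pos k a b
  have hD' := D_pos k a b'
  rcases eq_or_lt_of_le hbb with rfl | hlt
  · rw [dst_self]; positivity
  · have hb' : b' = b + 1 := by unfold Adj at h; omega
    subst hb'
    have hp : (0 : ℝ) < 20 ^ k := by positivity
    unfold cc
    have h1 := cost_ver k a b
    have h2 := cost_ver k a (b + 1)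
    have h3 : dst (pt (ctr k a) (ctr k b)) (pt (ctr k a) (((b : ℝ) + 1) / 20 ^ k)) ≤ D k a b :=
      dst_ver_le _ _ ⟨(ctr_mem k b).1, (ctr_mem k b).2.le⟩ ⟨cell_le k b, le_rfl⟩ h1
    have h4 : dst (pt (ctr k a) (((b : ℝ) + 1) / 20 ^ k)) (pt (ctr k a) (ctr k (b + 1))) ≤
        D k a (b + 1) := by
      have hm := ctr_mem k (b + 1)
      push_cast at hm h2
      refine dst_ver_le _ _ ⟨le_rfl, ?_⟩ ⟨hm.1, hm.2.le⟩ h2
      exact div_le_div_of_nonneg_right (by linarith) hp.le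
    linarith [dst_triangle (pt (ctr k a) (ctr k b)) (pt (ctr k a) (((b : ℝ) + 1) / 20 ^ k))
      (pt (ctr k a) (ctr k (b + 1)))]

/-- points in adjacent cells are at comparable distance -/
lemma dst_block (k : ℕ) (u v u' v' : ℝ) (hu : Adj (fl k u) (fl k u'))
    (hv : Adj (fl k v) (fl k v')) : dst (pt u v) (pt u' v') ≤ 7200 * Dp k u v := by
  have hD := Dp_pos k u v
  have h1 := dst_pt_cp k u v
  have h2 := dst_pt_cp k u' v'
  have h3 := dst_cc_hor (k := k) (fl k v) hu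
  have h4 := dst_cc_ver (k := k) (fl k u') hv
  have h5 : D k (fl k u') (fl k v') ≤ 324 * D k (fl k u) (fl k v) := D_adj k hu.symm hv.symm
  have h6 : D k (fl k u') (fl k v) ≤ 324 * D k (fl k u) (fl k v) := D_adj k hu.symm (Adj.refl _)
  have t1 := dst_triangle (pt u v) (cp k u v) (pt u' v')
  have t2 := dst_triangle (cp k u v) (cc k (fl k u') (fl k v)) (pt u' v')
  have t3 := dst_triangle (cc k (fl k u') (fl k v)) (cp k u' v') (pt u' v')
  rw [dst_comm (cp k u' v')] at t3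
  unfold cp Dp at *
  linarith

lemma dst_same_cell (k : ℕ) (u v u' v' : ℝ) (hu : fl k u = fl k u') (hv : fl k v = fl k v') :
    dst (pt u v) (pt u' v') ≤ 38 * Dp k u v := by
  have h1 := dst_pt_cp k u v
  have h2 := dst_pt_cp k u' v'
  have t1 := dst_triangle (pt u v) (cp k u v) (pt u' v')
  have e : cp k u' v' = cp k u v := by unfold cp; rw [hu, hv]
  have e' : Dp k u' v' = Dp k u v := by unfold Dp; rw [hu, hv]
  rw [e, e', dst_comm] at h2
  linarith

/-! ## large scale -/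

lemma ω_ctr_zero_le (t : ℝ) (b : ℤ) : ω t (ctr 0 b) ≤ θ t := by
  have := ω_ctr_hor 0 t b
  rw [fl_zero, pow_zero, one_mul] at this
  exact this

lemma ctr_zero_pt (u : ℝ) (b : ℤ) : pt u (ctr 0 b) = pt u (ctr 0 0) := by
  have : ctr 0 b = ctr 0 0 + (b : ℤ) := by unfold ctr; push_cast; ring
  rw [this, pt_add_int]

/-- size of the column of a point -/
noncomputable def Sz : Pt → ℝ
  | Pt.top => 0
  | Pt.bot => 0
  | Pt.mid u _ => D0 ⌊u⌋

lemma Sz_pt (u v : ℝ) : Sz (pt u v) = D0 ⌊u⌋ := rfl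

lemma Dp_zero (u v : ℝ) : Dp 0 u v = D0 ⌊u⌋ := by
  unfold Dp; rw [fl_zero, fl_zero, D0_eq]

lemma Th_ctr (u : ℝ) : |Th u - Th (ctr 0 ⌊u⌋)| ≤ D0 ⌊u⌋ := by
  have h1 := Int.floor_le u
  have h2 := (Int.lt_floor_add_one u).le
  have h3 := ctr_mem 0 ⌊u⌋
  simp only [pow_zero, div_one] at h3
  have h4 := Th_column ⌊u⌋
  have m1 := Th_mono h1
  have m2 := Th_mono h2
  have m3 := Th_mono h3.1
  have m4 := Th_mono h3.2.le
  rw [abs_le]
  constructor <;> linarith

lemma dst_le_ThP_aux (u u' : ℝ) :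
    dst (pt (ctr 0 ⌊u⌋) (ctr 0 0)) (pt (ctr 0 ⌊u'⌋) (ctr 0 0)) ≤
      |Th (ctr 0 ⌊u⌋) - Th (ctr 0 ⌊u'⌋)| := by
  wlog h : ctr 0 ⌊u⌋ ≤ ctr 0 ⌊u'⌋ generalizing u u'
  · rw [dst_comm, abs_sub_comm]; exact this u' u (le_of_not_ge h)
  refine (dst_hor _ h).trans ?_
  rw [abs_sub_comm, Th_sub]
  refine le_trans ?_ (le_abs_self _)
  exact intervalIntegral.integral_mono_on h (ii_ω_left _ _ _) integrable_θ.intervalIntegrable
    fun t _ => ω_ctr_zero_le t 0

lemma dst_le_ThP (p q : Pt) : dst p q ≤ |ThP p - ThP q| + 20 * Sz p + 20 * Sz q := by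
  -- a mid point to its centre
  have hmid : ∀ u v, dst (pt u v) (pt (ctr 0 ⌊u⌋) (ctr 0 0)) ≤ 19 * D0 ⌊u⌋ := by
    intro u v
    have := dst_pt_cp 0 u v
    rw [Dp_zero] at this
    unfold cp cc at this
    rwa [fl_zero, ctr_zero_pt] at this
  have htop : ∀ u v, dst Pt.top (pt u v) ≤ |ThP Pt.top - ThP (pt u v)| + 20 * D0 ⌊u⌋ := by
    intro u v
    have h1 := hmid u v
    have h2 : dst Pt.top (pt (ctr 0 ⌊u⌋) (ctr 0 0)) ≤
        ThP Pt.top - ThP (pt (ctr 0 ⌊u⌋) (ctr 0 0)) := by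
      rw [ThP_top_sub]
      refine (dst_top _ _).trans ?_
      exact integral_mono (integrable_ω_left _).integrableOn integrable_θ.integrableOn
        fun t => ω_ctr_zero_le t 0
    have h3 := dst_triangle Pt.top (pt (ctr 0 ⌊u⌋) (ctr 0 0)) (pt u v)
    rw [dst_comm (pt (ctr 0 ⌊u⌋) (ctr 0 0))] at h3
    have h4 := Th_ctr u
    rw [ThP_pt] at h2 ⊢
    have h5 := le_abs_self (ThP Pt.top - Th u)
    have h6 := le_abs_self (Th u - Th (ctr 0 ⌊u⌋))
    linarith
  have hbot : ∀ u v, dst Pt.bot (pt u v) ≤ |ThP Pt.bot - ThP (pt u v)| + 20 * D0 ⌊u⌋ := by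
    intro u v
    have h1 := hmid u v
    have h2 : dst Pt.bot (pt (ctr 0 ⌊u⌋) (ctr 0 0)) ≤
        ThP (pt (ctr 0 ⌊u⌋) (ctr 0 0)) - ThP Pt.bot := by
      rw [ThP_sub_bot]
      refine (dst_bot _ _).trans ?_
      exact integral_mono (integrable_ω_left _).integrableOn integrable_θ.integrableOn
        fun t => ω_ctr_zero_le t 0
    have h3 := dst_triangle Pt.bot (pt (ctr 0 ⌊u⌋) (ctr 0 0)) (pt u v)
    rw [dst_comm (pt (ctr 0 ⌊u⌋) (ctr 0 0))] at h3
    have h4 := Th_ctr u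
    rw [ThP_pt] at h2 ⊢
    have h5 := neg_abs_le (ThP Pt.bot - Th u)
    have h6 := neg_abs_le (Th u - Th (ctr 0 ⌊u⌋))
    linarith
  have htb : dst Pt.top Pt.bot ≤ |ThP Pt.top - ThP Pt.bot| := by
    have h1 : dst Pt.top (pt 0 (ctr 0 0)) ≤ ThP Pt.top - ThP (pt 0 (ctr 0 0)) := by
      rw [ThP_top_sub]
      exact (dst_top _ _).trans (integral_mono (integrable_ω_left _).integrableOn
        integrable_θ.integrableOn fun t => ω_ctr_zero_le t 0)
    have h2 : dst Pt.bot (pt 0 (ctr 0 0)) ≤ ThP (pt 0 (ctr 0 0)) - ThP Pt.bot := by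
      rw [ThP_sub_bot]
      exact (dst_bot _ _).trans (integral_mono (integrable_ω_left _).integrableOn
        integrable_θ.integrableOn fun t => ω_ctr_zero_le t 0)
    have h3 := dst_triangle Pt.top (pt 0 (ctr 0 0)) Pt.bot
    rw [dst_comm (pt 0 (ctr 0 0))] at h3
    have := le_abs_self (ThP Pt.top - ThP Pt.bot)
    linarith
  rcases p.cases' with rfl | rfl | ⟨u, v, -, rfl⟩
  · rcases q.cases' with rfl | rfl | ⟨u', v', -, rfl⟩
    · rw [dst_self]; simp [Sz]
    · show _ ≤ _ + 20 * 0 + 20 * 0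
      linarith
    · rw [Sz_pt]
      show _ ≤ _ + 20 * 0 + _
      have := htop u' v'
      linarith
  · rcases q.cases' with rfl | rfl | ⟨u', v', -, rfl⟩
    · rw [dst_comm, abs_sub_comm]
      show _ ≤ _ + 20 * 0 + 20 * 0
      linarith
    · rw [dst_self]; simp [Sz]
    · rw [Sz_pt]
      show _ ≤ _ + 20 * 0 + _
      have := hbot u' v'
      linarith
  · rcases q.cases' with rfl | rfl | ⟨u', v', -, rfl⟩
    · rw [Sz_pt, dst_comm, abs_sub_comm]
      show _ ≤ _ + _ + 20 * 0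
      have := htop u v
      linarith
    · rw [Sz_pt, dst_comm, abs_sub_comm]
      show _ ≤ _ + _ + 20 * 0
      have := hbot u v
      linarith
    · rw [Sz_pt, Sz_pt, ThP_pt, ThP_pt]
      have h1 := hmid u v
      have h2 := hmid u' v'
      have h3 := dst_le_ThP_aux u u'
      have h4 := Th_ctr u
      have h5 := Th_ctr u'
      have t1 := dst_triangle (pt u v) (pt (ctr 0 ⌊u⌋) (ctr 0 0)) (pt u' v')
      have t2 := dst_triangle (pt (ctr 0 ⌊u⌋) (ctr 0 0)) (pt (ctr 0 ⌊u'⌋) (ctr 0 0)) (pt u' v')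
      rw [dst_comm (pt (ctr 0 ⌊u'⌋) (ctr 0 0)) (pt u' v')] at t2
      have h6 : |Th (ctr 0 ⌊u⌋) - Th (ctr 0 ⌊u'⌋)| ≤
          |Th u - Th u'| + |Th u - Th (ctr 0 ⌊u⌋)| + |Th u' - Th (ctr 0 ⌊u'⌋)| := by
        have e : Th (ctr 0 ⌊u⌋) - Th (ctr 0 ⌊u'⌋) =
          ((Th u - Th u') - (Th u - Th (ctr 0 ⌊u⌋))) + (Th u' - Th (ctr 0 ⌊u'⌋)) := by ring
        rw [e]
        exact (abs_add_le _ _).trans (add_le_add (abs_sub _ _) le_rfl)
      linarith

end Pool.MP_0f1fb3_an
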