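import Pool.Agent.Lib.MP_0f1fb3_an.Defs

set_option autoImplicit false

open MeasureTheory Set
open scoped ENNReal NNReal Topology

namespace Pool.MP_0f1fb3_an

variable {X : Type} [MetricSpace X]

/-- a curve `γ : [a,b] → X` together with a bound `w` for its metric speed -/
structure WCurve (γ : ℝ → X) (w : ℝ → ℝ) (a b : ℝ) : Prop where
  le : a ≤ b
  meas : Measurable w
  nonneg : ∀ t, 0 ≤ w t
  le_one : ∀ t, w t ≤ 1
  speed : ∀ s t, a ≤ s → s ≤ t → t ≤ b → dist (γ s) (γ t) ≤ ∫ x in s..t, w x

/-- `p` can be joined to `q` by a curve of `ρ`-cost at most `c` -/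
def Reach (ρ : X → ℝ≥0∞) (p q : X) (c : ℝ≥0∞) : Prop :=
  ∃ (γ : ℝ → X) (w : ℝ → ℝ) (a b : ℝ), WCurve γ w a b ∧ γ a = p ∧ γ b = q ∧
    ∫⁻ t in Icc a b, ρ (γ t) * ENNReal.ofReal (w t) ≤ c

lemma WCurve.ii {γ : ℝ → X} {w : ℝ → ℝ} {a b : ℝ} (h : WCurve γ w a b) (s t : ℝ) :
    IntervalIntegrable w volume s t := by
  refine (intervalIntegrable_const (c := (1:ℝ))).mono_fun h.meas.aestronglyMeasurable ?_
  filter_upwards with x
  rw [Real.norm_of_nonneg (h.nonneg x), norm_one]
  exact h.le_one x

lemma WCurve.int_le {γ : ℝ → X} {w : ℝ → ℝ} {a b : ℝ} (h : WCurve γ w a b) {s t : ℝ}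
    (hst : s ≤ t) : ∫ x in s..t, w x ≤ t - s := by
  have h1 : ∫ x in s..t, w x ≤ ∫ _ in s..t, (1:ℝ) :=
    intervalIntegral.integral_mono_on hst (h.ii s t) intervalIntegrable_const
      (fun x _ => h.le_one x)
  simpa using h1

lemma WCurve.evar_le {γ : ℝ → X} {w : ℝ → ℝ} {a b : ℝ} (h : WCurve γ w a b) {s t : ℝ}
    (hs : a ≤ s) (_hst : s ≤ t) (ht : t ≤ b) :
    eVariationOn γ (Icc s t) ≤ ENNReal.ofReal (∫ x in s..t, w x) := by
  apply iSup_le
  rintro ⟨n, u, hu, hmem⟩
  have hnn : ∀ i, 0 ≤ ∫ x in (u i)..(u (i + 1)), w x := fun i =>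
    intervalIntegral.integral_nonneg (hu (Nat.le_succ i)) (fun x _ => h.nonneg x)
  calc ∑ i ∈ Finset.range n, edist (γ (u (i + 1))) (γ (u i))
      ≤ ∑ i ∈ Finset.range n, ENNReal.ofReal (∫ x in (u i)..(u (i + 1)), w x) := by
        refine Finset.sum_le_sum fun i _ => ?_
        rw [edist_comm, edist_dist]
        exact ENNReal.ofReal_le_ofReal
          (h.speed _ _ (hs.trans (hmem i).1) (hu (Nat.le_succ i)) ((hmem (i + 1)).2.trans ht))
    _ = ENNReal.ofReal (∑ i ∈ Finset.range n, ∫ x in (u i)..(u (i + 1)), w x) := by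
        rw [ENNReal.ofReal_sum_of_nonneg (fun i _ => hnn i)]
    _ = ENNReal.ofReal (∫ x in (u 0)..(u n), w x) := by
        rw [intervalIntegral.sum_integral_adjacent_intervals (fun k _ => h.ii _ _)]
    _ ≤ ENNReal.ofReal (∫ x in s..t, w x) := by
        apply ENNReal.ofReal_le_ofReal
        exact intervalIntegral.integral_mono_interval (hmem 0).1 (hu (Nat.zero_le n)) (hmem n).2
          (Filter.Eventually.of_forall fun x => h.nonneg x) (h.ii s t)

lemma WCurve.isRectCurve {γ : ℝ → X} {w : ℝ → ℝ} {a b : ℝ} (h : WCurve γ w a b) :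
    IsRectCurve γ a b := by
  refine ⟨h.le, ?_, ?_⟩
  · have h1 : LipschitzOnWith 1 γ (Icc a b) := by
      apply LipschitzOnWith.of_dist_le_mul
      intro s hs t ht
      rw [NNReal.coe_one, one_mul]
      rcases le_total s t with hst | hst
      · refine (h.speed s t hs.1 hst ht.2).trans ?_
        rw [dist_comm, Real.dist_eq, abs_of_nonneg (by linarith)]
        exact h.int_le hst
      · rw [dist_comm]
        refine (h.speed t s ht.1 hst hs.2).trans ?_
        rw [Real.dist_eq, abs_of_nonneg (by linarith)]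
        exact h.int_le hst
    exact h1.continuousOn
  · exact ne_top_of_le_ne_top ENNReal.ofReal_ne_top (h.evar_le le_rfl h.le le_rfl)

lemma WCurve.lineInt_le {γ : ℝ → X} {w : ℝ → ℝ} {a b : ℝ} (h : WCurve γ w a b)
    (ρ : X → ℝ≥0∞) :
    lineInt ρ γ a b ≤ ∫⁻ t in Icc a b, ρ (γ t) * ENNReal.ofReal (w t) := by
  have hab := h.le
  set V : ℝ → ℝ := arcLen γ a b with hV
  set c : ℝ → ℝ := fun t => max a (min t b) with hc
  have hca : ∀ t, a ≤ c t := fun t => le_max_left _ _
  have hcb : ∀ t, c t ≤ b := fun t => max_le hab (min_le_right _ _)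
  have hcm : Monotone c := fun s t hst => max_le_max le_rfl (min_le_min hst le_rfl)
  have hfin : ∀ s t, a ≤ s → s ≤ t → t ≤ b → eVariationOn γ (Icc s t) ≠ ⊤ :=
    fun s t h1 h2 h3 => ne_top_of_le_ne_top ENNReal.ofReal_ne_top (h.evar_le h1 h2 h3)
  have hVc : ∀ t, V t = (eVariationOn γ (Icc a (c t))).toReal := by
    intro t
    rw [hV]
    unfold arcLen
    rcases le_total a (min t b) with h1 | h1
    · have : c t = min t b := max_eq_right h1
      rw [this]
    · have h2 : c t = a := max_eq_left h1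
      rw [h2, eVariationOn.subsingleton γ (Set.subsingleton_Icc_of_ge h1),
        eVariationOn.subsingleton γ (Set.subsingleton_Icc_of_ge le_rfl)]
  have hVsub : ∀ s t, s ≤ t → V t - V s = (eVariationOn γ (Icc (c s) (c t))).toReal := by
    intro s t hst
    have h1 := eVariationOn.Icc_add_Icc γ (s := univ) (hca s) (hcm hst) (mem_univ _)
    simp only [univ_inter] at h1
    rw [hVc t, hVc s, ← h1, ENNReal.toReal_add (hfin _ _ le_rfl (hca s) (hcb s))
      (hfin _ _ (hca s) (hcm hst) (hcb t))]
    ring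
  set wi : ℝ → ℝ := (Ioc a b).indicator w with hwi
  have hwim : Measurable wi := h.meas.indicator measurableSet_Ioc
  have hwi0 : ∀ t, 0 ≤ wi t := fun t => indicator_nonneg (fun x _ => h.nonneg x) t
  have hwile : ∀ t, wi t ≤ w t := fun t => indicator_le_self' (fun x _ => h.nonneg x) t
  have hwii : ∀ s t, IntervalIntegrable wi volume s t := by
    intro s t
    refine (intervalIntegrable_const (c := (1:ℝ))).mono_fun hwim.aestronglyMeasurable ?_
    filter_upwards with x
    rw [Real.norm_of_nonneg (hwi0 x), norm_one]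
    exact (hwile x).trans (h.le_one x)
  set W : ℝ → ℝ := fun t => ∫ x in a..t, wi x with hW
  have hWsub : ∀ s t, W t - W s = ∫ x in s..t, wi x := by
    intro s t
    rw [hW]
    simp only
    rw [intervalIntegral.integral_interval_sub_left (hwii _ _) (hwii _ _)]
  have hWc : ∀ t, W t = ∫ x in a..(c t), w x := by
    intro t
    rcases le_total t a with h1 | h1
    · have h2 : c t = a := max_eq_left ((min_le_left _ _).trans h1)
      rw [h2, intervalIntegral.integral_same, hW]
      simp only
      rw [intervalIntegral.integral_congr (g := fun _ => (0:ℝ))]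
      · simp
      · intro x hx
        rw [uIcc_of_ge h1] at hx
        exact indicator_of_notMem (fun hm => absurd hm.1 (not_lt.mpr hx.2)) w
    · have h2 : c t = min t b := max_eq_right (le_min h1 hab)
      have h3 : ∫ x in a..(min t b), wi x = ∫ x in a..(min t b), w x := by
        apply intervalIntegral.integral_congr_ae
        filter_upwards with x hx
        rw [uIoc_of_le (le_min h1 hab)] at hx
        exact indicator_of_mem (show x ∈ Ioc a b from ⟨hx.1, hx.2.trans (min_le_right _ _)⟩) w
      have h4 : ∫ x in (min t b)..t, wi x = 0 := by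
        rw [intervalIntegral.integral_congr_ae (g := fun _ => (0:ℝ))]
        · simp
        · filter_upwards with x hx
          rw [uIoc_of_le (min_le_left _ _)] at hx
          apply indicator_of_notMem
          intro hm
          rcases min_lt_iff.mp hx.1 with h5 | h5
          · exact absurd hx.2 (not_le.mpr h5)
          · exact absurd hm.2 (not_le.mpr h5)
      rw [h2, ← h3, hW]
      simp only
      rw [← intervalIntegral.integral_add_adjacent_intervals (hwii a (min t b)) (hwii _ t), h4,
        add_zero]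
  have hVW : ∀ s t, s ≤ t → V t - V s ≤ W t - W s := by
    intro s t hst
    rw [hVsub s t hst, hWc t, hWc s, intervalIntegral.integral_interval_sub_left (h.ii _ _) (h.ii _ _)]
    have h1 := h.evar_le (hca s) (hcm hst) (hcb t)
    have h2 : 0 ≤ ∫ x in (c s)..(c t), w x :=
      intervalIntegral.integral_nonneg (hcm hst) (fun x _ => h.nonneg x)
    calc (eVariationOn γ (Icc (c s) (c t))).toReal
        ≤ (ENNReal.ofReal (∫ x in (c s)..(c t), w x)).toReal :=
          ENNReal.toReal_mono ENNReal.ofReal_ne_top h1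
      _ = _ := ENNReal.toReal_ofReal h2
  have hVm : Monotone V := by
    intro s t hst
    have h1 := hVsub s t hst
    have h2 : 0 ≤ (eVariationOn γ (Icc (c s) (c t))).toReal := ENNReal.toReal_nonneg
    linarith
  have hWm : Monotone W := fun s t hst => by
    have := hVW s t hst
    have := hVm hst
    linarith
  have hWl : ∀ s t, s ≤ t → W t - W s ≤ t - s := by
    intro s t hst
    rw [hWsub s t]
    have h1 : ∫ x in s..t, wi x ≤ ∫ _ in s..t, (1:ℝ) :=
      intervalIntegral.integral_mono_on hst (hwii s t) intervalIntegrable_const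
        (fun x _ => (hwile x).trans (h.le_one x))
    simpa using h1
  have hcont : ∀ f : ℝ → ℝ, Monotone f → (∀ s t, s ≤ t → f t - f s ≤ t - s) → Continuous f := by
    intro f hf hfl
    have h1 : LipschitzWith 1 f := by
      apply LipschitzWith.of_dist_le_mul
      intro s t
      rw [NNReal.coe_one, one_mul]
      rcases le_total s t with hst | hst
      · rw [dist_comm, dist_comm s t, Real.dist_eq, Real.dist_eq, abs_of_nonneg (by linarith [hf hst]),
          abs_of_nonneg (by linarith)]
        exact hfl s t hst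
      · rw [Real.dist_eq, Real.dist_eq, abs_of_nonneg (by linarith [hf hst]),
          abs_of_nonneg (by linarith)]
        exact hfl t s hst
    exact h1.continuous
  have hVcont : Continuous V := hcont V hVm (fun s t hst => (hVW s t hst).trans (hWl s t hst))
  have hWcont : Continuous W := hcont W hWm hWl
  set fW : StieltjesFunction ℝ :=
    { toFun := W
      mono' := hWm
      right_continuous' := fun x => hWcont.continuousAt.continuousWithinAt } with hfW
  set fU : StieltjesFunction ℝ :=
    { toFun := fun t => W t - V t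
      mono' := fun s t hst => by
        have := hVW s t hst
        show W s - V s ≤ W t - V t
        linarith
      right_continuous' := fun x => (hWcont.sub hVcont).continuousAt.continuousWithinAt } with hfU
  have hsum : hVm.stieltjesFunction + fU = fW := by
    ext t
    show hVm.stieltjesFunction t + (W t - V t) = W t
    rw [hVm.stieltjesFunction_eq t]
    have h1 : Function.rightLim V t = V t :=
      (hVm.continuousWithinAt_Ioi_iff_rightLim_eq).mp hVcont.continuousAt.continuousWithinAt
    rw [h1]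
    ring
  have hmeas : fW.measure = volume.withDensity (fun x => ENNReal.ofReal (wi x)) := by
    apply Measure.ext_of_Ioc
    intro s t hst
    rw [StieltjesFunction.measure_Ioc, withDensity_apply _ measurableSet_Ioc]
    show ENNReal.ofReal (W t - W s) = _
    rw [hWsub s t, intervalIntegral.integral_of_le hst.le,
      ofReal_integral_eq_lintegral_ofReal ((hwii s t).1) (Filter.Eventually.of_forall fun x => hwi0 x)]
  have hle : hVm.stieltjesFunction.measure ≤ volume.withDensity (fun x => ENNReal.ofReal (wi x)) := by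
    rw [← hmeas, ← hsum, StieltjesFunction.measure_add]
    exact Measure.le_add_right le_rfl
  unfold lineInt
  rw [dif_pos hVm]
  calc ∫⁻ t in Icc a b, ρ (γ t) ∂hVm.stieltjesFunction.measure
      ≤ ∫⁻ t in Icc a b, ρ (γ t) ∂(volume.withDensity (fun x => ENNReal.ofReal (wi x))) :=
        lintegral_mono' (Measure.restrict_mono le_rfl hle) le_rfl
    _ = ∫⁻ t, ρ (γ t) ∂((volume.restrict (Icc a b)).withDensity
          (fun x => ENNReal.ofReal (wi x))) := by
        rw [restrict_withDensity measurableSet_Icc]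
    _ ≤ ∫⁻ t in Icc a b, ((fun x => ENNReal.ofReal (wi x)) * fun t => ρ (γ t)) t :=
        lintegral_withDensity_le_lintegral_mul _ hwim.ennreal_ofReal _
    _ ≤ ∫⁻ t in Icc a b, ρ (γ t) * ENNReal.ofReal (w t) := by
        apply lintegral_mono
        intro t
        show ENNReal.ofReal (wi t) * ρ (γ t) ≤ ρ (γ t) * ENNReal.ofReal (w t)
        rw [mul_comm]
        gcongr
        exact hwile t

lemma Reach.refl (ρ : X → ℝ≥0∞) (p : X) : Reach ρ p p 0 := by
  refine ⟨fun _ => p, fun _ => 0, 0, 0, ⟨le_rfl, measurable_const, fun _ => le_rfl,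
    fun _ => zero_le_one, fun s t _ _ _ => ?_⟩, rfl, rfl, ?_⟩
  · simp
  · simp

lemma Reach.mono {ρ : X → ℝ≥0∞} {p q : X} {c d : ℝ≥0∞} (h : Reach ρ p q c) (hcd : c ≤ d) :
    Reach ρ p q d := by
  obtain ⟨γ, w, a, b, h1, h2, h3, h4⟩ := h
  exact ⟨γ, w, a, b, h1, h2, h3, h4.trans hcd⟩

lemma Reach.symm {ρ : X → ℝ≥0∞} {p q : X} {c : ℝ≥0∞} (h : Reach ρ p q c) : Reach ρ q p c := by
  obtain ⟨γ, w, a, b, h1, h2, h3, h4⟩ := h
  refine ⟨fun t => γ (a + b - t), fun t => w (a + b - t), a, b,
    ⟨h1.le, h1.meas.comp (by fun_prop), fun t => h1.nonneg _, fun t => h1.le_one _, ?_⟩, ?_, ?_, ?_⟩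
  · intro s t hs hst ht
    rw [dist_comm, intervalIntegral.integral_comp_sub_left (fun x => w x) (a + b)]
    exact h1.speed _ _ (by linarith) (by linarith) (by linarith)
  · show γ (a + b - a) = q
    rw [← h3]; congr 1; ring
  · show γ (a + b - b) = p
    rw [← h2]; congr 1; ring
  · refine le_trans (le_of_eq ?_) h4
    have hmp : MeasurePreserving (fun t : ℝ => a + b - t) volume volume :=
      Measure.measurePreserving_sub_left volume (a + b)
    have hemb : MeasurableEmbedding (fun t : ℝ => a + b - t) :=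
      (MeasurableEquiv.subLeft (a + b)).measurableEmbedding
    have h5 := hmp.setLIntegral_comp_preimage_emb hemb (fun t => ρ (γ t) * ENNReal.ofReal (w t))
      (Icc a b)
    rw [← h5]
    congr 2
    ext t
    simp only [mem_preimage, mem_Icc]
    constructor <;> rintro ⟨h6, h7⟩ <;> constructor <;> linarith

lemma Reach.trans {ρ : X → ℝ≥0∞} {p q r : X} {c d : ℝ≥0∞} (h : Reach ρ p q c)
    (h' : Reach ρ q r d) : Reach ρ p r (c + d) := by
  obtain ⟨γ₁, w₁, a, b, h1, h2, h3, h4⟩ := h
  obtain ⟨γ₂, w₂, a', b', h1', h2', h3', h4'⟩ := h'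
  have hab := h1.le
  have hab' := h1'.le
  set e := a' - b with he
  set γ : ℝ → X := fun t => if t ≤ b then γ₁ t else γ₂ (t + e) with hγ
  set w : ℝ → ℝ := fun t => if t ≤ b then w₁ t else w₂ (t + e) with hw
  have hγb : ∀ t, b ≤ t → γ t = γ₂ (t + e) := by
    intro t ht
    rcases eq_or_lt_of_le ht with h5 | h5
    · rw [hγ]
      simp only
      rw [if_pos h5.ge, ← h5, h3, ← h2', he]
      congr 1; ring
    · rw [hγ]; simp only
      rw [if_neg (not_le.mpr h5)]
  have hγa : ∀ t, t ≤ b → γ t = γ₁ t := by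
    intro t ht; rw [hγ]; simp only; rw [if_pos ht]
  have hwm : Measurable w :=
    Measurable.ite measurableSet_Iic h1.meas (h1'.meas.comp (measurable_id.add_const e))
  have hw0 : ∀ t, 0 ≤ w t := by
    intro t; rw [hw]; simp only
    split_ifs
    · exact h1.nonneg _
    · exact h1'.nonneg _
  have hw1 : ∀ t, w t ≤ 1 := by
    intro t; rw [hw]; simp only
    split_ifs
    · exact h1.le_one _
    · exact h1'.le_one _
  have hwii : ∀ s t, IntervalIntegrable w volume s t := by
    intro s t
    refine (intervalIntegrable_const (c := (1:ℝ))).mono_fun hwm.aestronglyMeasurable ?_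
    filter_upwards with x
    rw [Real.norm_of_nonneg (hw0 x), norm_one]
    exact hw1 x
  have hint1 : ∀ s t, s ≤ t → t ≤ b → ∫ x in s..t, w x = ∫ x in s..t, w₁ x := by
    intro s t hst ht
    apply intervalIntegral.integral_congr
    intro x hx
    rw [uIcc_of_le hst] at hx
    rw [hw]; simp only
    rw [if_pos (hx.2.trans ht)]
  have hint2 : ∀ s t, s ≤ t → b ≤ s → ∫ x in s..t, w x = ∫ x in (s + e)..(t + e), w₂ x := by
    intro s t hst hs
    rw [← intervalIntegral.integral_comp_add_right (fun x => w₂ x) e]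
    apply intervalIntegral.integral_congr_ae
    filter_upwards with x hx
    rw [uIoc_of_le hst] at hx
    rw [hw]; simp only
    rw [if_neg (not_le.mpr (lt_of_le_of_lt hs hx.1))]
  refine ⟨γ, w, a, b' - e, ⟨by linarith, hwm, hw0, hw1, ?_⟩, ?_, ?_, ?_⟩
  · intro s t hs hst ht
    rcases le_total t b with htb | htb
    · rw [hint1 s t hst htb, hγa s (hst.trans htb), hγa t htb]
      exact h1.speed s t hs hst htb
    rcases le_total s b with hsb | hsb
    · rw [← intervalIntegral.integral_add_adjacent_intervals (hwii s b) (hwii b t),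
        hint1 s b hsb le_rfl, hint2 b t htb le_rfl]
      refine (dist_triangle _ (γ b) _).trans (add_le_add ?_ ?_)
      · rw [hγa s hsb, hγa b le_rfl]
        exact h1.speed s b hs hsb le_rfl
      · rw [hγb b le_rfl, hγb t htb]
        exact h1'.speed _ _ (by linarith) (by linarith) (by linarith)
    · rw [hint2 s t hst hsb, hγb s hsb, hγb t htb]
      exact h1'.speed _ _ (by linarith) (by linarith) (by linarith)
  · rw [hγa a hab, h2]
  · rw [hγb (b' - e) (by linarith), ← h3']
    congr 1; ring
  · have hun : Icc a (b' - e) = Icc a b ∪ Ioc b (b' - e) := by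
      rw [Icc_union_Ioc_eq_Icc hab (by linarith)]
    rw [hun, lintegral_union measurableSet_Ioc (by
      rw [Set.disjoint_left]
      intro x hx hx'
      exact absurd hx.2 (not_le.mpr hx'.1))]
    refine add_le_add (le_trans (le_of_eq ?_) h4) (le_trans (le_trans (le_of_eq ?_)
      (lintegral_mono_set (?_ : Ioc a' b' ⊆ Icc a' b'))) h4')
    · apply setLIntegral_congr_fun measurableSet_Icc
      intro t ht
      show ρ (γ t) * ENNReal.ofReal (w t) = ρ (γ₁ t) * ENNReal.ofReal (w₁ t)
      rw [hγa t ht.2, hw]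
      simp only
      rw [if_pos ht.2]
    · have hmp : MeasurePreserving (fun t : ℝ => t + e) volume volume :=
        measurePreserving_add_right volume e
      have hemb : MeasurableEmbedding (fun t : ℝ => t + e) :=
        (MeasurableEquiv.addRight e).measurableEmbedding
      rw [← hmp.setLIntegral_comp_preimage_emb hemb (fun t => ρ (γ₂ t) * ENNReal.ofReal (w₂ t))
        (Ioc a' b')]
      have hpre : (fun t : ℝ => t + e) ⁻¹' (Ioc a' b') = Ioc b (b' - e) := by
        ext t
        simp only [mem_preimage, mem_Ioc]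
        constructor <;> rintro ⟨h6, h7⟩ <;> constructor <;> linarith
      rw [hpre]
      apply setLIntegral_congr_fun measurableSet_Ioc
      intro t ht
      show ρ (γ t) * ENNReal.ofReal (w t) = ρ (γ₂ (t + e)) * ENNReal.ofReal (w₂ (t + e))
      rw [hγb t ht.1.le, hw]
      simp only
      rw [if_neg (not_le.mpr ht.1)]
    · exact Ioc_subset_Icc_self

theorem mod2_ge [MeasurableSpace X] [BorelSpace X] (E F : Set X) (C : ℝ≥0∞) (hC : C ≠ ⊤)
    (h : ∀ ρ : X → ℝ≥0∞, Measurable ρ → ∃ p ∈ E, ∃ q ∈ F,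
      Reach ρ p q (C * (∫⁻ x, ρ x ^ 2 ∂(Measure.hausdorffMeasure 2 : Measure X)) ^ (1 / 2 : ℝ))) :
    (C ^ 2)⁻¹ ≤ mod2 E F := by
  unfold mod2
  refine le_iInf₂ fun ρ hρ => ?_
  obtain ⟨p, hp, q, hq, γ, w, a, b, hw, ha, hb, hcost⟩ := h ρ hρ.1
  set I := ∫⁻ x, ρ x ^ 2 ∂(Measure.hausdorffMeasure 2 : Measure X) with hI
  have h1 : 1 ≤ C * I ^ (1 / 2 : ℝ) :=
    (hρ.2 γ a b hw.isRectCurve (ha ▸ hp) (hb ▸ hq)).trans ((hw.lineInt_le ρ).trans hcost)
  have h2 : (1:ℝ≥0∞) ≤ C ^ 2 * I := by
    have h3 : (1:ℝ≥0∞) ^ 2 ≤ (C * I ^ (1 / 2 : ℝ)) ^ 2 := by gcongr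
    rw [one_pow, mul_pow] at h3
    have h4 : (I ^ (1 / 2 : ℝ)) ^ 2 = I := by
      rw [← ENNReal.rpow_natCast, ← ENNReal.rpow_mul]
      norm_num
    rwa [h4] at h3
  have hC0 : C ^ 2 ≠ 0 := by
    intro h0
    rw [h0, zero_mul] at h2
    exact absurd h2 (by simp)
  have hCt : C ^ 2 ≠ ⊤ := ENNReal.pow_ne_top hC
  calc (C ^ 2)⁻¹ = (C ^ 2)⁻¹ * 1 := (mul_one _).symm
    _ ≤ (C ^ 2)⁻¹ * (C ^ 2 * I) := by gcongr
    _ = I := by rw [← mul_assoc, ENNReal.inv_mul_cancel hC0 hCt, one_mul]

end Pool.MP_0f1fb3_an
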