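import Pool.Agent.Lib.MP_0f1fb3_an.AreaLower
import Pool.Agent.Lib.MP_0f1fb3_an.AreaUpper
import Pool.Agent.Lib.MP_0f1fb3_an.LineInt

/-! The Loewner property of the space `Pt`. -/

set_option autoImplicit false

open MeasureTheory Set
open scoped ENNReal NNReal Topology

namespace Pool.MP_0f1fb3_an

/-! ## lines -/

/-- cost of a vertical line -/
noncomputable def costV (ρ : Pt → ℝ≥0∞) (c d x : ℝ) : ℝ≥0∞ :=
  ∫⁻ y in Icc c d, ρ (pt x y) * ENNReal.ofReal (ω x y)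

/-- cost of a horizontal line -/
noncomputable def costH (ρ : Pt → ℝ≥0∞) (a b y : ℝ) : ℝ≥0∞ :=
  ∫⁻ x in Icc a b, ρ (pt x y) * ENNReal.ofReal (ω x y)

lemma reach_H (ρ : Pt → ℝ≥0∞) {a b x x' y : ℝ} (hx : x ∈ Icc a b) (hx' : x' ∈ Icc a b) :
    Reach ρ (pt x y) (pt x' y) (costH ρ a b y) := by
  wlog h : x ≤ x' generalizing x x'
  · exact (this hx' hx (le_of_not_ge h)).symm
  exact ⟨fun t => pt t y, fun t => ω t y, x, x', ⟨h, measurable_ω_left y, fun t => ω_nonneg _ _,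
    fun t => ω_le_one _ _, fun s t _ hst _ => by rw [dist_def]; exact dst_hor y hst⟩, rfl, rfl,
    lintegral_mono_set (Icc_subset_Icc hx.1 hx'.2)⟩

lemma reach_V (ρ : Pt → ℝ≥0∞) {c d x y y' : ℝ} (hy : y ∈ Icc c d) (hy' : y' ∈ Icc c d) :
    Reach ρ (pt x y) (pt x y') (costV ρ c d x) := by
  wlog h : y ≤ y' generalizing y y'
  · exact (this hy' hy (le_of_not_ge h)).symm
  exact ⟨fun t => pt x t, fun t => ω x t, y, y', ⟨h, measurable_ω_right x, fun t => ω_nonneg _ _,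
    fun t => ω_le_one _ _, fun s t _ hst _ => by rw [dist_def]; exact dst_ver x hst⟩, rfl, rfl,
    lintegral_mono_set (Icc_subset_Icc hy.1 hy'.2)⟩

/-! ## energy -/

lemma lintegral_translate {g : ℝ × ℝ → ℝ≥0∞} (hper : ∀ x y (n : ℤ), g (x, y + n) = g (x, y))
    (n : ℤ) : ∫⁻ z in univ ×ˢ Ico (n : ℝ) (n + 1), g z = ∫⁻ z in univ ×ˢ Ico (0 : ℝ) 1, g z := by
  rw [← lintegral_indicator (MeasurableSet.univ.prod measurableSet_Ico),
    ← lintegral_indicator (MeasurableSet.univ.prod measurableSet_Ico),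
    ← lintegral_add_right_eq_self _ ((0 : ℝ), (n : ℝ))]
  congr 1
  ext ⟨x, y⟩
  by_cases h : y ∈ Ico (0 : ℝ) 1
  · rw [indicator_of_mem, indicator_of_mem]
    · simp only [Prod.mk_add_mk, add_zero]; exact hper x y n
    · exact ⟨mem_univ _, h⟩
    · refine ⟨mem_univ _, ?_⟩
      simp only [Prod.mk_add_mk, mem_Ico] at h ⊢
      exact ⟨by linarith [h.1], by linarith [h.2]⟩
  · rw [indicator_of_notMem, indicator_of_notMem]
    · intro h'; exact h h'.2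
    · intro h'
      have h2 := h'.2
      simp only [Prod.mk_add_mk, mem_Ico] at h2
      exact h ⟨by linarith [h2.1], by linarith [h2.2]⟩

lemma lintegral_periodic_le {g : ℝ × ℝ → ℝ≥0∞} (hper : ∀ x y (n : ℤ), g (x, y + n) = g (x, y))
    {a b c d : ℝ} (hc : -1 ≤ c) (hd : d ≤ 2) :
    ∫⁻ z in Icc a b ×ˢ Icc c d, g z ≤ 4 * ∫⁻ z in univ ×ˢ Ico (0 : ℝ) 1, g z := by
  have hsub : Icc a b ×ˢ Icc c d ⊆ ((univ ×ˢ Ico ((-1 : ℤ) : ℝ) ((-1 : ℤ) + 1)) ∪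
      (univ ×ˢ Ico ((0 : ℤ) : ℝ) ((0 : ℤ) + 1))) ∪ ((univ ×ˢ Ico ((1 : ℤ) : ℝ) ((1 : ℤ) + 1)) ∪
      (univ ×ˢ Ico ((2 : ℤ) : ℝ) ((2 : ℤ) + 1)) : Set (ℝ × ℝ)) := by
    rintro ⟨x, y⟩ ⟨-, hy1, hy2⟩
    simp only [mem_union, mem_prod, mem_univ, true_and, mem_Ico] at *
    push_cast
    by_cases h1 : y < 0
    · left; left; constructor <;> linarith
    · by_cases h2 : y < 1
      · left; right; constructor <;> linarith
      · by_cases h3 : y < 2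
        · right; left; constructor <;> linarith
        · right; right; constructor <;> linarith
  refine (lintegral_mono_set hsub).trans ?_
  refine (lintegral_union_le _ _ _).trans ?_
  refine (add_le_add (lintegral_union_le _ _ _) (lintegral_union_le _ _ _)).trans ?_
  rw [lintegral_translate hper, lintegral_translate hper, lintegral_translate hper,
    lintegral_translate hper]
  apply le_of_eq
  ring

lemma measurable_integrand {ρ : Pt → ℝ≥0∞} (hρ : Measurable ρ) :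
    Measurable fun z : ℝ × ℝ => ρ (pt z.1 z.2) * ENNReal.ofReal (ω z.1 z.2) :=
  (hρ.comp continuous_pt.measurable).mul measurable_ω.ennreal_ofReal

/-- total cost of a rectangle -/
noncomputable def costR (ρ : Pt → ℝ≥0∞) (a b c d : ℝ) : ℝ≥0∞ :=
  ∫⁻ z in Icc a b ×ˢ Icc c d, ρ (pt z.1 z.2) * ENNReal.ofReal (ω z.1 z.2)

/-- the `L²` norm -/
noncomputable def nrm (ρ : Pt → ℝ≥0∞) : ℝ≥0∞ :=
  (∫⁻ x, ρ x ^ 2 ∂(Measure.hausdorffMeasure 2 : Measure Pt)) ^ (1 / 2 : ℝ)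

lemma costR_le {ρ : Pt → ℝ≥0∞} (hρ : Measurable ρ) {a b c d : ℝ} (hc : -1 ≤ c) (hd : d ≤ 2) :
    costR ρ a b c d ≤ 2 * nrm ρ * (volume (Fz ∩ Icc a b ×ˢ Icc c d)) ^ (1 / 2 : ℝ) := by
  have h1 : costR ρ a b c d = ∫⁻ z in Icc a b ×ˢ Icc c d,
      ((fun z : ℝ × ℝ => ρ (pt z.1 z.2) * ENNReal.ofReal (ω z.1 z.2)) *
        (Fz.indicator 1 : ℝ × ℝ → ℝ≥0∞)) z := by
    unfold costR
    congr 1
    ext z
    rw [Pi.mul_apply]
    by_cases hz : z ∈ Fz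
    · rw [indicator_of_mem hz]; simp
    · rw [indicator_of_notMem hz, mul_zero, ω_of_notMem (u := z.1) (v := z.2) hz]; simp
  have h2 := ENNReal.lintegral_mul_le_Lp_mul_Lq (volume.restrict (Icc a b ×ˢ Icc c d))
    Real.HolderConjugate.two_two
    (f := fun z : ℝ × ℝ => ρ (pt z.1 z.2) * ENNReal.ofReal (ω z.1 z.2))
    (g := Fz.indicator 1) (measurable_integrand hρ).aemeasurable
    ((measurable_one.indicator measurableSet_Fz).aemeasurable)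
  rw [← h1] at h2
  refine h2.trans ?_
  apply mul_le_mul'
  · have h3 : ∫⁻ z in Icc a b ×ˢ Icc c d,
        (ρ (pt z.1 z.2) * ENNReal.ofReal (ω z.1 z.2)) ^ (2 : ℝ) ≤
        4 * ∫⁻ x, ρ x ^ 2 ∂(Measure.hausdorffMeasure 2 : Measure Pt) := by
      simp only [ENNReal.rpow_two]
      refine (lintegral_periodic_le (g := fun z : ℝ × ℝ =>
        (ρ (pt z.1 z.2) * ENNReal.ofReal (ω z.1 z.2)) ^ 2) ?_ hc hd).trans ?_
      · intro x y n
        simp only [pt_add_int, ω_add_int]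
      · exact mul_le_mul' le_rfl (lintegral_sq_le ρ hρ)
    refine (ENNReal.rpow_le_rpow h3 (by norm_num)).trans ?_
    rw [ENNReal.mul_rpow_of_nonneg _ _ (by norm_num)]
    apply le_of_eq
    unfold nrm
    congr 1
    rw [show (4 : ℝ≥0∞) = 2 ^ (2 : ℝ) by rw [ENNReal.rpow_two]; norm_num, ← ENNReal.rpow_mul]
    norm_num
  · apply ENNReal.rpow_le_rpow _ (by norm_num)
    have h4 : ∀ z : ℝ × ℝ, (Fz.indicator (1 : ℝ × ℝ → ℝ≥0∞) z) ^ (2 : ℝ) = Fz.indicator 1 z := by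
      intro z
      by_cases hz : z ∈ Fz
      · rw [indicator_of_mem hz]; simp
      · rw [indicator_of_notMem hz]; simp
    simp only [h4]
    rw [lintegral_indicator_one measurableSet_Fz, Measure.restrict_apply measurableSet_Fz]

lemma lintegral_costV {ρ : Pt → ℝ≥0∞} (hρ : Measurable ρ) (a b c d : ℝ) :
    ∫⁻ x in Icc a b, costV ρ c d x = costR ρ a b c d := by
  unfold costV costR
  rw [Measure.volume_eq_prod, ← Measure.prod_restrict,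
    lintegral_prod _ (measurable_integrand hρ).aemeasurable]

lemma lintegral_costH {ρ : Pt → ℝ≥0∞} (hρ : Measurable ρ) (a b c d : ℝ) :
    ∫⁻ y in Icc c d, costH ρ a b y = costR ρ a b c d := by
  unfold costH costR
  rw [Measure.volume_eq_prod, ← Measure.prod_restrict,
    lintegral_prod_symm _ (measurable_integrand hρ).aemeasurable]

lemma measurable_costV {ρ : Pt → ℝ≥0∞} (hρ : Measurable ρ) (c d : ℝ) :
    Measurable (costV ρ c d) := by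
  unfold costV
  exact (measurable_integrand hρ).lintegral_prod_right'

lemma measurable_costH {ρ : Pt → ℝ≥0∞} (hρ : Measurable ρ) (a b : ℝ) :
    Measurable (costH ρ a b) := by
  unfold costH
  exact (measurable_integrand hρ).lintegral_prod_left'

lemma exists_costV {ρ : Pt → ℝ≥0∞} (hρ : Measurable ρ) {a b c d s s' : ℝ} (hs : s < s')
    (ha : a ≤ s) (hb : s' ≤ b) :
    ∃ x ∈ Ioo s s', costV ρ c d x ≤ costR ρ a b c d / ENNReal.ofReal (s' - s) := by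
  obtain ⟨x, hx, h⟩ := exists_le_setLAverage (μ := volume) (s := Ioo s s') (f := costV ρ c d)
    (by rw [Real.volume_Ioo]; simp [hs]) (by rw [Real.volume_Ioo]; simp)
    (measurable_costV hρ c d).aemeasurable
  refine ⟨x, hx, h.trans ?_⟩
  rw [setLAverage_eq, Real.volume_Ioo, ← lintegral_costV hρ]
  apply ENNReal.div_le_div_right
  exact lintegral_mono_set fun y hy => ⟨ha.trans hy.1.le, hy.2.le.trans hb⟩

lemma exists_costH {ρ : Pt → ℝ≥0∞} (hρ : Measurable ρ) {a b c d s s' : ℝ} (hs : s < s')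
    (hc : c ≤ s) (hd : s' ≤ d) :
    ∃ y ∈ Ioo s s', costH ρ a b y ≤ costR ρ a b c d / ENNReal.ofReal (s' - s) := by
  obtain ⟨x, hx, h⟩ := exists_le_setLAverage (μ := volume) (s := Ioo s s') (f := costH ρ a b)
    (by rw [Real.volume_Ioo]; simp [hs]) (by rw [Real.volume_Ioo]; simp)
    (measurable_costH hρ a b).aemeasurable
  refine ⟨x, hx, h.trans ?_⟩
  rw [setLAverage_eq, Real.volume_Ioo, ← lintegral_costH hρ]
  apply ENNReal.div_le_div_right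
  exact lintegral_mono_set fun y hy => ⟨hc.trans hy.1.le, hy.2.le.trans hd⟩

/-! ## the grid -/

/-- the point lies on a good line of the rectangle -/
def OnGrid (ρ : Pt → ℝ≥0∞) (a b c d : ℝ) (K : ℝ≥0∞) (p : Pt) : Prop :=
  ∃ x ∈ Icc a b, ∃ y ∈ Icc c d, p = pt x y ∧ (costV ρ c d x ≤ K ∨ costH ρ a b y ≤ K)

lemma OnGrid.reach {ρ : Pt → ℝ≥0∞} {a b c d : ℝ} {K : ℝ≥0∞} {p : Pt}
    (h : OnGrid ρ a b c d K p) {x₁ y₁ : ℝ} (hx : x₁ ∈ Icc a b) (hy : y₁ ∈ Icc c d)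
    (h1 : costV ρ c d x₁ ≤ K) (h2 : costH ρ a b y₁ ≤ K) :
    Reach ρ p (pt x₁ y₁) (K + K) := by
  obtain ⟨x, hx', y, hy', rfl, h3 | h3⟩ := h
  · exact ((reach_V ρ hy' hy).mono h3).trans ((reach_H ρ hx' hx).mono h2)
  · exact ((reach_H ρ hx' hx).mono h3).trans ((reach_V ρ hy' hy).mono h1)

lemma isOpen_image_pt {U : Set (ℝ × ℝ)} (hU : IsOpen U) :
    IsOpen ((fun z : ℝ × ℝ => pt z.1 z.2) '' U) := by
  rw [Metric.isOpen_iff]
  rintro _ ⟨⟨u, v⟩, hz, rfl⟩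
  obtain ⟨ε, hε, hball⟩ := Metric.isOpen_iff.1 hU _ hz
  obtain ⟨k, hk, hk2⟩ := exists_pow_lt ε hε
  refine ⟨Dp k u v / 324, by have := Dp_pos k u v; positivity, ?_⟩
  intro q hq
  rw [Metric.mem_ball, dist_comm, dist_def] at hq
  obtain ⟨u', v', rfl, h1, h2⟩ := near_of_dst_lt hk u v q hq
  refine ⟨(u', v'), hball ?_, rfl⟩
  rw [Metric.mem_ball, Prod.dist_eq, Real.dist_eq, Real.dist_eq]
  have h3 := abs_sub_of_adj h1
  have h4 := abs_sub_of_adj h2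
  rw [abs_sub_comm] at h3 h4
  exact max_lt (h3.trans_lt hk2) (h4.trans_lt hk2)

lemma isClosed_image_pt {x₀ x₁ y₀ y₁ : ℝ} :
    IsClosed ((fun z : ℝ × ℝ => pt z.1 z.2) '' (Icc x₀ x₁ ×ˢ Icc y₀ y₁)) :=
  ((isCompact_Icc.prod isCompact_Icc).image continuous_pt).isClosed

lemma exists_onGrid {ρ : Pt → ℝ≥0∞} {a b c d : ℝ} {K : ℝ≥0∞} {l : ℕ}
    (hV : ∀ n : ℤ, a ≤ (n : ℝ) / 20 ^ l → ((n : ℝ) + 1) / 20 ^ l ≤ b →
      ∃ x ∈ Ioo ((n : ℝ) / 20 ^ l) (((n : ℝ) + 1) / 20 ^ l), costV ρ c d x ≤ K)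
    (hH : ∀ n : ℤ, c ≤ (n : ℝ) / 20 ^ l → ((n : ℝ) + 1) / 20 ^ l ≤ d →
      ∃ y ∈ Ioo ((n : ℝ) / 20 ^ l) (((n : ℝ) + 1) / 20 ^ l), costH ρ a b y ≤ K)
    {E : Set Pt} (hE : IsPreconnected E) {u v : ℝ} (he : pt u v ∈ E)
    (hesc : ∃ q ∈ E, 7200 * Dp l u v < dst (pt u v) q)
    (ha : a ≤ ((fl l u : ℝ) - 1) / 20 ^ l) (hb : ((fl l u : ℝ) + 2) / 20 ^ l ≤ b)
    (hc : c ≤ ((fl l v : ℝ) - 1) / 20 ^ l) (hd : ((fl l v : ℝ) + 2) / 20 ^ l ≤ d) :
    (∃ x ∈ Icc a b, costV ρ c d x ≤ K) ∧ (∃ y ∈ Icc c d, costH ρ a b y ≤ K) ∧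
      ∃ p ∈ E, OnGrid ρ a b c d K p := by
  have hp : (0 : ℝ) < 20 ^ l := by positivity
  have hdiv : ∀ {s t : ℝ}, s ≤ t → s / 20 ^ l ≤ t / 20 ^ l := fun h =>
    div_le_div_of_nonneg_right h hp.le
  obtain ⟨hu1, hu2⟩ := (fl_eq_iff l u _).1 rfl
  obtain ⟨hv1, hv2⟩ := (fl_eq_iff l v _).1 rfl
  obtain ⟨x₀, ⟨hx0, hx0'⟩, hx0c⟩ := hV (fl l u - 1) (by push_cast; exact ha) (by
    push_cast; refine le_trans (hdiv ?_) hb; linarith)
  obtain ⟨x₁, ⟨hx1, hx1'⟩, hx1c⟩ := hV (fl l u + 1) (by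
    push_cast; refine ha.trans (hdiv ?_); linarith) (by
    push_cast; refine le_trans (hdiv ?_) hb; linarith)
  obtain ⟨y₀, ⟨hy0, hy0'⟩, hy0c⟩ := hH (fl l v - 1) (by push_cast; exact hc) (by
    push_cast; refine le_trans (hdiv ?_) hd; linarith)
  obtain ⟨y₁, ⟨hy1, hy1'⟩, hy1c⟩ := hH (fl l v + 1) (by
    push_cast; refine hc.trans (hdiv ?_); linarith) (by
    push_cast; refine le_trans (hdiv ?_) hd; linarith)
  push_cast at hx0 hx0' hx1 hx1' hy0 hy0' hy1 hy1'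
  rw [sub_add_cancel] at hx0' hy0'
  rw [add_assoc, one_add_one_eq_two] at hx1' hy1'
  have hxm0 : x₀ ∈ Icc a b := ⟨ha.trans hx0.le, by
    refine (hx0'.le.trans (hdiv ?_)).trans hb; linarith⟩
  have hxm1 : x₁ ∈ Icc a b := ⟨by
    refine (ha.trans (hdiv ?_)).trans hx1.le; linarith, hx1'.le.trans hb⟩
  have hym0 : y₀ ∈ Icc c d := ⟨hc.trans hy0.le, by
    refine (hy0'.le.trans (hdiv ?_)).trans hd; linarith⟩
  have hym1 : y₁ ∈ Icc c d := ⟨by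
    refine (hc.trans (hdiv ?_)).trans hy1.le; linarith, hy1'.le.trans hd⟩
  refine ⟨⟨x₀, hxm0, hx0c⟩, ⟨y₀, hym0, hy0c⟩, ?_⟩
  set O : Set Pt := (fun z : ℝ × ℝ => pt z.1 z.2) '' (Ioo x₀ x₁ ×ˢ Ioo y₀ y₁) with hO
  set Q : Set Pt := (fun z : ℝ × ℝ => pt z.1 z.2) '' (Icc x₀ x₁ ×ˢ Icc y₀ y₁) with hQ
  have hOo : IsOpen O := isOpen_image_pt (isOpen_Ioo.prod isOpen_Ioo)
  have hQc : IsOpen Qᶜ := isClosed_image_pt.isOpen_compl
  have heO : pt u v ∈ O := ⟨(u, v), ⟨⟨by linarith, by linarith⟩, ⟨by linarith, by linarith⟩⟩, rfl⟩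
  obtain ⟨q, hqE, hq⟩ := hesc
  have hqQ : q ∈ Qᶜ := by
    rintro ⟨⟨x, y⟩, ⟨⟨hx, hx'⟩, hy, hy'⟩, rfl⟩
    simp only at hx hx' hy hy' hq
    have h1 : Adj (fl l u) (fl l x) := adj_of_mem ⟨by linarith, by linarith⟩
    have h2 : Adj (fl l v) (fl l y) := adj_of_mem ⟨by linarith, by linarith⟩
    exact absurd (dst_block l u v x y h1 h2) (not_le.2 hq)
  have hmeet : (E ∩ (Q \ O)).Nonempty := by
    by_contra hne
    rw [not_nonempty_iff_eq_empty] at hne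
    have hcov : E ⊆ O ∪ Qᶜ := by
      intro r hr
      by_cases h1 : r ∈ O
      · exact Or.inl h1
      · right
        intro h2
        have : r ∈ E ∩ (Q \ O) := ⟨hr, h2, h1⟩
        rw [hne] at this
        exact this
    obtain ⟨r, -, hr1, hr2⟩ := hE O Qᶜ hOo hQc hcov ⟨_, he, heO⟩ ⟨q, hqE, hqQ⟩
    apply hr2
    obtain ⟨z, ⟨hz1, hz2⟩, rfl⟩ := hr1
    exact ⟨z, ⟨Ioo_subset_Icc_self hz1, Ioo_subset_Icc_self hz2⟩, rfl⟩
  obtain ⟨r, hrE, ⟨⟨x, y⟩, ⟨hx, hy⟩, rfl⟩, hrO⟩ := hmeet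
  refine ⟨_, hrE, ?_⟩
  simp only at hx hy ⊢
  have hxab : x ∈ Icc a b := ⟨hxm0.1.trans hx.1, hx.2.trans hxm1.2⟩
  have hycd : y ∈ Icc c d := ⟨hym0.1.trans hy.1, hy.2.trans hym1.2⟩
  refine ⟨x, hxab, y, hycd, rfl, ?_⟩
  by_contra hcon
  push Not at hcon
  apply hrO
  refine ⟨(x, y), ⟨⟨lt_of_le_of_ne hx.1 ?_, lt_of_le_of_ne hx.2 ?_⟩,
    ⟨lt_of_le_of_ne hy.1 ?_, lt_of_le_of_ne hy.2 ?_⟩⟩, rfl⟩
  · rintro rfl; exact absurd hx0c (not_le.2 hcon.1)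
  · rintro rfl; exact absurd hx1c (not_le.2 hcon.1)
  · rintro rfl; exact absurd hy0c (not_le.2 hcon.2)
  · rintro rfl; exact absurd hy1c (not_le.2 hcon.2)

/-! ## scales -/

lemma fl_scale (K m : ℕ) (u : ℝ) :
    fl K u * 20 ^ m ≤ fl (K + m) u ∧ fl (K + m) u + 1 ≤ (fl K u + 1) * 20 ^ m := by
  have h := fl_div_pow K m u
  have hp : (0 : ℤ) < 20 ^ m := by positivity
  constructor
  · rw [← h]; exact Int.ediv_mul_le _ hp.ne'
  · rw [← h]; exact Int.lt_ediv_add_one_mul_self _ hp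

lemma scale_le (K m : ℕ) {x y : ℤ} (h : x * 20 ^ m ≤ y) :
    (x : ℝ) / 20 ^ K ≤ (y : ℝ) / 20 ^ (K + m) := by
  have h' : (x : ℝ) * 20 ^ m ≤ y := by exact_mod_cast h
  rw [div_le_div_iff₀ (by positivity) (by positivity), pow_add]
  nlinarith [pow_pos (show (0 : ℝ) < 20 by norm_num) K]

lemma le_scale (K m : ℕ) {x y : ℤ} (h : y ≤ x * 20 ^ m) :
    (y : ℝ) / 20 ^ (K + m) ≤ (x : ℝ) / 20 ^ K := by
  have h' : (y : ℝ) ≤ (x : ℝ) * 20 ^ m := by exact_mod_cast h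
  rw [div_le_div_iff₀ (by positivity) (by positivity), pow_add]
  nlinarith [pow_pos (show (0 : ℝ) < 20 by norm_num) K]

lemma connect_rect {ρ : Pt → ℝ≥0∞} (hρ : Measurable ρ) {a b c d : ℝ} {l : ℕ}
    {E F : Set Pt} (hE : IsPreconnected E) (hF : IsPreconnected F) {u v u' v' : ℝ}
    (he : pt u v ∈ E) (hf : pt u' v' ∈ F)
    (hesc : ∃ q ∈ E, 7200 * Dp l u v < dst (pt u v) q)
    (hesc' : ∃ q ∈ F, 7200 * Dp l u' v' < dst (pt u' v') q)
    (ha : a ≤ ((fl l u : ℝ) - 1) / 20 ^ l) (hb : ((fl l u : ℝ) + 2) / 20 ^ l ≤ b)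
    (hc : c ≤ ((fl l v : ℝ) - 1) / 20 ^ l) (hd : ((fl l v : ℝ) + 2) / 20 ^ l ≤ d)
    (ha' : a ≤ ((fl l u' : ℝ) - 1) / 20 ^ l) (hb' : ((fl l u' : ℝ) + 2) / 20 ^ l ≤ b)
    (hc' : c ≤ ((fl l v' : ℝ) - 1) / 20 ^ l) (hd' : ((fl l v' : ℝ) + 2) / 20 ^ l ≤ d) :
    ∃ p ∈ E, ∃ q ∈ F, Reach ρ p q (4 * (costR ρ a b c d / ENNReal.ofReal (1 / 20 ^ l))) := by
  have hp : (0 : ℝ) < 20 ^ l := by positivity
  have hV : ∀ n : ℤ, a ≤ (n : ℝ) / 20 ^ l → ((n : ℝ) + 1) / 20 ^ l ≤ b →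
      ∃ x ∈ Ioo ((n : ℝ) / 20 ^ l) (((n : ℝ) + 1) / 20 ^ l), costV ρ c d x ≤
        costR ρ a b c d / ENNReal.ofReal (1 / 20 ^ l) := by
    intro n h1 h2
    have h := exists_costV hρ (c := c) (d := d)
      (show (n : ℝ) / 20 ^ l < ((n : ℝ) + 1) / 20 ^ l from
        div_lt_div_of_pos_right (by linarith) hp) h1 h2
    rwa [← sub_div, add_sub_cancel_left] at h
  have hH : ∀ n : ℤ, c ≤ (n : ℝ) / 20 ^ l → ((n : ℝ) + 1) / 20 ^ l ≤ d →
      ∃ y ∈ Ioo ((n : ℝ) / 20 ^ l) (((n : ℝ) + 1) / 20 ^ l), costH ρ a b y ≤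
        costR ρ a b c d / ENNReal.ofReal (1 / 20 ^ l) := by
    intro n h1 h2
    have h := exists_costH hρ (a := a) (b := b)
      (show (n : ℝ) / 20 ^ l < ((n : ℝ) + 1) / 20 ^ l from
        div_lt_div_of_pos_right (by linarith) hp) h1 h2
    rwa [← sub_div, add_sub_cancel_left] at h
  obtain ⟨⟨x₁, hx₁, hx₁c⟩, ⟨y₁, hy₁, hy₁c⟩, p, hpE, hpg⟩ :=
    exists_onGrid hV hH hE he hesc ha hb hc hd
  obtain ⟨-, -, q, hqF, hqg⟩ := exists_onGrid hV hH hF hf hesc' ha' hb' hc' hd'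
  refine ⟨p, hpE, q, hqF, ?_⟩
  refine ((hpg.reach hx₁ hy₁ hx₁c hy₁c).trans (hqg.reach hx₁ hy₁ hx₁c hy₁c).symm).mono ?_
  apply le_of_eq
  ring

/-- the total area of the frozen set in one period -/
noncomputable def V0 : ℝ≥0∞ := volume (Fz ∩ (univ ×ˢ Ico (0 : ℝ) 1))

lemma volume_Fz_rect_le {a b c d : ℝ} (hc : -1 ≤ c) (hd : d ≤ 2) :
    volume (Fz ∩ Icc a b ×ˢ Icc c d) ≤ 4 * V0 := by
  have h := lintegral_periodic_le (g := (Fz.indicator 1 : ℝ × ℝ → ℝ≥0∞)) (a := a) (b := b)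
    (c := c) (d := d) (by
      intro x y n
      by_cases h : (x, y) ∈ Fz
      · rw [indicator_of_mem h, indicator_of_mem ((Fz_add_int x y n).2 h)]; rfl
      · rw [indicator_of_notMem h,
          indicator_of_notMem (fun h' => h ((Fz_add_int x y n).1 h'))]) hc hd
  rw [lintegral_indicator_one measurableSet_Fz, lintegral_indicator_one measurableSet_Fz,
    Measure.restrict_apply measurableSet_Fz, Measure.restrict_apply measurableSet_Fz] at h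
  exact h

lemma Dp_small {t r₀ : ℝ} (ht : 0 < t) (hr : 0 < r₀) {m : ℕ}
    (hm : (9 / 20 : ℝ) ^ m * (408146688000 * (t + 1)) < 1) {k : ℕ} {u v : ℝ}
    (h : Dp k u v ≤ 18895680 * ((t + 1) * r₀)) : 3 * (7200 * Dp (k + m) u v) < r₀ := by
  have h1 := Dp_add_le k m u v
  have hq : (0 : ℝ) < (9 / 20) ^ m := by positivity
  calc 3 * (7200 * Dp (k + m) u v) ≤ 21600 * ((9 / 20) ^ m * Dp k u v) := by linarith
    _ ≤ 21600 * ((9 / 20) ^ m * (18895680 * ((t + 1) * r₀))) := by gcongr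
    _ = ((9 / 20 : ℝ) ^ m * (408146688000 * (t + 1))) * r₀ := by ring
    _ < 1 * r₀ := by gcongr
    _ = r₀ := one_mul _

lemma escape {E : Set Pt} {r₀ : ℝ} (hEd : ∀ p ∈ E, ∃ q ∈ E, r₀ < 3 * dst p q) {k : ℕ} {u v : ℝ}
    (he : pt u v ∈ E) (h : 3 * (7200 * Dp k u v) < r₀) :
    ∃ q ∈ E, 7200 * Dp k u v < dst (pt u v) q := by
  obtain ⟨q, hq, h1⟩ := hEd _ he
  exact ⟨q, hq, by linarith⟩

lemma caseA {t r₀ : ℝ} (ht : 0 < t) (hr : 0 < r₀) {m : ℕ}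
    (hm : (9 / 20 : ℝ) ^ m * (408146688000 * (t + 1)) < 1) {E F : Set Pt}
    (hE : IsPreconnected E) (hF : IsPreconnected F)
    (hEd : ∀ p ∈ E, ∃ q ∈ E, r₀ < 3 * dst p q) (hFd : ∀ p ∈ F, ∃ q ∈ F, r₀ < 3 * dst p q)
    {u v : ℝ} (hv : v ∈ Ico (0 : ℝ) 1) (he : pt u v ∈ E) {q : Pt} (hq : q ∈ F)
    (hdist : dst (pt u v) q < (t + 1) * r₀) (hbig : 324 * ((t + 1) * r₀) < Dp 1 u v)
    {ρ : Pt → ℝ≥0∞} (hρ : Measurable ρ) :
    ∃ p ∈ E, ∃ q ∈ F, Reach ρ p q (ENNReal.ofReal (40 * 20 ^ m) * nrm ρ) := by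
  classical
  set T := (t + 1) * r₀ with hT
  have hT0 : 0 < T := by positivity
  -- the critical level
  have hex : ∃ n : ℕ, Dp (n + 1) u v ≤ 324 * T := by
    obtain ⟨n, hn⟩ := exists_pow_lt_of_lt_one
      (show (0 : ℝ) < 324 * T / Dp 1 u v by have := Dp_pos 1 u v; positivity)
      (show (9 / 20 : ℝ) < 1 by norm_num)
    refine ⟨n, ?_⟩
    have h1 := Dp_add_le 1 n u v
    rw [lt_div_iff₀ (Dp_pos 1 u v)] at hn
    rw [add_comm n 1]
    linarith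
  obtain ⟨K, hK1, hKbig, hKsm⟩ : ∃ K, 1 ≤ K ∧ 324 * T < Dp K u v ∧ Dp (K + 1) u v ≤ 324 * T := by
    have h0 : Nat.find hex ≠ 0 := by
      intro h0
      have := Nat.find_spec hex
      rw [h0] at this
      exact absurd this (not_le.2 hbig)
    refine ⟨Nat.find hex, Nat.one_le_iff_ne_zero.2 h0, ?_, Nat.find_spec hex⟩
    have := Nat.find_min hex (m := Nat.find hex - 1) (by omega)
    rw [show Nat.find hex - 1 + 1 = Nat.find hex by omega] at this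
    exact not_le.1 this
  obtain ⟨u', v', rfl, hau, hav⟩ := near_of_dst_lt hK1 u v q (by
    rw [lt_div_iff₀ (by norm_num)]; linarith)
  have hDK : Dp K u v ≤ 58320 * T := by
    have := Dp_le_succ K u v
    linarith
  have hDK' : Dp K u' v' ≤ 18895680 * T := by
    have h1 : D K (fl K u') (fl K v') ≤ 324 * D K (fl K u) (fl K v) := D_adj K hau.symm hav.symm
    unfold Dp at hDK ⊢
    linarith
  have hp : (0 : ℝ) < 20 ^ K := by positivity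
  have hpm : (1 : ℤ) ≤ 20 ^ m := one_le_pow₀ (by norm_num)
  obtain ⟨eu1, eu2⟩ := fl_scale K m u
  obtain ⟨ev1, ev2⟩ := fl_scale K m v
  obtain ⟨fu1, fu2⟩ := fl_scale K m u'
  obtain ⟨fv1, fv2⟩ := fl_scale K m v'
  have e1 : ∀ n : ℤ, ((n : ℝ) - 1) = ((n - 1 : ℤ) : ℝ) := fun n => by push_cast; ring
  have e2 : ∀ n : ℤ, ((n : ℝ) + 2) = ((n + 2 : ℤ) : ℝ) := fun n => by push_cast; ring
  have hfu : (fl K u - 1) * 20 ^ m ≤ fl K u' * 20 ^ m ∧
      (fl K u' + 1) * 20 ^ m ≤ (fl K u + 2) * 20 ^ m := by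
    constructor
    · apply mul_le_mul_of_nonneg_right _ (by positivity); have := hau.1; omega
    · apply mul_le_mul_of_nonneg_right _ (by positivity); have := hau.2; omega
  have hfv : (fl K v - 1) * 20 ^ m ≤ fl K v' * 20 ^ m ∧
      (fl K v' + 1) * 20 ^ m ≤ (fl K v + 2) * 20 ^ m := by
    constructor
    · apply mul_le_mul_of_nonneg_right _ (by positivity); have := hav.1; omega
    · apply mul_le_mul_of_nonneg_right _ (by positivity); have := hav.2; omega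
  obtain ⟨p, hpE, q, hqF, hR⟩ := connect_rect (a := ((fl K u - 2 : ℤ) : ℝ) / 20 ^ K)
    (b := ((fl K u + 3 : ℤ) : ℝ) / 20 ^ K) (c := ((fl K v - 2 : ℤ) : ℝ) / 20 ^ K)
    (d := ((fl K v + 3 : ℤ) : ℝ) / 20 ^ K) (l := K + m) hρ hE hF he hq
    (escape hEd he (Dp_small ht hr hm (by linarith)))
    (escape hFd hq (Dp_small ht hr hm hDK'))
    (by rw [e1]; apply scale_le; nlinarith) (by rw [e2]; apply le_scale; nlinarith)
    (by rw [e1]; apply scale_le; nlinarith) (by rw [e2]; apply le_scale; nlinarith)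
    (by rw [e1]; apply scale_le; nlinarith) (by rw [e2]; apply le_scale; nlinarith)
    (by rw [e1]; apply scale_le; nlinarith) (by rw [e2]; apply le_scale; nlinarith)
  refine ⟨p, hpE, q, hqF, hR.mono ?_⟩
  have h20 : (20 : ℝ) ≤ 20 ^ K := by
    calc (20 : ℝ) = 20 ^ 1 := (pow_one _).symm
      _ ≤ 20 ^ K := pow_le_pow_right₀ (by norm_num) hK1
  obtain ⟨hv1, hv2⟩ := (fl_eq_iff K v _).1 rfl
  rw [div_le_iff₀ hp] at hv1
  rw [lt_div_iff₀ hp] at hv2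
  have hfl0 : (0 : ℤ) ≤ fl K v := by
    have : (-1 : ℝ) < fl K v := by nlinarith [hv.1]
    have : (-1 : ℤ) < fl K v := by exact_mod_cast this
    omega
  have hfl0' : (0 : ℝ) ≤ fl K v := by exact_mod_cast hfl0
  have hc : (-1 : ℝ) ≤ ((fl K v - 2 : ℤ) : ℝ) / 20 ^ K := by
    rw [le_div_iff₀ hp]; push_cast; linarith
  have hd : ((fl K v + 3 : ℤ) : ℝ) / 20 ^ K ≤ 2 := by
    rw [div_le_iff₀ hp]; push_cast; nlinarith [hv.2]
  have hcost := costR_le hρ (a := ((fl K u - 2 : ℤ) : ℝ) / 20 ^ K)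
    (b := ((fl K u + 3 : ℤ) : ℝ) / 20 ^ K) hc hd
  have hvol : (volume (Fz ∩ Icc (((fl K u - 2 : ℤ) : ℝ) / 20 ^ K)
      (((fl K u + 3 : ℤ) : ℝ) / 20 ^ K) ×ˢ Icc (((fl K v - 2 : ℤ) : ℝ) / 20 ^ K)
      (((fl K v + 3 : ℤ) : ℝ) / 20 ^ K))) ^ (1 / 2 : ℝ) ≤ ENNReal.ofReal (5 / 20 ^ K) := by
    have h1 : volume (Fz ∩ Icc (((fl K u - 2 : ℤ) : ℝ) / 20 ^ K)
      (((fl K u + 3 : ℤ) : ℝ) / 20 ^ K) ×ˢ Icc (((fl K v - 2 : ℤ) : ℝ) / 20 ^ K)
      (((fl K v + 3 : ℤ) : ℝ) / 20 ^ K)) ≤ ENNReal.ofReal (5 / 20 ^ K) ^ (2 : ℝ) := by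
      refine (measure_mono inter_subset_right).trans (le_of_eq ?_)
      rw [Measure.volume_eq_prod, Measure.prod_prod, Real.volume_Icc, Real.volume_Icc,
        ENNReal.rpow_two, sq]
      congr 2 <;> (push_cast; ring)
    refine (ENNReal.rpow_le_rpow h1 (by norm_num)).trans (le_of_eq ?_)
    rw [← ENNReal.rpow_mul]
    norm_num
  calc 4 * (costR ρ (((fl K u - 2 : ℤ) : ℝ) / 20 ^ K) (((fl K u + 3 : ℤ) : ℝ) / 20 ^ K)
        (((fl K v - 2 : ℤ) : ℝ) / 20 ^ K) (((fl K v + 3 : ℤ) : ℝ) / 20 ^ K) /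
        ENNReal.ofReal (1 / 20 ^ (K + m)))
      ≤ 4 * ((2 * nrm ρ * ENNReal.ofReal (5 / 20 ^ K)) / ENNReal.ofReal (1 / 20 ^ (K + m))) := by
        gcongr
        exact hcost.trans (mul_le_mul' le_rfl hvol)
    _ = 8 * (ENNReal.ofReal (5 / 20 ^ K) / ENNReal.ofReal (1 / 20 ^ (K + m))) * nrm ρ := by
        have e : ∀ x y z : ℝ≥0∞, 4 * ((2 * x * y) / z) = 8 * (y / z) * x := by
          intro x y z; simp only [div_eq_mul_inv]; ring
        exact e _ _ _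
    _ = ENNReal.ofReal (40 * 20 ^ m) * nrm ρ := by
        rw [← ENNReal.ofReal_div_of_pos (by positivity)]
        congr 1
        rw [show (8 : ℝ≥0∞) = ENNReal.ofReal 8 by simp, ← ENNReal.ofReal_mul (by norm_num)]
        congr 1
        rw [pow_add]
        field_simp
        norm_num

lemma caseC {t r₀ : ℝ} (ht : 0 < t) (hr : 0 < r₀) {m : ℕ}
    (hm : (9 / 20 : ℝ) ^ m * (408146688000 * (t + 1)) < 1) {E F : Set Pt}
    (hE : IsPreconnected E) (hF : IsPreconnected F)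
    (hEd : ∀ p ∈ E, ∃ q ∈ E, r₀ < 3 * dst p q) (hFd : ∀ p ∈ F, ∃ q ∈ F, r₀ < 3 * dst p q)
    {u v u' v' : ℝ} (hv : v ∈ Ico (0 : ℝ) 1) (hv' : v' ∈ Ico (0 : ℝ) 1) (he : pt u v ∈ E)
    (hf : pt u' v' ∈ F)
    (h1 : Dp 1 u v ≤ 324 * ((t + 1) * r₀)) (h2 : Dp 1 u' v' ≤ 324 * ((t + 1) * r₀))
    {ρ : Pt → ℝ≥0∞} (hρ : Measurable ρ) :
    ∃ p ∈ E, ∃ q ∈ F, Reach ρ p q (ENNReal.ofReal (16 * 20 ^ (1 + m)) * V0 ^ (1 / 2 : ℝ) *
      nrm ρ) := by
  have hT0 : 0 < (t + 1) * r₀ := by positivity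
  have hp : (0 : ℝ) < 20 ^ (1 + m) := by positivity
  have h20 : (20 : ℝ) ≤ 20 ^ (1 + m) := by
    calc (20 : ℝ) = 20 ^ 1 := (pow_one _).symm
      _ ≤ 20 ^ (1 + m) := pow_le_pow_right₀ (by norm_num) (by omega)
  have hc : ∀ {y : ℝ}, y ∈ Ico (0 : ℝ) 1 → (-1 : ℝ) ≤ ((fl (1 + m) y : ℝ) - 1) / 20 ^ (1 + m) ∧
      ((fl (1 + m) y : ℝ) + 2) / 20 ^ (1 + m) ≤ 2 := by
    intro y hy
    obtain ⟨hv1, hv2⟩ := (fl_eq_iff (1 + m) y _).1 rfl
    rw [div_le_iff₀ hp] at hv1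
    rw [lt_div_iff₀ hp] at hv2
    have hfl0 : (0 : ℤ) ≤ fl (1 + m) y := by
      have : (-1 : ℝ) < fl (1 + m) y := by nlinarith [hy.1]
      have : (-1 : ℤ) < fl (1 + m) y := by exact_mod_cast this
      omega
    have hfl0' : (0 : ℝ) ≤ fl (1 + m) y := by exact_mod_cast hfl0
    constructor
    · rw [le_div_iff₀ hp]; linarith
    · rw [div_le_iff₀ hp]; nlinarith [hy.2]
  have hmin1 : (min (fl (1 + m) u) (fl (1 + m) u') : ℤ) ≤ fl (1 + m) u := min_le_left _ _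
  obtain ⟨p, hpE, q, hqF, hR⟩ := connect_rect
    (a := min (((fl (1 + m) u : ℝ) - 1) / 20 ^ (1 + m)) (((fl (1 + m) u' : ℝ) - 1) / 20 ^ (1 + m)))
    (b := max (((fl (1 + m) u : ℝ) + 2) / 20 ^ (1 + m)) (((fl (1 + m) u' : ℝ) + 2) / 20 ^ (1 + m)))
    (c := -1) (d := 2) (l := 1 + m) hρ hE hF he hf
    (escape hEd he (Dp_small ht hr hm (by linarith)))
    (escape hFd hf (Dp_small ht hr hm (by linarith)))
    (min_le_left _ _) (le_max_left _ _) (hc hv).1 (hc hv).2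
    (min_le_right _ _) (le_max_right _ _) (hc hv').1 (hc hv').2
  refine ⟨p, hpE, q, hqF, hR.mono ?_⟩
  have hcost := costR_le hρ (c := -1) (d := 2)
    (a := min (((fl (1 + m) u : ℝ) - 1) / 20 ^ (1 + m)) (((fl (1 + m) u' : ℝ) - 1) / 20 ^ (1 + m)))
    (b := max (((fl (1 + m) u : ℝ) + 2) / 20 ^ (1 + m)) (((fl (1 + m) u' : ℝ) + 2) / 20 ^ (1 + m)))
    le_rfl le_rfl
  have hvol := ENNReal.rpow_le_rpow (z := (1 / 2 : ℝ)) (volume_Fz_rect_le (c := -1) (d := 2)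
    (a := min (((fl (1 + m) u : ℝ) - 1) / 20 ^ (1 + m)) (((fl (1 + m) u' : ℝ) - 1) / 20 ^ (1 + m)))
    (b := max (((fl (1 + m) u : ℝ) + 2) / 20 ^ (1 + m)) (((fl (1 + m) u' : ℝ) + 2) / 20 ^ (1 + m)))
    le_rfl le_rfl) (by norm_num)
  have h4 : (4 * V0) ^ (1 / 2 : ℝ) = 2 * V0 ^ (1 / 2 : ℝ) := by
    rw [ENNReal.mul_rpow_of_nonneg _ _ (by norm_num)]
    congr 1
    rw [show (4 : ℝ≥0∞) = 2 ^ (2 : ℝ) by rw [ENNReal.rpow_two]; norm_num, ← ENNReal.rpow_mul]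
    norm_num
  rw [h4] at hvol
  calc 4 * (costR ρ _ _ (-1) 2 / ENNReal.ofReal (1 / 20 ^ (1 + m)))
      ≤ 4 * ((2 * nrm ρ * (2 * V0 ^ (1 / 2 : ℝ))) / ENNReal.ofReal (1 / 20 ^ (1 + m))) := by
        gcongr
        exact hcost.trans (mul_le_mul' le_rfl hvol)
    _ = 16 * (1 / ENNReal.ofReal (1 / 20 ^ (1 + m))) * V0 ^ (1 / 2 : ℝ) * nrm ρ := by
        have e : ∀ x y z : ℝ≥0∞, 4 * ((2 * x * (2 * y)) / z) = 16 * (1 / z) * y * x := by
          intro x y z; simp only [div_eq_mul_inv]; ring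
        exact e _ _ _
    _ = ENNReal.ofReal (16 * 20 ^ (1 + m)) * V0 ^ (1 / 2 : ℝ) * nrm ρ := by
        congr 2
        rw [show (1 : ℝ≥0∞) = ENNReal.ofReal 1 by simp,
          ← ENNReal.ofReal_div_of_pos (by positivity),
          show (16 : ℝ≥0∞) = ENNReal.ofReal 16 by simp, ← ENNReal.ofReal_mul (by norm_num)]
        congr 1
        simp

lemma exists_mid_near {E : Set Pt} (hE : IsPreconnected E) (hnt : E.Nontrivial) {p : Pt}
    (hp : p ∈ E) {ε : ℝ} (hε : 0 < ε) :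
    ∃ u v, v ∈ Ico (0 : ℝ) 1 ∧ pt u v ∈ E ∧ dst p (pt u v) < ε := by
  have hacc := hE.preperfect_of_nontrivial hnt p hp
  rw [accPt_iff_nhds] at hacc
  have hfin : (({Pt.top, Pt.bot} : Set Pt) \ {p}).Finite := (Set.toFinite _).subset sdiff_subset
  obtain ⟨y, ⟨⟨hy1, hy2⟩, hyE⟩, hyp⟩ := hacc (Metric.ball p ε ∩ (({Pt.top, Pt.bot} : Set Pt) \ {p})ᶜ)
    (Filter.inter_mem (Metric.ball_mem_nhds p hε)
      (hfin.isClosed.isOpen_compl.mem_nhds (fun h => h.2 rfl)))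
  rcases y.cases' with rfl | rfl | ⟨u, v, hv, rfl⟩
  · exact absurd ⟨Or.inl rfl, hyp⟩ hy2
  · exact absurd ⟨Or.inr rfl, hyp⟩ hy2
  · refine ⟨u, v, hv, hyE, ?_⟩
    rw [Metric.mem_ball, dist_comm, dist_def] at hy1
    exact hy1

lemma far_of_diam {E : Set Pt} {r₀ : ℝ} (hr : 0 < r₀) (h : r₀ ≤ Metric.diam E) :
    ∀ p ∈ E, ∃ q ∈ E, r₀ < 3 * dst p q := by
  intro p hp
  by_contra hcon
  push Not at hcon
  have h1 : Metric.diam E ≤ 2 * (r₀ / 3) := by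
    apply Metric.diam_le_of_forall_dist_le (by positivity)
    intro x hx y hy
    have h2 := hcon x hx
    have h3 := hcon y hy
    have h4 := dst_triangle x p y
    rw [dst_comm x p] at h4
    rw [dist_def]
    linarith
  linarith

/-- the space `Pt` is `2`-Loewner -/
theorem loewner_Pt : IsLoewner Pt := by
  have key : ∀ t : ℝ, 0 < t → ∃ c : ℝ, 0 < c ∧ ∀ (E F : Set Pt), IsContinuum E →
      IsContinuum F → Disjoint E F →
      setDist E F ≤ t * min (Metric.diam E) (Metric.diam F) → ENNReal.ofReal c ≤ mod2 E F := by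
    intro t ht
    obtain ⟨m, hm'⟩ := exists_pow_lt_of_lt_one
      (show (0 : ℝ) < 1 / (408146688000 * (t + 1)) by positivity)
      (show (9 / 20 : ℝ) < 1 by norm_num)
    have hm : (9 / 20 : ℝ) ^ m * (408146688000 * (t + 1)) < 1 := by
      rwa [lt_div_iff₀ (by positivity)] at hm'
    set C : ℝ≥0∞ := ENNReal.ofReal (40 * 20 ^ m) +
      ENNReal.ofReal (16 * 20 ^ (1 + m)) * V0 ^ (1 / 2 : ℝ) with hC
    have hV0 : V0 ≠ ⊤ := volume_Fz_lt_top.ne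
    have hCtop : C ≠ ⊤ := by
      rw [hC]
      exact ENNReal.add_ne_top.2 ⟨ENNReal.ofReal_ne_top, ENNReal.mul_ne_top ENNReal.ofReal_ne_top
        (ENNReal.rpow_ne_top_of_nonneg (by norm_num) hV0)⟩
    have hC0 : C ≠ 0 := by
      rw [hC]
      have : ENNReal.ofReal (40 * 20 ^ m) ≠ 0 := by
        rw [ne_eq, ENNReal.ofReal_eq_zero, not_le]; positivity
      exact fun h => this (add_eq_zero.1 h).1
    have hCi : (C ^ 2)⁻¹ ≠ ⊤ := by
      rw [ne_eq, ENNReal.inv_eq_top]; exact pow_ne_zero 2 hC0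
    refine ⟨((C ^ 2)⁻¹).toReal, ENNReal.toReal_pos ?_ hCi, ?_⟩
    · rw [ne_eq, ENNReal.inv_eq_zero]; exact ENNReal.pow_ne_top hCtop
    intro E F hE hF _ hdist
    rw [ENNReal.ofReal_toReal hCi]
    have hdE : 0 < Metric.diam E := by
      obtain ⟨x, hx, y, hy, hxy⟩ := hE.nontrivial
      exact (dist_pos.2 hxy).trans_le
        (Metric.dist_le_diam_of_mem hE.compact.isBounded hx hy)
    have hdF : 0 < Metric.diam F := by
      obtain ⟨x, hx, y, hy, hxy⟩ := hF.nontrivial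
      exact (dist_pos.2 hxy).trans_le
        (Metric.dist_le_diam_of_mem hF.compact.isBounded hx hy)
    set r₀ := min (Metric.diam E) (Metric.diam F) with hr₀
    have hr : 0 < r₀ := lt_min hdE hdF
    have hEd := far_of_diam hr (min_le_left _ _ : r₀ ≤ Metric.diam E)
    have hFd := far_of_diam hr (min_le_right _ _ : r₀ ≤ Metric.diam F)
    have hEp := hE.connected.isPreconnected
    have hFp := hF.connected.isPreconnected
    -- near points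
    have : Nonempty (E × F) := by
      obtain ⟨x, hx⟩ := hE.connected.nonempty
      obtain ⟨y, hy⟩ := hF.connected.nonempty
      exact ⟨⟨⟨x, hx⟩, ⟨y, hy⟩⟩⟩
    obtain ⟨⟨⟨p, hp⟩, ⟨q, hq⟩⟩, hpq⟩ := exists_lt_of_ciInf_lt
      (show (⨅ p : E × F, dist (p.1 : Pt) (p.2 : Pt)) < t * r₀ + r₀ / 3 from
        lt_of_le_of_lt hdist (by linarith))
    simp only [dist_def] at hpq
    obtain ⟨u, v, hv, he, h1⟩ := exists_mid_near hEp hE.nontrivial hp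
      (show (0 : ℝ) < r₀ / 3 by positivity)
    obtain ⟨u', v', hv', hf, h2⟩ := exists_mid_near hFp hF.nontrivial hq
      (show (0 : ℝ) < r₀ / 3 by positivity)
    have hef : dst (pt u v) (pt u' v') < (t + 1) * r₀ := by
      have h3 := dst_triangle (pt u v) p (pt u' v')
      have h4 := dst_triangle p q (pt u' v')
      rw [dst_comm (pt u v) p] at h3
      linarith
    apply mod2_ge E F C hCtop
    intro ρ hρ
    by_cases hbig : 324 * ((t + 1) * r₀) < Dp 1 u v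
    · obtain ⟨a, ha, b, hb, hR⟩ := caseA ht hr hm hEp hFp hEd hFd hv he hf hef hbig hρ
      refine ⟨a, ha, b, hb, hR.mono ?_⟩
      exact mul_le_mul' le_self_add le_rfl
    · by_cases hbig' : 324 * ((t + 1) * r₀) < Dp 1 u' v'
      · obtain ⟨a, ha, b, hb, hR⟩ := caseA ht hr hm hFp hEp hFd hEd hv' hf he
          (by rw [dst_comm]; exact hef) hbig' hρ
        refine ⟨b, hb, a, ha, hR.symm.mono ?_⟩
        exact mul_le_mul' le_self_add le_rfl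
      · obtain ⟨a, ha, b, hb, hR⟩ := caseC ht hr hm hEp hFp hEd hFd hv hv' he hf
          (not_lt.1 hbig) (not_lt.1 hbig') hρ
        refine ⟨a, ha, b, hb, hR.mono ?_⟩
        exact mul_le_mul' le_add_self le_rfl
  choose! φ h1 h2 using key
  exact ⟨φ, h1, fun E F t ht hE hF hd h => h2 t ht E F hE hF hd h⟩

theorem isLoewner_Pt : IsLoewner Pt := loewner_Pt

end Pool.MP_0f1fb3_an
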