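import Pool.Agent.Lib.MP_0f1fb3_an.Defs

set_option autoImplicit false

open MeasureTheory Set
open scoped ENNReal NNReal Topology

namespace Pool.MP_0f1fb3_an

private abbrev E3 : Type := EuclideanSpace ℝ (Fin 3)

lemma dist_sq_S2 (z a : S2) : dist z a ^ 2 = 2 - 2 * inner ℝ (z : E3) (a : E3) := by
  have hz : ‖(z : E3)‖ = 1 := by simp
  have ha : ‖(a : E3)‖ = 1 := by simp
  rw [Subtype.dist_eq, dist_eq_norm, norm_sub_sq_real, hz, ha]
  ring

/-- complements of balls in the round sphere are connected -/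
theorem cap_preconnected (a : S2) (r : ℝ) : IsPreconnected {z : S2 | r ≤ dist z a} := by
  have hrank : 1 < Module.rank ℝ E3 := by
    rw [← Module.finrank_eq_rank, finrank_euclideanSpace]
    norm_num
  rcases le_or_gt r 0 with hr | hr
  · have h1 : {z : S2 | r ≤ dist z a} = univ := by
      ext z
      simp only [mem_ofPred_eq, mem_univ, iff_true]
      exact hr.trans dist_nonneg
    rw [h1]
    have h2 : IsPreconnected (Metric.sphere (0 : E3) 1) := isPreconnected_sphere hrank 0 1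
    exact (isPreconnected_iff_preconnectedSpace.mp h2).isPreconnected_univ
  have ha : ‖(a : E3)‖ = 1 := by simp
  -- the antipode
  have hna : ‖-(a : E3)‖ = 1 := by rw [norm_neg, ha]
  apply isPreconnected_of_forall (⟨-(a : E3), by simp⟩ : S2)
  intro z hz
  have hz1 : ‖(z : E3)‖ = 1 := by simp
  set x : ℝ := inner ℝ (z : E3) (a : E3) with hx
  have haa : inner ℝ (a : E3) (a : E3) = (1:ℝ) := by
    rw [real_inner_self_eq_norm_sq, ha]; norm_num
  have hxle : x ≤ 1 := by
    have := real_inner_le_norm (z : E3) (a : E3)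
    rw [hz1, ha] at this; linarith
  have hxge : -1 ≤ x := by
    have h1 := abs_real_inner_le_norm (z : E3) (a : E3)
    rw [hz1, ha, abs_le] at h1
    linarith [h1.1]
  have hza : (z : E3) ≠ a := by
    intro h
    have h1 : dist z a = 0 := by rw [Subtype.ext h]; exact dist_self _
    have h2 : r ≤ dist z a := hz
    linarith
  set v : ℝ → E3 := fun t => (1 - t) • (z : E3) - t • (a : E3) with hv
  have hvne : ∀ t ∈ Icc (0:ℝ) 1, v t ≠ 0 := by
    intro t ht h0
    have h1 : (1 - t) • (z : E3) = t • (a : E3) := sub_eq_zero.mp h0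
    have h2 := congrArg norm h1
    rw [norm_smul, norm_smul, hz1, ha, Real.norm_of_nonneg (by linarith [ht.2]),
      Real.norm_of_nonneg ht.1] at h2
    have h3 : t = 1 / 2 := by linarith
    rw [h3] at h1
    apply hza
    have h4 : (1 - (1/2:ℝ)) = 1/2 := by norm_num
    rw [h4] at h1
    exact smul_right_injective _ (by norm_num : (1/2:ℝ) ≠ 0) h1
  have hvc : Continuous v := by
    rw [hv]; fun_prop
  have hva : ∀ t, inner ℝ (v t) (a : E3) = (1 - t) * x - t := by
    intro t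
    rw [hv]
    simp only
    rw [inner_sub_left, real_inner_smul_left, real_inner_smul_left, haa, ← hx]
    ring
  have hvn : ∀ t, ‖v t‖ ^ 2 = (1 - t) ^ 2 - 2 * t * (1 - t) * x + t ^ 2 := by
    intro t
    rw [hv]
    simp only
    rw [norm_sub_sq_real, norm_smul, norm_smul, hz1, ha, real_inner_smul_left,
      real_inner_smul_right, ← hx, mul_one, mul_one, Real.norm_eq_abs, Real.norm_eq_abs, sq_abs,
      sq_abs]
    ring
  have key : ∀ t ∈ Icc (0:ℝ) 1, (1 - t) * x - t ≤ x * ‖v t‖ := by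
    intro t ht
    have ht0 := ht.1
    have ht1 := ht.2
    have hn0 : 0 ≤ ‖v t‖ := norm_nonneg _
    rcases le_or_gt 0 x with h0 | h0
    · rcases le_or_gt ((1 - t) * x - t) 0 with h1 | h1
      · exact h1.trans (mul_nonneg h0 hn0)
      · apply le_of_sq_le_sq _ (mul_nonneg h0 hn0)
        rw [mul_pow, hvn t]
        have h2 : t ^ 2 - 2 * t * (1 - t) * x ≤ 0 := by nlinarith
        have h3 : 0 ≤ 1 - x ^ 2 := by nlinarith
        nlinarith
    · have h1 : ‖v t‖ ≤ 1 := by
        apply le_of_sq_le_sq _ (by norm_num)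
        rw [hvn t]
        nlinarith [mul_nonneg ht0 (by linarith : 0 ≤ 1 - t)]
      have h2 : x * 1 ≤ x * ‖v t‖ := mul_le_mul_of_nonpos_left h1 h0.le
      nlinarith
  -- the path
  set g : ℝ → E3 := fun t => ‖v t‖⁻¹ • v t with hg
  have hgc : ContinuousOn g (Icc 0 1) := by
    have h1 : ContinuousOn (fun t => ‖v t‖⁻¹) (Icc 0 1) :=
      (hvc.norm.continuousOn).inv₀ (fun t ht => norm_ne_zero_iff.mpr (hvne t ht))
    exact h1.smul hvc.continuousOn
  have hgn : ∀ t ∈ Icc (0:ℝ) 1, ‖g t‖ = 1 := by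
    intro t ht
    rw [hg]
    simp only
    rw [norm_smul, norm_inv, norm_norm, inv_mul_cancel₀ (norm_ne_zero_iff.mpr (hvne t ht))]
  have hS : ∀ t : Icc (0:ℝ) 1, g t ∈ Metric.sphere (0 : E3) 1 := fun t => by
    simpa using hgn t t.2
  set G : Icc (0:ℝ) 1 → S2 := fun t => ⟨g t, hS t⟩ with hG
  have hGc : Continuous G := by
    apply Continuous.subtype_mk
    exact continuousOn_iff_continuous_domRestrict.mp hgc
  refine ⟨range G, ?_, ?_, ?_, isPreconnected_range hGc⟩
  · rintro _ ⟨t, rfl⟩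
    show r ≤ dist (G t) a
    apply le_of_sq_le_sq _ dist_nonneg
    have hr2 : r ^ 2 ≤ dist z a ^ 2 := by
      have h2 : r ≤ dist z a := hz
      exact pow_le_pow_left₀ hr.le h2 2
    refine hr2.trans ?_
    rw [dist_sq_S2, dist_sq_S2]
    have hpos : 0 < ‖v t‖ := norm_pos_iff.mpr (hvne t t.2)
    have h1 : inner ℝ ((G t : S2) : E3) (a : E3) = ‖v t‖⁻¹ * ((1 - t) * x - t) := by
      show inner ℝ (‖v t‖⁻¹ • v t) (a : E3) = _
      rw [real_inner_smul_left, hva]
    rw [h1]
    have h2 : ‖v t‖⁻¹ * ((1 - t) * x - t) ≤ x := by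
      rw [inv_mul_le_iff₀ hpos, mul_comm ‖v t‖]
      exact key t t.2
    linarith
  · refine ⟨⟨1, by norm_num, le_refl _⟩, ?_⟩
    apply Subtype.ext
    show ‖v 1‖⁻¹ • v 1 = -(a : E3)
    have h1 : v 1 = -(a : E3) := by rw [hv]; simp
    rw [h1, hna, inv_one, one_smul]
  · refine ⟨⟨0, le_refl _, by norm_num⟩, ?_⟩
    apply Subtype.ext
    show ‖v 0‖⁻¹ • v 0 = (z : E3)
    have h1 : v 0 = (z : E3) := by rw [hv]; simp
    rw [h1, hz1, inv_one, one_smul]

/-- failing LLC: sets `Z` of relatively small diameter separating two far points -/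
theorem not_quasisphere_of (X : Type) [MetricSpace X]
    (h : ∀ M : ℝ, ∃ (Z : Set X) (a x₁ x₂ : X), a ∈ Z ∧
      (∀ z ∈ Z, M * dist z a < dist x₁ a ∧ M * dist z a < dist x₂ a) ∧
      (∀ C : Set X, IsPreconnected C → x₁ ∈ C → x₂ ∈ C → (C ∩ Z).Nonempty)) :
    ¬ IsQuasisphere X := by
  rintro ⟨f, η, hη⟩
  obtain ⟨Z, a, x₁, x₂, haZ, hZ, hsep⟩ := h (η 1)
  have hlt : ∀ z ∈ Z, ∀ x : X, (η 1 : ℝ) * dist z a < dist x a →
      dist (f.symm z) (f.symm a) < dist (f.symm x) (f.symm a) := by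
    intro z hz x hx
    by_contra hcon
    push Not at hcon
    have h1 := hη (f.symm x) (f.symm a) (f.symm z) 1 (by simpa using hcon)
    simp only [Homeomorph.apply_symm_apply] at h1
    linarith
  set r := min (dist (f.symm x₁) (f.symm a)) (dist (f.symm x₂) (f.symm a)) with hr
  have hconn := (cap_preconnected (f.symm a) r).image f f.continuous.continuousOn
  obtain ⟨y, ⟨w, hw, rfl⟩, hyZ⟩ := hsep _ hconn
    ⟨f.symm x₁, show r ≤ dist (f.symm x₁) (f.symm a) from min_le_left _ _, f.apply_symm_apply _⟩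
    ⟨f.symm x₂, show r ≤ dist (f.symm x₂) (f.symm a) from min_le_right _ _, f.apply_symm_apply _⟩
  have h1 := hlt (f w) hyZ x₁ (hZ _ hyZ).1
  have h2 := hlt (f w) hyZ x₂ (hZ _ hyZ).2
  rw [f.symm_apply_apply] at h1 h2
  have h3 : r ≤ dist w (f.symm a) := hw
  exact absurd (lt_min h1 h2) (not_lt.mpr h3)

end Pool.MP_0f1fb3_an
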