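import Pool.Agent.Lib.MP_0f1fb3_an.Top
import Pool.Agent.Lib.MP_0f1fb3_an.NotQS

set_option autoImplicit false

open MeasureTheory Set
open scoped ENNReal NNReal Topology

namespace Pool.MP_0f1fb3_an

lemma κ_run (m i : ℕ) (hi : i < 2 * 2 ^ m) : κ (2 * 2 ^ m - 1 + i : ℤ) = m + 1 := by
  unfold κ
  have h1 : (1 : ℤ) ≤ 2 ^ m := one_le_pow₀ (by norm_num)
  have h2 : (2 * 2 ^ m - 1 + i : ℤ).natAbs + 1 = 2 * 2 ^ m + i := by
    have h3 : ((2 * 2 ^ m + i : ℕ) : ℤ) = (2 * 2 ^ m - 1 + i : ℤ) + 1 := by push_cast; ring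
    omega
  rw [h2]
  apply Nat.log_eq_of_pow_le_of_lt_pow
  · rw [pow_succ]; omega
  · rw [pow_succ, pow_succ]; omega

lemma D0_run (m i : ℕ) (hi : i < 2 * 2 ^ m) :
    D0 (2 * 2 ^ m - 1 + i : ℤ) = (1 / 36) ^ (m + 1) := by
  unfold D0; rw [κ_run m i hi]

lemma Th_run (m i : ℕ) (hi : i ≤ 2 * 2 ^ m) :
    Th (2 * 2 ^ m - 1 + i) - Th (2 * 2 ^ m - 1) = i * (1 / 36) ^ (m + 1) := by
  induction i with
  | zero => simp
  | succ i ih =>
    have h1 := ih (by omega)
    have h2 := Th_column (2 * 2 ^ m - 1 + i : ℤ)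
    rw [D0_run m i (by omega)] at h2
    push_cast at h2 ⊢
    have e : (2 * 2 ^ m - 1 + ((i : ℝ) + 1)) = 2 * 2 ^ m - 1 + i + 1 := by ring
    rw [e]
    linarith

lemma continuous_ThP : Continuous ThP := by
  have : LipschitzWith 1 ThP := LipschitzWith.of_dist_le_mul fun p q => by
    rw [Real.dist_eq, dist_def]
    simpa using ThP_le_dst p q
  exact this.continuous

theorem not_quasisphere_Pt : ¬ IsQuasisphere Pt := by
  apply not_quasisphere_of
  intro M
  obtain ⟨m, hm⟩ : ∃ m : ℕ, 40 * |M| < 2 ^ m := pow_unbounded_of_one_lt _ (by norm_num)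
  have hm0 : (0 : ℝ) < 2 ^ m := by positivity
  have hmN : 0 < 2 ^ m := by positivity
  set w : ℝ := (1 / 36) ^ (m + 1) with hw
  have hw0 : 0 < w := by positivity
  set s : ℝ := 2 * 2 ^ m - 1 with hs
  have ha := Th_run m (2 ^ m) (by omega)
  have hb := Th_run m (2 * 2 ^ m) le_rfl
  have hc := Th_run m (2 ^ m - 1) (by omega)
  have hd := Th_run m (2 ^ m + 1) (by omega)
  rw [Nat.cast_sub hmN] at hc
  push_cast at ha hb hc hd
  rw [← hs, ← hw] at ha hb hc hd
  have hTa : ∀ z : Pt, ThP z = Th (s + 2 ^ m) → Sz z ≤ w := by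
    intro z hz
    rcases z.cases' with rfl | rfl | ⟨u, v, -, rfl⟩
    · exact hw0.le
    · exact hw0.le
    · rw [Sz_pt]
      rw [ThP_pt] at hz
      have h1 : u < s + (2 ^ m + 1) := by
        by_contra hcon
        push Not at hcon
        have := Th_mono hcon
        linarith
      have h2 : s + (2 ^ m - 1) < u := by
        by_contra hcon
        push Not at hcon
        have := Th_mono hcon
        linarith
      have h3 : ⌊u⌋ < (2 * 2 ^ m - 1 + (2 ^ m + 1 : ℕ) : ℤ) := by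
        rw [Int.floor_lt]; push_cast; linarith
      have h4 : (2 * 2 ^ m - 1 + (2 ^ m - 1 : ℕ) : ℤ) ≤ ⌊u⌋ := by
        rw [Int.le_floor]; push_cast [Nat.cast_sub hmN]; linarith
      have h5 : ⌊u⌋ = (2 * 2 ^ m - 1 + (2 ^ m - 1 : ℕ) : ℤ) ∨
          ⌊u⌋ = (2 * 2 ^ m - 1 + (2 ^ m : ℕ) : ℤ) := by
        push_cast [Nat.cast_sub hmN] at h3 h4 ⊢
        omega
      rcases h5 with h5 | h5
      · rw [h5, D0_run m _ (by omega)]
      · rw [h5, D0_run m _ (by omega)]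
  refine ⟨{p | ThP p = Th (s + 2 ^ m)}, pt (s + 2 ^ m) 0, pt s 0, pt (s + 2 * 2 ^ m) 0, ?_, ?_, ?_⟩
  · exact ThP_pt _ _
  · intro z hz
    have hz' : ThP z = Th (s + 2 ^ m) := hz
    have h1 := dst_le_ThP z (pt (s + 2 ^ m) 0)
    rw [ThP_pt, hz', sub_self, abs_zero, zero_add] at h1
    have h2 := hTa z hz'
    have h3 := hTa (pt (s + 2 ^ m) 0) (ThP_pt _ _)
    have h4 : dst z (pt (s + 2 ^ m) 0) ≤ 40 * w := by linarith
    have h5 : M * dist z (pt (s + 2 ^ m) 0) ≤ |M| * (40 * w) := by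
      rw [dist_def]
      have := dst_nonneg z (pt (s + 2 ^ m) 0)
      calc M * dst z (pt (s + 2 ^ m) 0) ≤ |M| * dst z (pt (s + 2 ^ m) 0) := by
            gcongr; exact le_abs_self M
        _ ≤ |M| * (40 * w) := by gcongr
    have h6 : |M| * (40 * w) < 2 ^ m * w := by nlinarith
    constructor
    · refine (h5.trans_lt h6).trans_le ?_
      have := ThP_le_dst (pt s 0) (pt (s + 2 ^ m) 0)
      rw [ThP_pt, ThP_pt] at this
      have h7 := neg_abs_le (Th s - Th (s + 2 ^ m))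
      rw [dist_def]
      linarith
    · refine (h5.trans_lt h6).trans_le ?_
      have := ThP_le_dst (pt (s + 2 * 2 ^ m) 0) (pt (s + 2 ^ m) 0)
      rw [ThP_pt, ThP_pt] at this
      have h7 := le_abs_self (Th (s + 2 * 2 ^ m) - Th (s + 2 ^ m))
      rw [dist_def]
      linarith
  · intro C hC h1 h2
    have h3 := hC.intermediate_value h1 h2 continuous_ThP.continuousOn
    have h4 : Th (s + 2 ^ m) ∈ Icc (ThP (pt s 0)) (ThP (pt (s + 2 * 2 ^ m) 0)) := by
      rw [ThP_pt, ThP_pt]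
      constructor <;> nlinarith
    obtain ⟨x, hx, hx'⟩ := h3 h4
    exact ⟨x, hx, hx'⟩

end Pool.MP_0f1fb3_an
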