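import Pool.Agent.Lib.MP_0f1fb3_an.Weight

set_option autoImplicit false

open MeasureTheory Set
open scoped ENNReal NNReal Topology

namespace Pool.MP_0f1fb3_an

/-- The underlying set of the counterexample: the cylinder `ℝ × ℝ/ℤ` with two points added. -/
inductive Pt : Type
  | top : Pt
  | bot : Pt
  | mid (u : ℝ) (v : Ico (0 : ℝ) 1) : Pt

/-- the point with cylinder coordinates `(u, v mod 1)` -/
noncomputable def pt (u v : ℝ) : Pt :=
  Pt.mid u ⟨Int.fract v, Int.fract_nonneg v, Int.fract_lt_one v⟩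

lemma pt_add_int (u v : ℝ) (m : ℤ) : pt u (v + m) = pt u v := by
  unfold pt; congr 2; exact Int.fract_add_intCast v m

lemma pt_fract (u v : ℝ) : pt u (Int.fract v) = pt u v := by
  unfold pt; congr 2; exact Int.fract_fract v

lemma mid_eq_pt (u : ℝ) (v : Ico (0 : ℝ) 1) : Pt.mid u v = pt u v := by
  unfold pt
  congr 1
  exact Subtype.ext (Int.fract_eq_self.2 v.2).symm

lemma Pt.cases' (p : Pt) : p = Pt.top ∨ p = Pt.bot ∨ ∃ u v, v ∈ Ico (0 : ℝ) 1 ∧ p = pt u v := by
  rcases p with _ | _ | ⟨u, v⟩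
  · exact Or.inl rfl
  · exact Or.inr (Or.inl rfl)
  · exact Or.inr (Or.inr ⟨u, v, v.2, mid_eq_pt u v⟩)

/-- functions that are `1`-Lipschitz for the weight `ω` along all coordinate lines -/
structure Adm (β : Pt → ℝ) : Prop where
  hor : ∀ u u' v, u ≤ u' → |β (pt u' v) - β (pt u v)| ≤ ∫ t in u..u', ω t v
  ver : ∀ u v v', v ≤ v' → |β (pt u v') - β (pt u v)| ≤ ∫ t in v..v', ω u t
  top : ∀ u v, |β Pt.top - β (pt u v)| ≤ ∫ t in Ioi u, ω t v
  bot : ∀ u v, |β Pt.bot - β (pt u v)| ≤ ∫ t in Iic u, ω t v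

lemma integral_ω_hor_nonneg {a b : ℝ} (v : ℝ) (h : a ≤ b) : 0 ≤ ∫ t in a..b, ω t v :=
  intervalIntegral.integral_nonneg h fun _ _ => ω_nonneg _ _

lemma integral_ω_ver_nonneg {a b : ℝ} (u : ℝ) (h : a ≤ b) : 0 ≤ ∫ t in a..b, ω u t :=
  intervalIntegral.integral_nonneg h fun _ _ => ω_nonneg _ _

lemma adm_zero : Adm (fun _ => 0) where
  hor u u' v h := by simpa using integral_ω_hor_nonneg v h
  ver u v v' h := by simpa using integral_ω_ver_nonneg u h
  top u v := by simpa using integral_nonneg fun _ => ω_nonneg _ _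
  bot u v := by simpa using integral_nonneg fun _ => ω_nonneg _ _

/-- total length bound -/
noncomputable def Ltot : ℝ := ∫ t : ℝ, Kc ⌊t⌋

lemma setIntegral_ω_le (s : Set ℝ) (v : ℝ) : ∫ t in s, ω t v ≤ Ltot := by
  unfold Ltot
  calc ∫ t in s, ω t v ≤ ∫ t in s, Kc ⌊t⌋ :=
        integral_mono (integrable_ω_left v).integrableOn integrable_Kc.integrableOn
          fun t => ω_le_Kc _ _
    _ ≤ ∫ t : ℝ, Kc ⌊t⌋ :=
        setIntegral_le_integral integrable_Kc (Filter.Eventually.of_forall fun t => (Kc_pos _).le)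

lemma Ltot_nonneg : 0 ≤ Ltot := integral_nonneg fun _ => (Kc_pos _).le

lemma Adm.top_bound {β : Pt → ℝ} (h : Adm β) (p : Pt) : |β Pt.top - β p| ≤ 2 * Ltot := by
  have h1 := h.top 0 0
  have h2 := h.bot 0 0
  have h3 := setIntegral_ω_le (Ioi 0) 0
  have h4 := setIntegral_ω_le (Iic 0) 0
  have h5 := Ltot_nonneg
  rcases p.cases' with rfl | rfl | ⟨u, v, -, rfl⟩
  · simpa using h5
  · calc |β Pt.top - β Pt.bot| = |(β Pt.top - β (pt 0 0)) - (β Pt.bot - β (pt 0 0))| := by
          congr 1; ring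
      _ ≤ |β Pt.top - β (pt 0 0)| + |β Pt.bot - β (pt 0 0)| := abs_sub _ _
      _ ≤ _ := by linarith
  · have h6 := h.top u v
    have h7 := setIntegral_ω_le (Ioi u) v
    linarith

/-- the distance -/
noncomputable def dst (p q : Pt) : ℝ := ⨆ β : {β : Pt → ℝ // Adm β}, |β.1 p - β.1 q|

lemma dst_bdd (p q : Pt) : BddAbove (range fun β : {β : Pt → ℝ // Adm β} => |β.1 p - β.1 q|) := by
  refine ⟨4 * Ltot, ?_⟩
  rintro _ ⟨β, rfl⟩
  have h1 := β.2.top_bound p
  have h2 := β.2.top_bound q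
  calc |β.1 p - β.1 q| = |(β.1 Pt.top - β.1 q) - (β.1 Pt.top - β.1 p)| := by congr 1; ring
    _ ≤ |β.1 Pt.top - β.1 q| + |β.1 Pt.top - β.1 p| := abs_sub _ _
    _ ≤ 4 * Ltot := by linarith

instance : Nonempty {β : Pt → ℝ // Adm β} := ⟨⟨_, adm_zero⟩⟩

lemma le_dst {β : Pt → ℝ} (h : Adm β) (p q : Pt) : |β p - β q| ≤ dst p q :=
  le_ciSup (dst_bdd p q) ⟨β, h⟩

lemma dst_le {p q : Pt} {c : ℝ} (h : ∀ β : Pt → ℝ, Adm β → |β p - β q| ≤ c) : dst p q ≤ c :=
  ciSup_le fun β => h β.1 β.2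

lemma dst_self (p : Pt) : dst p p = 0 := by
  unfold dst; simp

lemma dst_comm (p q : Pt) : dst p q = dst q p := by
  unfold dst; simp_rw [abs_sub_comm]

lemma dst_triangle (p q r : Pt) : dst p r ≤ dst p q + dst q r := by
  apply dst_le
  intro β hβ
  calc |β p - β r| = |(β p - β q) + (β q - β r)| := by congr 1; ring
    _ ≤ |β p - β q| + |β q - β r| := abs_add_le _ _
    _ ≤ _ := add_le_add (le_dst hβ _ _) (le_dst hβ _ _)

lemma dst_nonneg (p q : Pt) : 0 ≤ dst p q := by
  have := le_dst adm_zero p q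
  simpa using this

lemma dst_hor {u u' : ℝ} (v : ℝ) (h : u ≤ u') : dst (pt u v) (pt u' v) ≤ ∫ t in u..u', ω t v :=
  dst_le fun β hβ => by rw [abs_sub_comm]; exact hβ.hor u u' v h

lemma dst_ver (u : ℝ) {v v' : ℝ} (h : v ≤ v') : dst (pt u v) (pt u v') ≤ ∫ t in v..v', ω u t :=
  dst_le fun β hβ => by rw [abs_sub_comm]; exact hβ.ver u v v' h

lemma dst_top (u v : ℝ) : dst Pt.top (pt u v) ≤ ∫ t in Ioi u, ω t v :=
  dst_le fun _ hβ => hβ.top u v

lemma dst_bot (u v : ℝ) : dst Pt.bot (pt u v) ≤ ∫ t in Iic u, ω t v :=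
  dst_le fun _ hβ => hβ.bot u v

/-- upper bound on a segment contained in a bigger one -/
lemma dst_hor_le {a b x x' : ℝ} (v c : ℝ) (hx : x ∈ Icc a b) (hx' : x' ∈ Icc a b)
    (h : ∫ t in a..b, ω t v ≤ c) : dst (pt x v) (pt x' v) ≤ c := by
  wlog hxx : x ≤ x' generalizing x x'
  · rw [dst_comm]; exact this hx' hx (le_of_not_ge hxx)
  refine (dst_hor v hxx).trans (le_trans ?_ h)
  exact intervalIntegral.integral_mono_interval hx.1 hxx hx'.2
    (Filter.Eventually.of_forall fun t => ω_nonneg _ _) (ii_ω_left _ _ _)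

lemma dst_ver_le {a b y y' : ℝ} (u c : ℝ) (hy : y ∈ Icc a b) (hy' : y' ∈ Icc a b)
    (h : ∫ t in a..b, ω u t ≤ c) : dst (pt u y) (pt u y') ≤ c := by
  wlog hyy : y ≤ y' generalizing y y'
  · rw [dst_comm]; exact this hy' hy (le_of_not_ge hyy)
  refine (dst_ver u hyy).trans (le_trans ?_ h)
  exact intervalIntegral.integral_mono_interval hy.1 hyy hy'.2
    (Filter.Eventually.of_forall fun t => ω_nonneg _ _) (ii_ω_right _ _ _)

lemma dst_le_abs_hor (u u' v : ℝ) : dst (pt u v) (pt u' v) ≤ |u - u'| := by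
  wlog h : u ≤ u' generalizing u u'
  · rw [dst_comm, abs_sub_comm]; exact this _ _ (le_of_not_ge h)
  refine (dst_hor v h).trans ?_
  have : ∫ t in u..u', ω t v ≤ ∫ _ in u..u', (1 : ℝ) :=
    intervalIntegral.integral_mono_on h (ii_ω_left _ _ _) (by simp) fun t _ => ω_le_one _ _
  refine this.trans ?_
  rw [intervalIntegral.integral_const, smul_eq_mul, mul_one, abs_sub_comm]
  exact le_abs_self _

lemma dst_le_abs_ver (u v v' : ℝ) : dst (pt u v) (pt u v') ≤ |v - v'| := by
  wlog h : v ≤ v' generalizing v v'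
  · rw [dst_comm, abs_sub_comm]; exact this _ _ (le_of_not_ge h)
  refine (dst_ver u h).trans ?_
  have : ∫ t in v..v', ω u t ≤ ∫ _ in v..v', (1 : ℝ) :=
    intervalIntegral.integral_mono_on h (ii_ω_right _ _ _) (by simp) fun t _ => ω_le_one _ _
  refine this.trans ?_
  rw [intervalIntegral.integral_const, smul_eq_mul, mul_one, abs_sub_comm]
  exact le_abs_self _

lemma dst_le_abs (u v u' v' : ℝ) : dst (pt u v) (pt u' v') ≤ |u - u'| + |v - v'| :=
  (dst_triangle _ (pt u' v) _).trans (add_le_add (dst_le_abs_hor _ _ _) (dst_le_abs_ver _ _ _))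

/-! ## bumps -/

/-- a bump function given by coordinate profiles -/
noncomputable def bump (g h : ℝ → ℝ) (c : ℝ) : Pt → ℝ
  | Pt.top => 0
  | Pt.bot => 0
  | Pt.mid u v => min (g u) (h (c + Int.fract ((v : ℝ) - c)))

lemma bump_pt (g h : ℝ → ℝ) (c u v : ℝ) :
    bump g h c (pt u v) = min (g u) (h (c + Int.fract (v - c))) := by
  show min (g u) (h (c + Int.fract (Int.fract v - c))) = _
  have : Int.fract v - c = (v - c) - (⌊v⌋ : ℤ) := by rw [← Int.self_sub_floor]; ring
  rw [this, Int.fract_sub_intCast]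

lemma abs_min_sub_min_left (a b c : ℝ) : |min a c - min b c| ≤ |a - b| := by
  have := abs_min_sub_min_le_max a c b c
  simpa using this

lemma abs_min_sub_min_right (a b c : ℝ) : |min c a - min c b| ≤ |a - b| := by
  have := abs_min_sub_min_le_max c a c b
  simpa using this

lemma periodic_window {h : ℝ → ℝ} {c u : ℝ} (h0 : ∀ v, 0 ≤ h v) (hc : h c = 0)
    (hc1 : h (c + 1) = 0)
    (hh : ∀ v v', c ≤ v → v ≤ v' → v' ≤ c + 1 → |h v' - h v| ≤ ∫ t in v..v', ω u t)
    {v v' : ℝ} (hv : v ≤ v') :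
    |h (c + Int.fract (v' - c)) - h (c + Int.fract (v - c))| ≤ ∫ t in v..v', ω u t := by
  -- translation by integers
  have key : ∀ (m : ℤ) (x y : ℝ), c + m ≤ x → x ≤ y → y ≤ c + m + 1 →
      |h (y - m) - h (x - m)| ≤ ∫ t in x..y, ω u t := by
    intro m x y hx hxy hy
    have h1 := hh (x - m) (y - m) (by linarith) (by linarith) (by linarith)
    refine h1.trans (le_of_eq ?_)
    have h2 : ∫ t in x..y, ω u t = ∫ t in x..y, (fun s => ω u s) (t - m) := by
      congr 1
      ext t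
      have := ω_add_int u (t - m) m
      simp only [sub_add_cancel] at this
      exact this
    rw [h2, intervalIntegral.integral_comp_sub_right (fun s => ω u s)]
  have e : ∀ x : ℝ, c + Int.fract (x - c) = x - (⌊x - c⌋ : ℤ) := by
    intro x; rw [← Int.self_sub_floor]; ring
  have hn1 := Int.floor_le (v - c)
  have hn2 := Int.lt_floor_add_one (v - c)
  have hn3 := Int.floor_le (v' - c)
  have hn4 := Int.lt_floor_add_one (v' - c)
  rw [e, e]
  rcases eq_or_lt_of_le (Int.floor_le_floor (sub_le_sub_right hv c)) with hf | hf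
  · rw [← hf]
    exact key _ v v' (by linarith) hv (by rw [hf]; linarith)
  · have hf' : ((⌊v - c⌋ : ℤ) : ℝ) + 1 ≤ (⌊v' - c⌋ : ℤ) := by exact_mod_cast hf
    have k1 := key ⌊v - c⌋ v (c + ⌊v - c⌋ + 1) (by linarith) (by linarith) le_rfl
    have k2 := key ⌊v' - c⌋ (c + ⌊v' - c⌋) v' le_rfl (by linarith) (by linarith)
    have e1 : c + (⌊v - c⌋ : ℝ) + 1 - (⌊v - c⌋ : ℝ) = c + 1 := by ring
    have e2 : c + (⌊v' - c⌋ : ℝ) - (⌊v' - c⌋ : ℝ) = c := by ring
    rw [e1, hc1, zero_sub, abs_neg, abs_of_nonneg (h0 _)] at k1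
    rw [e2, hc, sub_zero, abs_of_nonneg (h0 _)] at k2
    have m1 : ∫ t in v..(c + ⌊v - c⌋ + 1), ω u t ≤ ∫ t in v..v', ω u t :=
      intervalIntegral.integral_mono_interval le_rfl (by linarith) (by linarith)
        (Filter.Eventually.of_forall fun t => ω_nonneg _ _) (ii_ω_right _ _ _)
    have m2 : ∫ t in (c + ⌊v' - c⌋)..v', ω u t ≤ ∫ t in v..v', ω u t :=
      intervalIntegral.integral_mono_interval (by linarith) (by linarith) le_rfl
        (Filter.Eventually.of_forall fun t => ω_nonneg _ _) (ii_ω_right _ _ _)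
    rw [abs_le]
    constructor
    · have := h0 (v' - (⌊v' - c⌋ : ℤ))
      linarith
    · have := h0 (v - (⌊v - c⌋ : ℤ))
      linarith

lemma adm_bump {g h : ℝ → ℝ} {c : ℝ} (g0 : ∀ u, 0 ≤ g u) (h0 : ∀ v, 0 ≤ h v)
    (hc : h c = 0) (hc1 : h (c + 1) = 0)
    (gfar : ∀ u, ∃ u', u ≤ u' ∧ g u' = 0) (gfar' : ∀ u, ∃ u', u' ≤ u ∧ g u' = 0)
    (hg : ∀ u u' v, u ≤ u' → c ≤ v → v < c + 1 → h v ≠ 0 → |g u' - g u| ≤ ∫ t in u..u', ω t v)
    (hh : ∀ u v v', g u ≠ 0 → c ≤ v → v ≤ v' → v' ≤ c + 1 →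
      |h v' - h v| ≤ ∫ t in v..v', ω u t) :
    Adm (bump g h c) := by
  have e : ∀ x : ℝ, c + Int.fract (x - c) = x + ((-⌊x - c⌋ : ℤ) : ℝ) := by
    intro x; push_cast; rw [← Int.self_sub_floor]; ring
  have hωp : ∀ t v, ω t (c + Int.fract (v - c)) = ω t v := by
    intro t v; rw [e, ω_add_int]
  have hr1 : ∀ v, c ≤ c + Int.fract (v - c) := fun v => by
    have := Int.fract_nonneg (v - c); linarith
  have hr2 : ∀ v, c + Int.fract (v - c) < c + 1 := fun v => by
    have := Int.fract_lt_one (v - c); linarith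
  refine ⟨?_, ?_, ?_, ?_⟩
  · intro u u' v huu
    rw [bump_pt, bump_pt]
    by_cases hz : h (c + Int.fract (v - c)) = 0
    · rw [hz, min_eq_right (g0 _), min_eq_right (g0 _), sub_zero, abs_zero]
      exact integral_ω_hor_nonneg v huu
    · refine (abs_min_sub_min_left _ _ _).trans ?_
      have := hg u u' _ huu (hr1 v) (hr2 v) hz
      simpa only [hωp] using this
  · intro u v v' hvv
    rw [bump_pt, bump_pt]
    by_cases hz : g u = 0
    · rw [hz, min_eq_left (h0 _), min_eq_left (h0 _), sub_zero, abs_zero]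
      exact integral_ω_ver_nonneg u hvv
    · refine (abs_min_sub_min_right _ _ _).trans ?_
      exact periodic_window h0 hc hc1 (fun v v' => hh u v v' hz) hvv
  · intro u v
    rw [bump_pt]
    show |0 - _| ≤ _
    rw [zero_sub, abs_neg]
    by_cases hz : h (c + Int.fract (v - c)) = 0
    · rw [hz, min_eq_right (g0 _), abs_zero]
      exact integral_nonneg fun _ => ω_nonneg _ _
    · obtain ⟨u', hu', hgu'⟩ := gfar u
      have h1 := hg u u' _ hu' (hr1 v) (hr2 v) hz
      simp only [hωp] at h1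
      rw [hgu', zero_sub, abs_neg, abs_of_nonneg (g0 u)] at h1
      rw [abs_of_nonneg (le_min (g0 _) (h0 _))]
      refine (min_le_left _ _).trans (h1.trans ?_)
      rw [intervalIntegral.integral_of_le hu']
      exact setIntegral_mono_set (integrable_ω_left v).integrableOn
        (Filter.Eventually.of_forall fun _ => ω_nonneg _ _) (Ioc_subset_Ioi_self.eventuallyLE)
  · intro u v
    rw [bump_pt]
    show |0 - _| ≤ _
    rw [zero_sub, abs_neg]
    by_cases hz : h (c + Int.fract (v - c)) = 0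
    · rw [hz, min_eq_right (g0 _), abs_zero]
      exact integral_nonneg fun _ => ω_nonneg _ _
    · obtain ⟨u', hu', hgu'⟩ := gfar' u
      have h1 := hg u' u _ hu' (hr1 v) (hr2 v) hz
      simp only [hωp] at h1
      rw [hgu', sub_zero, abs_of_nonneg (g0 u)] at h1
      rw [abs_of_nonneg (le_min (g0 _) (h0 _))]
      refine (min_le_left _ _).trans (h1.trans ?_)
      rw [intervalIntegral.integral_of_le hu']
      exact setIntegral_mono_set (integrable_ω_left v).integrableOn
        (Filter.Eventually.of_forall fun _ => ω_nonneg _ _)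
        ((Ioc_subset_Iic_self : Ioc u' u ⊆ Iic u).eventuallyLE)

/-! ## the global potential -/

/-- minimal weight of a vertical line -/
noncomputable def θ (t : ℝ) : ℝ := Kc ⌊t⌋ * χ (κ ⌊t⌋) t

lemma θ_nonneg (t : ℝ) : 0 ≤ θ t := mul_nonneg (Kc_pos _).le (χ_nonneg _ _)

lemma θ_le_ω (t v : ℝ) : θ t ≤ ω t v := by
  have := chi_le_ω_hor 0 (κ ⌊t⌋) t v (by rw [fl_zero]; rfl)
  simpa [θ] using this

lemma measurable_θ : Measurable θ := by
  have h : Measurable fun p : ℤ × ℝ => χ (κ p.1) p.2 := by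
    apply measurable_from_prod_countable_right
    intro j
    exact measurable_χ (κ j)
  exact measurable_Kc.mul (h.comp (Int.measurable_floor.prodMk measurable_id))

lemma integrable_θ : Integrable θ :=
  (integrable_ω_left 0).mono measurable_θ.aestronglyMeasurable
    (Filter.Eventually.of_forall fun t => by
      rw [Real.norm_of_nonneg (θ_nonneg _), Real.norm_of_nonneg (ω_nonneg _ _)]
      exact θ_le_ω t 0)

/-- the global potential as a function of `u` -/
noncomputable def Th (u : ℝ) : ℝ := ∫ t in (0 : ℝ)..u, θ t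

lemma Th_sub (u u' : ℝ) : Th u' - Th u = ∫ t in u..u', θ t := by
  unfold Th
  rw [intervalIntegral.integral_interval_sub_left] <;> exact integrable_θ.intervalIntegrable

lemma Th_mono : Monotone Th := by
  intro u u' h
  have := Th_sub u u'
  have h2 : 0 ≤ ∫ t in u..u', θ t := intervalIntegral.integral_nonneg h fun _ _ => θ_nonneg _
  linarith

/-- the global potential -/
noncomputable def ThP : Pt → ℝ
  | Pt.top => ∫ t in Ioi 0, θ t
  | Pt.bot => -∫ t in Iic 0, θ t
  | Pt.mid u _ => Th u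

lemma ThP_pt (u v : ℝ) : ThP (pt u v) = Th u := rfl

lemma ThP_top_sub (u v : ℝ) : ThP Pt.top - ThP (pt u v) = ∫ t in Ioi u, θ t := by
  show (∫ t in Ioi 0, θ t) - Th u = _
  unfold Th
  rw [sub_eq_iff_eq_add, add_comm]
  exact (intervalIntegral.integral_interval_add_Ioi integrable_θ.integrableOn
    integrable_θ.integrableOn).symm

lemma ThP_sub_bot (u v : ℝ) : ThP (pt u v) - ThP Pt.bot = ∫ t in Iic u, θ t := by
  show Th u - (-∫ t in Iic 0, θ t) = _
  unfold Th
  have := intervalIntegral.integral_Iic_sub_Iic (f := θ) (μ := volume) (a := 0) (b := u)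
    integrable_θ.integrableOn integrable_θ.integrableOn
  linarith

lemma adm_ThP : Adm ThP := by
  refine ⟨?_, ?_, ?_, ?_⟩
  · intro u u' v h
    rw [ThP_pt, ThP_pt, Th_sub, abs_of_nonneg
      (intervalIntegral.integral_nonneg h fun _ _ => θ_nonneg _)]
    exact intervalIntegral.integral_mono_on h integrable_θ.intervalIntegrable (ii_ω_left _ _ _)
      fun t _ => θ_le_ω _ _
  · intro u v v' h
    rw [ThP_pt, ThP_pt, sub_self, abs_zero]
    exact integral_ω_ver_nonneg u h
  · intro u v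
    rw [ThP_top_sub, abs_of_nonneg (integral_nonneg fun _ => θ_nonneg _)]
    exact integral_mono integrable_θ.integrableOn (integrable_ω_left v).integrableOn
      fun t => θ_le_ω _ _
  · intro u v
    rw [abs_sub_comm, ThP_sub_bot, abs_of_nonneg (integral_nonneg fun _ => θ_nonneg _)]
    exact integral_mono integrable_θ.integrableOn (integrable_ω_left v).integrableOn
      fun t => θ_le_ω _ _

lemma ThP_le_dst (p q : Pt) : |ThP p - ThP q| ≤ dst p q := le_dst adm_ThP p q

/-- `Θ`-length of a column -/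
noncomputable def D0 (j : ℤ) : ℝ := (1 / 36) ^ κ j

lemma D0_eq (j b : ℤ) : D 0 j b = D0 j := by
  unfold D D0 Kc
  simp only [R2_zero, pow_zero, Int.ediv_one, div_one]
  rw [← mul_pow]; norm_num

lemma Th_column (j : ℤ) : Th (j + 1) - Th j = D0 j := by
  rw [Th_sub]
  have h1 : ∫ t in (j : ℝ)..(j + 1), θ t = ∫ t in (j : ℝ)..(j + 1), Kc j * χ (κ j) t := by
    apply intervalIntegral.integral_congr_ae
    have : ∀ᵐ t : ℝ, t ≠ (j : ℝ) + 1 := by
      simp [ae_iff, measure_singleton]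
    filter_upwards [this] with t ht h
    rw [uIoc_of_le (by linarith)] at h
    have hf : ⌊t⌋ = j := by
      rw [Int.floor_eq_iff]
      exact ⟨h.1.le, lt_of_le_of_ne h.2 ht⟩
    unfold θ; rw [hf]
  rw [h1, intervalIntegral.integral_const_mul]
  have := integral_χ (κ j) j 1
  rw [Nat.cast_one, one_mul] at this
  rw [this]
  unfold Kc D0
  rw [← mul_pow]; norm_num

end Pool.MP_0f1fb3_an
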