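import Pool.Agent.Lib.MP_0f1fb3_an.Top

/-! Cylindrical coordinates on the round sphere; the model `Pt` is homeomorphic to the sphere. -/

set_option autoImplicit false

open MeasureTheory Set
open scoped ENNReal NNReal Topology

namespace Pool.MP_0f1fb3_an

/-- cylindrical coordinates on the sphere -/
noncomputable def psiVec (x y : ℝ) : EuclideanSpace ℝ (Fin 3) :=
  !₂[Real.cos (2 * Real.pi * y) / √(1 + x ^ 2), Real.sin (2 * Real.pi * y) / √(1 + x ^ 2),
    x / √(1 + x ^ 2)]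

theorem psiVec_mem (x y : ℝ) : psiVec x y ∈ Metric.sphere (0 : EuclideanSpace ℝ (Fin 3)) 1 := by
  have h : 0 < 1 + x ^ 2 := by positivity
  have hs : √(1 + x ^ 2) ≠ 0 := (Real.sqrt_pos.2 h).ne'
  have hsq : √(1 + x ^ 2) ^ 2 = 1 + x ^ 2 := Real.sq_sqrt h.le
  rw [mem_sphere_zero_iff_norm, EuclideanSpace.norm_eq, Real.sqrt_eq_one]
  simp only [psiVec, Fin.sum_univ_three, Real.norm_eq_abs, sq_abs]
  simp
  field_simp
  rw [hsq]
  nlinarith [Real.sin_sq_add_cos_sq (2 * Real.pi * y)]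

noncomputable def Psi (x y : ℝ) : S2 := ⟨psiVec x y, psiVec_mem x y⟩

noncomputable def Np : S2 := ⟨!₂[0, 0, 1], by
  rw [mem_sphere_zero_iff_norm, EuclideanSpace.norm_eq, Real.sqrt_eq_one]
  simp [Fin.sum_univ_three]⟩

noncomputable def Sp : S2 := ⟨!₂[0, 0, -1], by
  rw [mem_sphere_zero_iff_norm, EuclideanSpace.norm_eq, Real.sqrt_eq_one]
  simp [Fin.sum_univ_three]⟩

/-- height on the sphere -/
noncomputable def hgt (P : S2) : ℝ := (P : EuclideanSpace ℝ (Fin 3)) 2

/-! ### the function `x / √(1 + x ^ 2)` -/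

theorem sph_hx (x : ℝ) : x / √(1 + x ^ 2) = Real.sin (Real.arctan x) := (Real.sin_arctan x).symm

theorem sph_strictMono : StrictMono fun x : ℝ => x / √(1 + x ^ 2) := by
  intro a b hab
  simp only [sph_hx]
  apply Real.strictMonoOn_sin _ _ (Real.arctan_strictMono hab)
  · exact ⟨(Real.neg_pi_div_two_lt_arctan a).le, (Real.arctan_lt_pi_div_two a).le⟩
  · exact ⟨(Real.neg_pi_div_two_lt_arctan b).le, (Real.arctan_lt_pi_div_two b).le⟩

theorem sph_tendsto_top : Filter.Tendsto (fun x : ℝ => x / √(1 + x ^ 2)) Filter.atTop (𝓝 1) := by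
  simp only [sph_hx]
  rw [← Real.sin_pi_div_two]
  exact (Real.continuous_sin.tendsto _).comp
    (Real.tendsto_arctan_atTop.mono_right nhdsWithin_le_nhds)

theorem sph_tendsto_bot : Filter.Tendsto (fun x : ℝ => x / √(1 + x ^ 2)) Filter.atBot (𝓝 (-1)) := by
  simp only [sph_hx]
  have h : (-1 : ℝ) = Real.sin (-(Real.pi / 2)) := by rw [Real.sin_neg, Real.sin_pi_div_two]
  rw [h]
  exact (Real.continuous_sin.tendsto _).comp
    (Real.tendsto_arctan_atBot.mono_right nhdsWithin_le_nhds)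

theorem sph_lt_one (x : ℝ) : x / √(1 + x ^ 2) < 1 := by
  rw [div_lt_one (by positivity)]
  apply Real.lt_sqrt_of_sq_lt
  linarith

theorem sph_neg_one_lt (x : ℝ) : -1 < x / √(1 + x ^ 2) := by
  have h := sph_lt_one (-x)
  rw [neg_sq, neg_div] at h
  linarith

/-! ### coordinates -/

theorem Psi_0 (x y : ℝ) : (Psi x y : EuclideanSpace ℝ (Fin 3)) 0 =
    Real.cos (2 * Real.pi * y) / √(1 + x ^ 2) := rfl

theorem Psi_1 (x y : ℝ) : (Psi x y : EuclideanSpace ℝ (Fin 3)) 1 =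
    Real.sin (2 * Real.pi * y) / √(1 + x ^ 2) := rfl

theorem Psi_2 (x y : ℝ) : (Psi x y : EuclideanSpace ℝ (Fin 3)) 2 = x / √(1 + x ^ 2) := rfl

theorem hgt_Psi (x y : ℝ) : hgt (Psi x y) = x / √(1 + x ^ 2) := rfl

theorem hgt_Np : hgt Np = 1 := rfl

theorem hgt_Sp : hgt Sp = -1 := rfl

theorem continuous_hgt : Continuous hgt := by
  unfold hgt
  fun_prop

theorem S2_ext {P Q : S2} (h0 : (P : EuclideanSpace ℝ (Fin 3)) 0 = (Q : EuclideanSpace ℝ (Fin 3)) 0)
    (h1 : (P : EuclideanSpace ℝ (Fin 3)) 1 = (Q : EuclideanSpace ℝ (Fin 3)) 1)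
    (h2 : (P : EuclideanSpace ℝ (Fin 3)) 2 = (Q : EuclideanSpace ℝ (Fin 3)) 2) : P = Q := by
  apply Subtype.ext
  ext i
  fin_cases i
  · exact h0
  · exact h1
  · exact h2

theorem S2_sq (P : S2) : (P : EuclideanSpace ℝ (Fin 3)) 0 ^ 2 + (P : EuclideanSpace ℝ (Fin 3)) 1 ^ 2 +
    (P : EuclideanSpace ℝ (Fin 3)) 2 ^ 2 = 1 := by
  have h := P.2
  rw [mem_sphere_zero_iff_norm, EuclideanSpace.norm_eq, Real.sqrt_eq_one] at h
  simpa [Fin.sum_univ_three] using h

theorem Psi_add_int (x y : ℝ) (n : ℤ) : Psi x (y + n) = Psi x y := by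
  have h : 2 * Real.pi * (y + n) = 2 * Real.pi * y + n * (2 * Real.pi) := by ring
  apply S2_ext
  · rw [Psi_0, Psi_0, h, Real.cos_add_int_mul_two_pi]
  · rw [Psi_1, Psi_1, h, Real.sin_add_int_mul_two_pi]
  · rw [Psi_2, Psi_2]

theorem Psi_eq_iff {x y x' y' : ℝ} : Psi x y = Psi x' y' ↔ x = x' ∧ ∃ n : ℤ, y' = y + n := by
  constructor
  · intro h
    have hx : x = x' := sph_strictMono.injective (by
      have := congrArg hgt h
      rwa [hgt_Psi, hgt_Psi] at this)
    subst hx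
    refine ⟨rfl, ?_⟩
    have hs : √(1 + x ^ 2) ≠ 0 := by positivity
    have h0 : Real.cos (2 * Real.pi * y') = Real.cos (2 * Real.pi * y) := by
      have := congrArg (fun P : S2 => (P : EuclideanSpace ℝ (Fin 3)) 0) h
      simp only [Psi_0] at this
      exact ((div_left_inj' hs).1 this).symm
    have h1 : Real.sin (2 * Real.pi * y') = Real.sin (2 * Real.pi * y) := by
      have := congrArg (fun P : S2 => (P : EuclideanSpace ℝ (Fin 3)) 1) h
      simp only [Psi_1] at this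
      exact ((div_left_inj' hs).1 this).symm
    have h2 := Real.Angle.cos_sin_inj h0 h1
    obtain ⟨k, hk⟩ := Real.Angle.angle_eq_iff_two_pi_dvd_sub.1 h2
    refine ⟨k, ?_⟩
    have hpi := Real.pi_pos
    have h3 : 2 * Real.pi * (y' - y - k) = 0 := by linarith
    have h4 : y' - y - k = 0 := by
      rcases mul_eq_zero.1 h3 with h | h
      · exfalso; linarith
      · exact h
    linarith
  · rintro ⟨rfl, n, rfl⟩
    exact (Psi_add_int x y n).symm

theorem Psi_ne_Np (x y : ℝ) : Psi x y ≠ Np := by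
  intro h
  have := congrArg hgt h
  rw [hgt_Psi, hgt_Np] at this
  exact (sph_lt_one x).ne this

theorem Psi_ne_Sp (x y : ℝ) : Psi x y ≠ Sp := by
  intro h
  have := congrArg hgt h
  rw [hgt_Psi, hgt_Sp] at this
  exact (sph_neg_one_lt x).ne' this

theorem Np_ne_Sp : Np ≠ Sp := by
  intro h
  have := congrArg hgt h
  rw [hgt_Np, hgt_Sp] at this
  norm_num at this

/-! ### the inverse -/

/-- distance to the axis -/
noncomputable def axd (P : S2) : ℝ :=
  √((P : EuclideanSpace ℝ (Fin 3)) 0 ^ 2 + (P : EuclideanSpace ℝ (Fin 3)) 1 ^ 2)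

/-- the projection to the equatorial plane -/
noncomputable def eqz (P : S2) : ℂ :=
  ⟨(P : EuclideanSpace ℝ (Fin 3)) 0, (P : EuclideanSpace ℝ (Fin 3)) 1⟩

theorem norm_eqz (P : S2) : ‖eqz P‖ = axd P := by
  rw [Complex.norm_eq_sqrt_sq_add_sq]
  rfl

theorem continuous_eqz : Continuous eqz := by
  have h : eqz = fun P : S2 => (((P : EuclideanSpace ℝ (Fin 3)) 0 : ℝ) : ℂ) +
      (((P : EuclideanSpace ℝ (Fin 3)) 1 : ℝ) : ℂ) * Complex.I := by
    funext P
    apply Complex.ext <;> simp [eqz]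
  rw [h]
  fun_prop

theorem continuous_axd : Continuous axd := by
  have h : axd = fun P => ‖eqz P‖ := funext fun P => (norm_eqz P).symm
  rw [h]
  exact continuous_eqz.norm

theorem axd_sq (P : S2) : axd P ^ 2 = 1 - hgt P ^ 2 := by
  unfold axd hgt
  rw [Real.sq_sqrt (by positivity)]
  linarith [S2_sq P]

/-- the main computation: a point off the axis is determined by its height and its angle -/
theorem eq_Psi_of {P : S2} (hP : 0 < axd P) {y : ℝ}
    (hy : Complex.exp (2 * Real.pi * y * Complex.I) = eqz P / axd P) :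
    P = Psi (hgt P / axd P) y := by
  have hs : √(1 + (hgt P / axd P) ^ 2) = 1 / axd P := by
    have h1 : 1 + (hgt P / axd P) ^ 2 = (1 / axd P) ^ 2 := by
      field_simp
      linarith [axd_sq P]
    rw [h1, Real.sqrt_sq (by positivity)]
  have hre : Real.cos (2 * Real.pi * y) = (P : EuclideanSpace ℝ (Fin 3)) 0 / axd P := by
    have h2 := congrArg Complex.re hy
    rw [show (2 * Real.pi * y * Complex.I : ℂ) = ((2 * Real.pi * y : ℝ) : ℂ) * Complex.I by
      push_cast; ring, Complex.exp_ofReal_mul_I_re] at h2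
    rw [h2, Complex.div_ofReal_re]
    rfl
  have him : Real.sin (2 * Real.pi * y) = (P : EuclideanSpace ℝ (Fin 3)) 1 / axd P := by
    have h2 := congrArg Complex.im hy
    rw [show (2 * Real.pi * y * Complex.I : ℂ) = ((2 * Real.pi * y : ℝ) : ℂ) * Complex.I by
      push_cast; ring, Complex.exp_ofReal_mul_I_im] at h2
    rw [h2, Complex.div_ofReal_im]
    rfl
  apply S2_ext
  · rw [Psi_0, hs, hre]; field_simp
  · rw [Psi_1, hs, him]; field_simp
  · rw [Psi_2, hs]; unfold hgt; field_simp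

theorem axd_pos {P : S2} (h1 : P ≠ Np) (h2 : P ≠ Sp) : 0 < axd P := by
  have h0 : 0 ≤ axd P := Real.sqrt_nonneg _
  rcases h0.lt_or_eq with h | h
  · exact h
  exfalso
  have h3 : (P : EuclideanSpace ℝ (Fin 3)) 0 ^ 2 + (P : EuclideanSpace ℝ (Fin 3)) 1 ^ 2 = 0 := by
    have h4 : (P : EuclideanSpace ℝ (Fin 3)) 0 ^ 2 + (P : EuclideanSpace ℝ (Fin 3)) 1 ^ 2 ≤ 0 :=
      Real.sqrt_eq_zero'.1 h.symm
    have : 0 ≤ (P : EuclideanSpace ℝ (Fin 3)) 0 ^ 2 + (P : EuclideanSpace ℝ (Fin 3)) 1 ^ 2 := by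
      positivity
    linarith
  have h5 : (P : EuclideanSpace ℝ (Fin 3)) 0 = 0 := by nlinarith [sq_nonneg ((P : EuclideanSpace ℝ (Fin 3)) 1)]
  have h6 : (P : EuclideanSpace ℝ (Fin 3)) 1 = 0 := by nlinarith [sq_nonneg ((P : EuclideanSpace ℝ (Fin 3)) 0)]
  have h7 := S2_sq P
  rw [h5, h6] at h7
  have h8 : ((P : EuclideanSpace ℝ (Fin 3)) 2 - 1) * ((P : EuclideanSpace ℝ (Fin 3)) 2 + 1) = 0 := by
    linarith
  rcases mul_eq_zero.1 h8 with h | h
  · apply h1
    apply S2_ext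
    · rw [h5]; rfl
    · rw [h6]; rfl
    · rw [sub_eq_zero.1 h]; rfl
  · apply h2
    apply S2_ext
    · rw [h5]; rfl
    · rw [h6]; rfl
    · rw [eq_neg_of_add_eq_zero_left h]; rfl

theorem Psi_cases (P : S2) : P = Np ∨ P = Sp ∨ ∃ x y, y ∈ Ico (0 : ℝ) 1 ∧ P = Psi x y := by
  by_cases h1 : P = Np
  · exact Or.inl h1
  by_cases h2 : P = Sp
  · exact Or.inr (Or.inl h2)
  have hp := axd_pos h1 h2
  refine Or.inr (Or.inr ⟨hgt P / axd P, Int.fract (Complex.arg (eqz P) / (2 * Real.pi)),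
    ⟨Int.fract_nonneg _, Int.fract_lt_one _⟩, ?_⟩)
  have hz : eqz P ≠ 0 := by
    rw [← norm_pos_iff, norm_eqz]; exact hp
  have h3 : Complex.exp (2 * Real.pi * (Complex.arg (eqz P) / (2 * Real.pi) : ℝ) * Complex.I) =
      eqz P / axd P := by
    have h4 : (2 * Real.pi * (Complex.arg (eqz P) / (2 * Real.pi) : ℝ) * Complex.I : ℂ) =
        Complex.arg (eqz P) * Complex.I := by
      push_cast
      field_simp
    rw [h4, eq_div_iff (by exact_mod_cast hp.ne'), mul_comm, ← norm_eqz]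
    exact Complex.norm_mul_exp_arg_mul_I _
  conv_lhs => rw [eq_Psi_of hp h3]
  conv_lhs => rw [← Int.fract_add_floor (Complex.arg (eqz P) / (2 * Real.pi))]
  rw [Psi_add_int]

theorem continuous_Psi : Continuous fun p : ℝ × ℝ => Psi p.1 p.2 := by
  apply Continuous.subtype_mk
  unfold psiVec
  apply (PiLp.continuous_toLp 2 _).comp
  apply continuous_pi
  intro i
  have hs : ∀ p : ℝ × ℝ, √(1 + p.1 ^ 2) ≠ 0 := fun p => by positivity
  fin_cases i
  · exact Continuous.div (by fun_prop) (by fun_prop) hs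
  · exact Continuous.div (by fun_prop) (by fun_prop) hs
  · exact Continuous.div (by fun_prop) (by fun_prop) hs

theorem axd_Psi (x y : ℝ) : axd (Psi x y) = 1 / √(1 + x ^ 2) := by
  have hs : 0 < √(1 + x ^ 2) := by positivity
  have h : axd (Psi x y) ^ 2 = (1 / √(1 + x ^ 2)) ^ 2 := by
    rw [axd_sq, hgt_Psi, div_pow, div_pow, Real.sq_sqrt (by positivity)]
    field_simp
    ring
  exact (sq_eq_sq₀ (Real.sqrt_nonneg _) (by positivity)).1 h

theorem eqz_Psi (x y : ℝ) : eqz (Psi x y) =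
    Complex.exp (2 * Real.pi * y * Complex.I) / √(1 + x ^ 2) := by
  rw [show (2 * Real.pi * y * Complex.I : ℂ) = ((2 * Real.pi * y : ℝ) : ℂ) * Complex.I by
      push_cast; ring]
  apply Complex.ext
  · rw [Complex.div_ofReal_re, Complex.exp_ofReal_mul_I_re]; rfl
  · rw [Complex.div_ofReal_im, Complex.exp_ofReal_mul_I_im]; rfl

theorem isOpenMap_Psi : IsOpenMap fun p : ℝ × ℝ => Psi p.1 p.2 := by
  apply IsOpenMap.of_nhds_le
  rintro ⟨x0, y0⟩
  -- a local inverse
  set w : S2 → ℂ := fun P => eqz P * Complex.exp (-(2 * Real.pi * y0 * Complex.I)) with hw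
  set g : S2 → ℝ × ℝ := fun P => (hgt P / axd P, y0 + Complex.arg (w P) / (2 * Real.pi)) with hg
  have hs : 0 < √(1 + x0 ^ 2) := by positivity
  have hax : axd (Psi x0 y0) ≠ 0 := by rw [axd_Psi]; positivity
  have hw0 : w (Psi x0 y0) = ((1 / √(1 + x0 ^ 2) : ℝ) : ℂ) := by
    rw [hw]
    simp only [eqz_Psi]
    rw [div_mul_eq_mul_div, ← Complex.exp_add, add_neg_cancel, Complex.exp_zero]
    push_cast
    rfl
  have hg0 : g (Psi x0 y0) = (x0, y0) := by
    rw [hg]
    simp only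
    rw [hw0, Complex.arg_ofReal_of_nonneg (by positivity), hgt_Psi, axd_Psi]
    simp only [zero_div, add_zero, Prod.mk.injEq, and_true]
    field_simp
  have hwc : Continuous w := continuous_eqz.mul continuous_const
  have hgc : ContinuousAt g (Psi x0 y0) := by
    apply ContinuousAt.prodMk
    · exact continuous_hgt.continuousAt.div continuous_axd.continuousAt hax
    · apply ContinuousAt.add continuousAt_const
      apply ContinuousAt.div_const
      refine ContinuousAt.comp (g := Complex.arg) (f := w) ?_ hwc.continuousAt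
      apply Complex.continuousAt_arg
      rw [hw0]
      left
      rw [Complex.ofReal_re]
      positivity
  have hev : ∀ᶠ P in 𝓝 (Psi x0 y0), Psi (g P).1 (g P).2 = P := by
    have h1 : ∀ᶠ P in 𝓝 (Psi x0 y0), axd P ≠ 0 :=
      continuous_axd.continuousAt.eventually_ne hax
    filter_upwards [h1] with P hP
    have hP' : 0 < axd P := lt_of_le_of_ne (Real.sqrt_nonneg _) (Ne.symm hP)
    symm
    apply eq_Psi_of hP'
    rw [hg]
    simp only
    have h4 : (2 * Real.pi * ((y0 + Complex.arg (w P) / (2 * Real.pi) : ℝ) : ℂ) * Complex.I : ℂ) =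
        2 * Real.pi * y0 * Complex.I + Complex.arg (w P) * Complex.I := by
      push_cast
      field_simp
    rw [h4, Complex.exp_add]
    have h5 : Complex.exp (Complex.arg (w P) * Complex.I) = w P / axd P := by
      have h6 : ‖w P‖ = axd P := by
        rw [hw]
        simp only
        rw [norm_mul, norm_eqz]
        rw [show (-(2 * Real.pi * y0 * Complex.I) : ℂ) = ((-(2 * Real.pi * y0) : ℝ) : ℂ) * Complex.I by
          push_cast; ring, Complex.norm_exp_ofReal_mul_I, mul_one]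
      rw [eq_div_iff (by exact_mod_cast hP), mul_comm, ← h6]
      exact Complex.norm_mul_exp_arg_mul_I _
    rw [h5, hw]
    simp only
    rw [mul_div_assoc', ← mul_assoc, mul_comm (Complex.exp _) (eqz P), mul_assoc, ← Complex.exp_add,
      add_neg_cancel, Complex.exp_zero, mul_one]
  have h7 : Filter.Tendsto g (𝓝 (Psi x0 y0)) (𝓝 (x0, y0)) := by
    have := hgc.tendsto
    rwa [hg0] at this
  calc 𝓝 (Psi x0 y0) = Filter.map (fun P => Psi (g P).1 (g P).2) (𝓝 (Psi x0 y0)) := by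
        rw [Filter.map_congr hev]; exact Filter.map_id.symm
    _ = Filter.map (fun p : ℝ × ℝ => Psi p.1 p.2) (Filter.map g (𝓝 (Psi x0 y0))) := by
        rw [Filter.map_map]; rfl
    _ ≤ Filter.map (fun p : ℝ × ℝ => Psi p.1 p.2) (𝓝 (x0, y0)) := Filter.map_mono h7

theorem dist_Np_sq (P : S2) : dist P Np ^ 2 = 2 - 2 * hgt P := by
  rw [Subtype.dist_eq, EuclideanSpace.dist_eq, Real.sq_sqrt (by positivity)]
  have h := S2_sq P
  simp only [Fin.sum_univ_three, Real.dist_eq, sq_abs]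
  have h0 : (Np : EuclideanSpace ℝ (Fin 3)) 0 = 0 := rfl
  have h1 : (Np : EuclideanSpace ℝ (Fin 3)) 1 = 0 := rfl
  have h2 : (Np : EuclideanSpace ℝ (Fin 3)) 2 = 1 := rfl
  rw [h0, h1, h2]
  unfold hgt
  linarith

theorem dist_Sp_sq (P : S2) : dist P Sp ^ 2 = 2 + 2 * hgt P := by
  rw [Subtype.dist_eq, EuclideanSpace.dist_eq, Real.sq_sqrt (by positivity)]
  have h := S2_sq P
  simp only [Fin.sum_univ_three, Real.dist_eq, sq_abs]
  have h0 : (Sp : EuclideanSpace ℝ (Fin 3)) 0 = 0 := rfl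
  have h1 : (Sp : EuclideanSpace ℝ (Fin 3)) 1 = 0 := rfl
  have h2 : (Sp : EuclideanSpace ℝ (Fin 3)) 2 = -1 := rfl
  rw [h0, h1, h2]
  unfold hgt
  linarith

theorem Psi_top {V : Set S2} (hV : V ∈ 𝓝 Np) : ∃ R, ∀ x ≥ R, ∀ y, Psi x y ∈ V := by
  obtain ⟨ε, hε, hb⟩ := Metric.mem_nhds_iff.1 hV
  have h1 : ∀ᶠ x in Filter.atTop, 1 - ε ^ 2 / 2 < x / √(1 + x ^ 2) :=
    sph_tendsto_top.eventually (lt_mem_nhds (by nlinarith))
  obtain ⟨R, hR⟩ := Filter.eventually_atTop.1 h1
  refine ⟨R, fun x hx y => hb ?_⟩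
  rw [Metric.mem_ball]
  apply lt_of_pow_lt_pow_left₀ 2 hε.le
  rw [dist_Np_sq, hgt_Psi]
  linarith [hR x hx]

theorem Psi_bot {V : Set S2} (hV : V ∈ 𝓝 Sp) : ∃ R, ∀ x ≤ R, ∀ y, Psi x y ∈ V := by
  obtain ⟨ε, hε, hb⟩ := Metric.mem_nhds_iff.1 hV
  have h1 : ∀ᶠ x in Filter.atBot, x / √(1 + x ^ 2) < -1 + ε ^ 2 / 2 :=
    sph_tendsto_bot.eventually (gt_mem_nhds (by nlinarith))
  obtain ⟨R, hR⟩ := Filter.eventually_atBot.1 h1
  refine ⟨R, fun x hx y => hb ?_⟩
  rw [Metric.mem_ball]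
  apply lt_of_pow_lt_pow_left₀ 2 hε.le
  rw [dist_Sp_sq, hgt_Psi]
  linarith [hR x hx]

theorem top_mem_nhds (R : ℝ) : {P | P = Np ∨ ∃ x y, R < x ∧ P = Psi x y} ∈ 𝓝 Np := by
  have h1 : {P : S2 | R / √(1 + R ^ 2) < hgt P} ∈ 𝓝 Np := by
    apply (isOpen_lt continuous_const continuous_hgt).mem_nhds
    change _ < hgt Np
    rw [hgt_Np]
    exact sph_lt_one R
  filter_upwards [h1] with P hP
  rcases Psi_cases P with h | h | ⟨x, y, -, h⟩
  · exact Or.inl h
  · exfalso
    change _ < hgt P at hP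
    rw [h, hgt_Sp] at hP
    linarith [sph_neg_one_lt R]
  · right
    refine ⟨x, y, ?_, h⟩
    change _ < hgt P at hP
    rw [h, hgt_Psi] at hP
    exact sph_strictMono.lt_iff_lt.1 hP

theorem bot_mem_nhds (R : ℝ) : {P | P = Sp ∨ ∃ x y, x < R ∧ P = Psi x y} ∈ 𝓝 Sp := by
  have h1 : {P : S2 | hgt P < R / √(1 + R ^ 2)} ∈ 𝓝 Sp := by
    apply (isOpen_lt continuous_hgt continuous_const).mem_nhds
    change hgt Sp < _
    rw [hgt_Sp]
    exact sph_neg_one_lt R
  filter_upwards [h1] with P hP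
  rcases Psi_cases P with h | h | ⟨x, y, -, h⟩
  · exfalso
    change hgt P < _ at hP
    rw [h, hgt_Np] at hP
    linarith [sph_lt_one R]
  · exact Or.inl h
  · right
    refine ⟨x, y, ?_, h⟩
    change hgt P < _ at hP
    rw [h, hgt_Psi] at hP
    exact sph_strictMono.lt_iff_lt.1 hP

/-! ### the homeomorphism -/

/-- the identification of the model with the sphere -/
noncomputable def sphMap : Pt → S2
  | Pt.top => Np
  | Pt.bot => Sp
  | Pt.mid u v => Psi u v

theorem sphMap_pt (u v : ℝ) : sphMap (pt u v) = Psi u v := by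
  change Psi u (Int.fract v) = Psi u v
  conv_rhs => rw [← Int.fract_add_floor v]
  rw [Psi_add_int]

theorem sphMap_injective : Function.Injective sphMap := by
  intro p q h
  rcases p.cases' with hp | hp | ⟨u, v, hv, hp⟩ <;> rcases q.cases' with hq | hq | ⟨u', v', hv', hq⟩ <;>
    subst hp <;> subst hq
  · rfl
  · exact absurd h Np_ne_Sp
  · rw [sphMap_pt] at h
    exact absurd h.symm (Psi_ne_Np _ _)
  · exact absurd h.symm Np_ne_Sp
  · rfl
  · rw [sphMap_pt] at h
    exact absurd h.symm (Psi_ne_Sp _ _)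
  · rw [sphMap_pt] at h
    exact absurd h (Psi_ne_Np _ _)
  · rw [sphMap_pt] at h
    exact absurd h (Psi_ne_Sp _ _)
  · rw [sphMap_pt, sphMap_pt, Psi_eq_iff] at h
    obtain ⟨rfl, n, rfl⟩ := h
    rw [pt_add_int]

theorem sphMap_surjective : Function.Surjective sphMap := by
  intro P
  rcases Psi_cases P with h | h | ⟨x, y, -, h⟩
  · exact ⟨Pt.top, h.symm⟩
  · exact ⟨Pt.bot, h.symm⟩
  · exact ⟨pt x y, by rw [sphMap_pt, h]⟩

/-- the inverse identification -/
noncomputable def sphEquiv : S2 ≃ Pt :=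
  (Equiv.ofBijective sphMap ⟨sphMap_injective, sphMap_surjective⟩).symm

theorem sphEquiv_Psi (x y : ℝ) : sphEquiv (Psi x y) = pt x y := by
  rw [← sphMap_pt]
  exact (Equiv.ofBijective sphMap ⟨sphMap_injective, sphMap_surjective⟩).symm_apply_apply (pt x y)

theorem sphEquiv_Np : sphEquiv Np = Pt.top :=
  (Equiv.ofBijective sphMap ⟨sphMap_injective, sphMap_surjective⟩).symm_apply_apply Pt.top

theorem sphEquiv_Sp : sphEquiv Sp = Pt.bot :=
  (Equiv.ofBijective sphMap ⟨sphMap_injective, sphMap_surjective⟩).symm_apply_apply Pt.bot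

theorem continuous_sphEquiv : Continuous sphEquiv := by
  rw [continuous_iff_continuousAt]
  intro P
  rcases Psi_cases P with h | h | ⟨x, y, -, h⟩
  · subst h
    rw [ContinuousAt, sphEquiv_Np, Metric.tendsto_nhds]
    intro ε hε
    obtain ⟨U, -, hU, -⟩ := exists_tail ε hε
    filter_upwards [top_mem_nhds U] with Q hQ
    rcases hQ with h | ⟨x, y, hx, h⟩
    · rw [h, sphEquiv_Np, dist_self]; exact hε
    · rw [h, sphEquiv_Psi, dist_comm, dist_def]
      exact hU x y hx.le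
  · subst h
    rw [ContinuousAt, sphEquiv_Sp, Metric.tendsto_nhds]
    intro ε hε
    obtain ⟨U, -, -, hU⟩ := exists_tail ε hε
    filter_upwards [bot_mem_nhds (-U)] with Q hQ
    rcases hQ with h | ⟨x, y, hx, h⟩
    · rw [h, sphEquiv_Sp, dist_self]; exact hε
    · rw [h, sphEquiv_Psi, dist_comm, dist_def]
      exact hU x y hx.le
  · subst h
    have h1 : 𝓝 (Psi x y) ≤ Filter.map (fun p : ℝ × ℝ => Psi p.1 p.2) (𝓝 (x, y)) :=
      isOpenMap_Psi.nhds_le (x, y)
    have h2 : Filter.Tendsto (fun p : ℝ × ℝ => sphEquiv (Psi p.1 p.2)) (𝓝 (x, y))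
        (𝓝 (sphEquiv (Psi x y))) := by
      simp only [sphEquiv_Psi]
      exact continuous_pt.continuousAt
    exact (Filter.tendsto_map'_iff.2 h2).mono_left h1

theorem nonempty_homeo : Nonempty (S2 ≃ₜ Pt) :=
  ⟨Continuous.homeoOfEquivCompactToT2 (f := sphEquiv) continuous_sphEquiv⟩

end Pool.MP_0f1fb3_an
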