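import Pool.Agent.Lib.MP_0f1fb3_an.Geom
import Pool.Agent.Lib.MP_0f1fb3_an.Defs

set_option autoImplicit false

open MeasureTheory Set
open scoped ENNReal NNReal Topology

namespace Pool.MP_0f1fb3_an

noncomputable instance : MeasurableSpace Pt := borel Pt
instance : BorelSpace Pt := ⟨rfl⟩

lemma lipschitz_pt : LipschitzWith 2 (fun z : ℝ × ℝ => pt z.1 z.2) := by
  apply LipschitzWith.of_dist_le_mul
  intro z w
  have h := dst_le_abs z.1 z.2 w.1 w.2
  rw [dist_def]
  refine h.trans ?_
  rw [Prod.dist_eq, Real.dist_eq, Real.dist_eq]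
  have h1 := le_max_left |z.1 - w.1| |z.2 - w.2|
  have h2 := le_max_right |z.1 - w.1| |z.2 - w.2|
  push_cast
  linarith

lemma continuous_pt : Continuous (fun z : ℝ × ℝ => pt z.1 z.2) := lipschitz_pt.continuous

/-- the ends of the cylinder are small -/
lemma exists_tail (ε : ℝ) (hε : 0 < ε) : ∃ U : ℝ, 0 < U ∧
    (∀ u v, U ≤ u → dst Pt.top (pt u v) < ε) ∧ (∀ u v, u ≤ -U → dst Pt.bot (pt u v) < ε) := by
  have h1 := intervalIntegral_tendsto_integral_Ioi (0 : ℝ) (μ := volume)
    (f := fun t : ℝ => Kc ⌊t⌋) integrable_Kc.integrableOn Filter.tendsto_id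
  have h2 := intervalIntegral_tendsto_integral_Iic (0 : ℝ) (μ := volume)
    (f := fun t : ℝ => Kc ⌊t⌋) integrable_Kc.integrableOn Filter.tendsto_id
  have h1' := (Metric.tendsto_nhds.1 h1 ε hε)
  have h2' := (Metric.tendsto_nhds.1 h2 ε hε)
  obtain ⟨U1, hU1⟩ := Filter.eventually_atTop.1 h1'
  obtain ⟨U2, hU2⟩ := Filter.eventually_atBot.1 h2'
  refine ⟨max 1 (max U1 (-U2)), by positivity, ?_, ?_⟩
  · intro u v hu
    have hu1 : U1 ≤ u := (le_max_left _ _).trans ((le_max_right _ _).trans hu)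
    have h := hU1 u hu1
    refine (dst_top u v).trans_lt (lt_of_le_of_lt ?_ h)
    have h3 : ∫ t in Ioi u, ω t v ≤ ∫ t in Ioi u, Kc ⌊t⌋ :=
      integral_mono (integrable_ω_left v).integrableOn integrable_Kc.integrableOn
        fun t => ω_le_Kc _ _
    refine h3.trans ?_
    have h4 := intervalIntegral.integral_interval_add_Ioi (a := 0) (b := u) (μ := volume)
      (f := fun t : ℝ => Kc ⌊t⌋) integrable_Kc.integrableOn integrable_Kc.integrableOn
    rw [dist_comm, Real.dist_eq, ← h4]
    simp only [id]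
    rw [add_sub_cancel_left]
    exact le_abs_self _
  · intro u v hu
    have hu2 : u ≤ U2 := by
      have := (le_max_right U1 (-U2)).trans (le_max_right 1 (max U1 (-U2)))
      linarith
    have h := hU2 u hu2
    refine (dst_bot u v).trans_lt (lt_of_le_of_lt ?_ h)
    have h3 : ∫ t in Iic u, ω t v ≤ ∫ t in Iic u, Kc ⌊t⌋ :=
      integral_mono (integrable_ω_left v).integrableOn integrable_Kc.integrableOn
        fun t => ω_le_Kc _ _
    refine h3.trans ?_
    have h4 := intervalIntegral.integral_Iic_sub_Iic (f := fun t : ℝ => Kc ⌊t⌋) (μ := volume)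
      (a := u) (b := 0) integrable_Kc.integrableOn integrable_Kc.integrableOn
    simp only [id]
    rw [dist_comm, Real.dist_eq, ← h4, sub_sub_cancel]
    exact le_abs_self _

end Pool.MP_0f1fb3_an
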