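import Pool.Agent.Lib.MP_0f1fb3_an.DigitMeas

set_option autoImplicit false

open MeasureTheory Set
open scoped ENNReal NNReal Topology

namespace Pool.MP_0f1fb3_an

/-! ## the column parameters -/

/-- depth parameter of the column `j` -/
def κ (j : ℤ) : ℕ := Nat.log 2 (j.natAbs + 1)

/-- conformal factor of the column `j` -/
noncomputable def Kc (j : ℤ) : ℝ := (1 / 4) ^ κ j

lemma κ_adj (a a' : ℤ) (h : Adj a a') : κ a' ≤ κ a + 1 := by
  unfold κ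
  have h1 : a'.natAbs + 1 ≤ (a.natAbs + 1) * 2 := by unfold Adj at h; omega
  have h2 : Nat.log 2 ((a.natAbs + 1) * 2) = Nat.log 2 (a.natAbs + 1) + 1 :=
    Nat.log_mul_base (by norm_num) (by omega)
  rw [← h2]
  exact Nat.log_mono_right h1

lemma Kc_pos (j : ℤ) : 0 < Kc j := by unfold Kc; positivity

lemma Kc_le_one (j : ℤ) : Kc j ≤ 1 := by
  unfold Kc; exact pow_le_one₀ (by norm_num) (by norm_num)

lemma Kc_adj {a a' : ℤ} (h : Adj a a') : Kc a / 4 ≤ Kc a' := by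
  unfold Kc
  have h1 := κ_adj a a' h
  calc (1 / 4 : ℝ) ^ κ a / 4 = (1 / 4) ^ (κ a + 1) := by rw [pow_succ]; ring
    _ ≤ (1 / 4) ^ κ a' := pow_le_pow_of_le_one (by norm_num) (by norm_num) h1

lemma Kc_le (j : ℤ) : Kc j ≤ 4 / (|(j : ℝ)| + 1) ^ 2 := by
  unfold Kc κ
  have h1 : j.natAbs + 1 < 2 ^ (Nat.log 2 (j.natAbs + 1) + 1) :=
    Nat.lt_pow_succ_log_self (by norm_num) _
  set n := Nat.log 2 (j.natAbs + 1)
  have h2 : (|(j : ℝ)| + 1) ≤ 2 * 2 ^ n := by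
    have h3 : ((j.natAbs + 1 : ℕ) : ℝ) ≤ ((2 ^ (n + 1) : ℕ) : ℝ) := by exact_mod_cast h1.le
    push_cast at h3
    rw [Nat.cast_natAbs, Int.cast_abs] at h3
    rw [pow_succ] at h3; linarith
  have h4 : (0 : ℝ) < |(j : ℝ)| + 1 := by positivity
  rw [le_div_iff₀ (by positivity)]
  calc (1 / 4 : ℝ) ^ n * (|(j : ℝ)| + 1) ^ 2 ≤ (1 / 4 : ℝ) ^ n * (2 * 2 ^ n) ^ 2 := by gcongr
    _ = 4 * ((1 / 4 * 4) ^ n) := by
        rw [mul_pow, ← pow_mul, mul_comm n 2, pow_mul, mul_pow]; norm_num; ring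
    _ = 4 := by norm_num

/-! ## the weight -/

/-- the global frozen set -/
def Fz : Set (ℝ × ℝ) := {z | ∃ k, R2 κ k (fl k z.1) (fl k z.2) = 0}

lemma measurableSet_Fz : MeasurableSet Fz := by
  have : Fz = ⋃ k, {z : ℝ × ℝ | R2 κ k (fl k z.1) (fl k z.2) = 0} := by
    ext z; simp [Fz]
  rw [this]
  exact MeasurableSet.iUnion fun k => measurableSet_R2 κ k

/-- the weight -/
noncomputable def ω (u v : ℝ) : ℝ := Fz.indicator (fun z => Kc ⌊z.1⌋) (u, v)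

lemma ω_of_mem {u v : ℝ} (h : (u, v) ∈ Fz) : ω u v = Kc ⌊u⌋ := indicator_of_mem h _

lemma ω_of_notMem {u v : ℝ} (h : (u, v) ∉ Fz) : ω u v = 0 := indicator_of_notMem h _

lemma ω_nonneg (u v : ℝ) : 0 ≤ ω u v := by
  unfold ω; exact indicator_nonneg (fun _ _ => (Kc_pos _).le) _

lemma ω_le_Kc (u v : ℝ) : ω u v ≤ Kc ⌊u⌋ := by
  unfold ω; exact indicator_le_self' (fun _ _ => (Kc_pos _).le) _

lemma ω_le_one (u v : ℝ) : ω u v ≤ 1 := (ω_le_Kc u v).trans (Kc_le_one _)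

lemma measurable_Kc : Measurable fun u : ℝ => Kc ⌊u⌋ :=
  (measurable_of_countable Kc).comp Int.measurable_floor

lemma measurable_ω : Measurable fun z : ℝ × ℝ => ω z.1 z.2 := by
  unfold ω
  exact (measurable_Kc.comp measurable_fst).indicator measurableSet_Fz

lemma Fz_add_int (u v : ℝ) (m : ℤ) : (u, v + m) ∈ Fz ↔ (u, v) ∈ Fz := by
  simp only [Fz, mem_ofPred_eq, fl_add_int, R2_add_mul]

lemma ω_add_int (u v : ℝ) (m : ℤ) : ω u (v + m) = ω u v := by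
  by_cases h : (u, v) ∈ Fz
  · rw [ω_of_mem h, ω_of_mem ((Fz_add_int u v m).2 h)]
  · rw [ω_of_notMem h, ω_of_notMem (fun h' => h ((Fz_add_int u v m).1 h'))]

lemma chi_le_ω_hor (k r : ℕ) (x y : ℝ) (h : R2 κ k (fl k x) (fl k y) ≤ r) :
    Kc ⌊x⌋ * χ r (20 ^ k * x) ≤ ω x y := by
  by_cases hx : (20 : ℝ) ^ k * x ∈ F1 r
  · obtain ⟨l, hl⟩ := hx
    rw [fl_mul] at hl
    have h1 : (x, y) ∈ Fz := by
      refine ⟨k + l, ?_⟩
      have := R2_le_R1 κ r k l (fl (k + l) x) (fl (k + l) y)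
        (by rw [fl_div_pow, fl_div_pow]; exact h)
      exact Nat.le_zero.1 (hl ▸ this)
    rw [ω_of_mem h1]
    have := χ_le_one r (20 ^ k * x)
    nlinarith [Kc_pos ⌊x⌋]
  · unfold χ
    rw [indicator_of_notMem hx, mul_zero]
    exact ω_nonneg _ _

lemma chi_le_ω_ver (k r : ℕ) (x y : ℝ) (h : R2 κ k (fl k x) (fl k y) ≤ r) :
    Kc ⌊x⌋ * χ r (20 ^ k * y) ≤ ω x y := by
  by_cases hx : (20 : ℝ) ^ k * y ∈ F1 r
  · obtain ⟨l, hl⟩ := hx
    rw [fl_mul] at hl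
    have h1 : (x, y) ∈ Fz := by
      refine ⟨k + l, ?_⟩
      have := R2_le_R1' κ r k l (fl (k + l) x) (fl (k + l) y)
        (by rw [fl_div_pow, fl_div_pow]; exact h)
      exact Nat.le_zero.1 (hl ▸ this)
    rw [ω_of_mem h1]
    have := χ_le_one r (20 ^ k * y)
    nlinarith [Kc_pos ⌊x⌋]
  · unfold χ
    rw [indicator_of_notMem hx, mul_zero]
    exact ω_nonneg _ _

/-! ## centre lines -/

/-- the coordinate all of whose digits after depth `k` are `1` -/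
noncomputable def ctr (k : ℕ) (a : ℤ) : ℝ := ((a : ℝ) + 1 / 19) / 20 ^ k

lemma ctr_mem (k : ℕ) (a : ℤ) : (a : ℝ) / 20 ^ k ≤ ctr k a ∧ ctr k a < ((a : ℝ) + 1) / 20 ^ k := by
  have hp : (0 : ℝ) < 20 ^ k := by positivity
  unfold ctr
  constructor
  · exact div_le_div_of_nonneg_right (by linarith) hp.le
  · exact div_lt_div_of_pos_right (by linarith) hp

lemma fl_ctr (k : ℕ) (a : ℤ) : fl k (ctr k a) = a := (fl_eq_iff _ _ _).2 (ctr_mem k a)

/-- repunits `1, 11, 111, ...` in base 20 -/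
def rep : ℕ → ℤ
  | 0 => 0
  | l + 1 => 20 * rep l + 1

lemma rep_eq (l : ℕ) : 19 * rep l + 1 = 20 ^ l := by
  induction l with
  | zero => rfl
  | succ l ih => rw [pow_succ, ← ih]; simp only [rep]; ring

lemma fl_ctr_add (k l : ℕ) (a : ℤ) : fl (k + l) (ctr k a) = 20 ^ l * a + rep l := by
  rw [fl_eq_iff]
  have h := rep_eq l
  have h' : (19 : ℝ) * (rep l : ℝ) + 1 = 20 ^ l := by exact_mod_cast h
  have hk : (0 : ℝ) < 20 ^ k := by positivity
  have hl : (0 : ℝ) < 20 ^ l := by positivity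
  unfold ctr
  rw [pow_add]
  push_cast
  have hr : (rep l : ℝ) = (20 ^ l - 1) / 19 := by linarith
  constructor
  · rw [div_le_div_iff₀ (by positivity) hk, hr]
    nlinarith [mul_pos hk hl]
  · rw [div_lt_div_iff₀ hk (by positivity), hr]
    nlinarith [mul_pos hk hl]

lemma not_bd_ctr (k l : ℕ) (a : ℤ) : ¬ bd (fl (k + (l + 1)) (ctr k a)) := by
  rw [fl_ctr_add]
  unfold bd
  simp only [rep]
  rw [pow_succ', mul_assoc]
  omega

lemma R2_ctr_hor (k l : ℕ) (x : ℝ) (b : ℤ) :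
    R2 κ (k + l) (fl (k + l) x) (fl (k + l) (ctr k b)) =
      R1 (R2 κ k (fl k x) b) l (fl (k + l) x) := by
  induction l with
  | zero => rw [add_zero, fl_ctr]; rfl
  | succ l ih =>
    have h := not_bd_ctr k l b
    rw [← add_assoc] at h ⊢
    rw [R2_succ, R1_succ, fl_succ_div, fl_succ_div, ih]
    simp only [h, or_false]

lemma R2_ctr_ver (k l : ℕ) (y : ℝ) (a : ℤ) :
    R2 κ (k + l) (fl (k + l) (ctr k a)) (fl (k + l) y) =
      R1 (R2 κ k a (fl k y)) l (fl (k + l) y) := by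
  induction l with
  | zero => rw [add_zero, fl_ctr]; rfl
  | succ l ih =>
    have h := not_bd_ctr k l a
    rw [← add_assoc] at h ⊢
    rw [R2_succ, R1_succ, fl_succ_div, fl_succ_div, ih]
    simp only [h, false_or]

lemma Fz_absorb {x y : ℝ} (h : (x, y) ∈ Fz) (k : ℕ) :
    ∃ l, R2 κ (k + l) (fl (k + l) x) (fl (k + l) y) = 0 := by
  obtain ⟨n, hn⟩ := h
  refine ⟨n, ?_⟩
  rw [add_comm]
  apply R2_zero_absorb
  rw [fl_div_pow, fl_div_pow]; exact hn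

lemma ω_ctr_hor (k : ℕ) (x : ℝ) (b : ℤ) :
    ω x (ctr k b) ≤ Kc ⌊x⌋ * χ (R2 κ k (fl k x) b) (20 ^ k * x) := by
  by_cases h : (x, ctr k b) ∈ Fz
  · obtain ⟨l, hl⟩ := Fz_absorb h k
    rw [R2_ctr_hor] at hl
    rw [ω_of_mem h]
    have h1 : (20 : ℝ) ^ k * x ∈ F1 (R2 κ k (fl k x) b) := ⟨l, by rw [fl_mul]; exact hl⟩
    unfold χ
    rw [indicator_of_mem h1]; simp
  · rw [ω_of_notMem h]
    exact mul_nonneg (Kc_pos _).le (χ_nonneg _ _)

lemma ω_ctr_ver (k : ℕ) (y : ℝ) (a : ℤ) :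
    ω (ctr k a) y ≤ Kc (a / 20 ^ k) * χ (R2 κ k a (fl k y)) (20 ^ k * y) := by
  have hc : ⌊ctr k a⌋ = a / 20 ^ k := by rw [← fl_div_pow' k, fl_ctr]
  by_cases h : (ctr k a, y) ∈ Fz
  · obtain ⟨l, hl⟩ := Fz_absorb h k
    rw [R2_ctr_ver] at hl
    rw [ω_of_mem h, hc]
    have h1 : (20 : ℝ) ^ k * y ∈ F1 (R2 κ k a (fl k y)) := ⟨l, by rw [fl_mul]; exact hl⟩
    unfold χ
    rw [indicator_of_mem h1]; simp
  · rw [ω_of_notMem h]
    exact mul_nonneg (Kc_pos _).le (χ_nonneg _ _)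

/-! ## integrability along lines -/

lemma measurable_ω_left (v : ℝ) : Measurable fun t => ω t v :=
  measurable_ω.comp (measurable_id.prodMk measurable_const)

lemma measurable_ω_right (u : ℝ) : Measurable fun t => ω u t :=
  measurable_ω.comp (measurable_const.prodMk measurable_id)

lemma integrable_Kc : Integrable fun t : ℝ => Kc ⌊t⌋ := by
  have h := (integrable_inv_one_add_sq).const_mul (8 : ℝ)
  refine h.mono measurable_Kc.aestronglyMeasurable (Filter.Eventually.of_forall fun t => ?_)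
  rw [Real.norm_of_nonneg (Kc_pos _).le, Real.norm_of_nonneg (by positivity)]
  refine (Kc_le _).trans ?_
  have h1 : |t| ≤ |(⌊t⌋ : ℝ)| + 1 := by
    have h2 := Int.floor_le t
    have h3 := Int.lt_floor_add_one t
    rcases le_total 0 t with ht | ht
    · rw [abs_of_nonneg ht]
      have := le_abs_self (⌊t⌋ : ℝ)
      linarith
    · rw [abs_of_nonpos ht]
      have := neg_abs_le (⌊t⌋ : ℝ)
      linarith [neg_le_abs (⌊t⌋ : ℝ)]
  have h4 : (0 : ℝ) ≤ |(⌊t⌋ : ℝ)| := abs_nonneg _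
  have h5 : 1 + t ^ 2 ≤ 2 * (|(⌊t⌋ : ℝ)| + 1) ^ 2 := by
    have : t ^ 2 ≤ (|(⌊t⌋ : ℝ)| + 1) ^ 2 := by
      rw [← sq_abs t]; gcongr
    nlinarith
  rw [← div_eq_mul_inv, div_le_div_iff₀ (by positivity) (by positivity)]
  linarith

lemma integrable_ω_left (v : ℝ) : Integrable fun t => ω t v := by
  refine integrable_Kc.mono (measurable_ω_left v).aestronglyMeasurable
    (Filter.Eventually.of_forall fun t => ?_)
  rw [Real.norm_of_nonneg (Kc_pos _).le, Real.norm_of_nonneg (ω_nonneg _ _)]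
  exact ω_le_Kc _ _

lemma ii_ω_left (v a b : ℝ) : IntervalIntegrable (fun t => ω t v) volume a b :=
  (integrable_ω_left v).intervalIntegrable

lemma ii_ω_right (u a b : ℝ) : IntervalIntegrable (fun t => ω u t) volume a b := by
  rw [intervalIntegrable_iff]
  refine Measure.integrableOn_of_bounded (M := 1) (by simp) ?_ ?_
  · exact (measurable_ω_right u).aestronglyMeasurable
  · exact Filter.Eventually.of_forall fun x => by
      rw [Real.norm_of_nonneg (ω_nonneg _ _)]; exact ω_le_one _ _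

/-! ## the size of a cell -/

/-- size of the depth-`k` cell `(a,b)` -/
noncomputable def D (k : ℕ) (a b : ℤ) : ℝ := Kc (a / 20 ^ k) * (1 / 9) ^ R2 κ k a b / 20 ^ k

lemma D_pos (k : ℕ) (a b : ℤ) : 0 < D k a b := by
  unfold D
  have := Kc_pos (a / 20 ^ k)
  positivity

lemma D_child_le (k : ℕ) (a b : ℤ) : D (k + 1) a b ≤ 9 / 20 * D k (a / 20) (b / 20) := by
  unfold D
  rw [div_div_pow]
  have h := le_nxt (R2 κ k (a / 20) (b / 20)) (bd a ∨ bd b)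
  rw [← R2_succ] at h
  have hK := Kc_pos (a / 20 ^ (k + 1))
  have h1 : (1 / 9 : ℝ) ^ (R2 κ (k + 1) a b) ≤ 9 * (1 / 9) ^ R2 κ k (a / 20) (b / 20) := by
    have : (1 / 9 : ℝ) ^ (R2 κ (k + 1) a b + 1) ≤ (1 / 9) ^ R2 κ k (a / 20) (b / 20) :=
      pow_le_pow_of_le_one (by norm_num) (by norm_num) h
    rw [pow_succ] at this
    linarith
  calc Kc (a / 20 ^ (k + 1)) * (1 / 9) ^ R2 κ (k + 1) a b / 20 ^ (k + 1)
      ≤ Kc (a / 20 ^ (k + 1)) * (9 * (1 / 9) ^ R2 κ k (a / 20) (b / 20)) / 20 ^ (k + 1) := by gcongr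
    _ = _ := by
      have e : (20 : ℝ) ^ (k + 1) = 20 ^ k * 20 := pow_succ _ _
      rw [e]; field_simp

lemma D_le_child (k : ℕ) (a b : ℤ) : D k (a / 20) (b / 20) ≤ 180 * D (k + 1) a b := by
  unfold D
  rw [div_div_pow]
  have h := nxt_le (R2 κ k (a / 20) (b / 20)) (bd a ∨ bd b)
  rw [← R2_succ] at h
  have hK := Kc_pos (a / 20 ^ (k + 1))
  have h1 : (1 / 9 : ℝ) ^ R2 κ k (a / 20) (b / 20) ≤ 9 * (1 / 9 : ℝ) ^ (R2 κ (k + 1) a b) := by
    have : (1 / 9 : ℝ) ^ (R2 κ k (a / 20) (b / 20) + 1) ≤ (1 / 9) ^ R2 κ (k + 1) a b :=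
      pow_le_pow_of_le_one (by norm_num) (by norm_num) h
    rw [pow_succ] at this
    linarith
  calc Kc (a / 20 ^ (k + 1)) * (1 / 9) ^ R2 κ k (a / 20) (b / 20) / 20 ^ k
      ≤ Kc (a / 20 ^ (k + 1)) * (9 * (1 / 9 : ℝ) ^ (R2 κ (k + 1) a b)) / 20 ^ k := by gcongr
    _ = _ := by
      have e : (20 : ℝ) ^ (k + 1) = 20 ^ k * 20 := pow_succ _ _
      rw [e]; field_simp; ring

lemma D_adj (k : ℕ) {a a' b b' : ℤ} (ha : Adj a a') (hb : Adj b b') :
    D k a b ≤ 324 * D k a' b' := by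
  unfold D
  have h1 := R2_adj κ κ_adj k a a' b b' ha hb
  have h2 := Kc_adj (ha.div_pow k)
  have hK := Kc_pos (a / 20 ^ k)
  have hK' := Kc_pos (a' / 20 ^ k)
  have h3 : (1 / 9 : ℝ) ^ R2 κ k a b ≤ 81 * (1 / 9 : ℝ) ^ (R2 κ k a' b') := by
    have : (1 / 9 : ℝ) ^ (R2 κ k a b + 2) ≤ (1 / 9) ^ R2 κ k a' b' :=
      pow_le_pow_of_le_one (by norm_num) (by norm_num) h1
    rw [pow_add] at this
    linarith
  calc Kc (a / 20 ^ k) * (1 / 9) ^ R2 κ k a b / 20 ^ k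
      ≤ (4 * Kc (a' / 20 ^ k)) * (81 * (1 / 9 : ℝ) ^ (R2 κ k a' b')) / 20 ^ k := by
        gcongr; linarith
    _ = _ := by ring

/-! ## costs of centre lines -/

lemma floor_of_mem_cell {k : ℕ} {a : ℤ} {x : ℝ} (h1 : (a : ℝ) / 20 ^ k ≤ x)
    (h2 : x < ((a : ℝ) + 1) / 20 ^ k) : ⌊x⌋ = a / 20 ^ k := by
  rw [← fl_div_pow' k, (fl_eq_iff k x a).2 ⟨h1, h2⟩]

lemma cell_le (k : ℕ) (a : ℤ) : (a : ℝ) / 20 ^ k ≤ ((a : ℝ) + 1) / 20 ^ k :=
  div_le_div_of_nonneg_right (by linarith) (by positivity)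

/-- comparison of interval integrals on a half-open cell -/
lemma integral_cell_mono {f g : ℝ → ℝ} {a b : ℝ} (hab : a ≤ b)
    (hf : IntervalIntegrable f volume a b) (hg : IntervalIntegrable g volume a b)
    (h : ∀ x, a ≤ x → x < b → f x ≤ g x) : ∫ x in a..b, f x ≤ ∫ x in a..b, g x := by
  apply intervalIntegral.integral_mono_on_of_le_Ioo hab hf hg
  intro x hx
  exact h x hx.1.le hx.2

lemma cost_hor (k : ℕ) (a b : ℤ) :
    ∫ x in ((a : ℝ) / 20 ^ k)..(((a : ℝ) + 1) / 20 ^ k), ω x (ctr k b) ≤ D k a b := by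
  have h1 : ∫ x in ((a : ℝ) / 20 ^ k)..(((a : ℝ) + 1) / 20 ^ k), ω x (ctr k b) ≤
      ∫ x in ((a : ℝ) / 20 ^ k)..(((a : ℝ) + 1) / 20 ^ k),
        Kc (a / 20 ^ k) * χ (R2 κ k a b) (20 ^ k * x) := by
    apply integral_cell_mono (cell_le k a) (ii_ω_left _ _ _)
    · exact (χ_intervalIntegrable _ _ _ _).const_mul _
    · intro x hx1 hx2
      have := ω_ctr_hor k x b
      rwa [(fl_eq_iff k x a).2 ⟨hx1, hx2⟩, floor_of_mem_cell hx1 hx2] at this
  refine h1.trans (le_of_eq ?_)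
  rw [intervalIntegral.integral_const_mul, integral_χ_cell]
  unfold D; ring

lemma cost_ver (k : ℕ) (a b : ℤ) :
    ∫ y in ((b : ℝ) / 20 ^ k)..(((b : ℝ) + 1) / 20 ^ k), ω (ctr k a) y ≤ D k a b := by
  have h1 : ∫ y in ((b : ℝ) / 20 ^ k)..(((b : ℝ) + 1) / 20 ^ k), ω (ctr k a) y ≤
      ∫ y in ((b : ℝ) / 20 ^ k)..(((b : ℝ) + 1) / 20 ^ k),
        Kc (a / 20 ^ k) * χ (R2 κ k a b) (20 ^ k * y) := by
    apply integral_cell_mono (cell_le k b) (ii_ω_right _ _ _)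
    · exact (χ_intervalIntegrable _ _ _ _).const_mul _
    · intro y hy1 hy2
      have := ω_ctr_ver k y a
      rwa [(fl_eq_iff k y b).2 ⟨hy1, hy2⟩] at this
  refine h1.trans (le_of_eq ?_)
  rw [intervalIntegral.integral_const_mul, integral_χ_cell]
  unfold D; ring

lemma cost_hor' (k : ℕ) (a b : ℤ) :
    ∫ x in ((a : ℝ) / 20 ^ k)..(((a : ℝ) + 1) / 20 ^ k), ω x (ctr (k + 1) b) ≤
      9 * D k a (b / 20) := by
  have h1 : ∫ x in ((a : ℝ) / 20 ^ k)..(((a : ℝ) + 1) / 20 ^ k), ω x (ctr (k + 1) b) ≤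
      ∫ x in ((a : ℝ) / 20 ^ k)..(((a : ℝ) + 1) / 20 ^ k),
        Kc (a / 20 ^ k) * χ (R2 κ k a (b / 20) - 1) (20 ^ (k + 1) * x) := by
    apply integral_cell_mono (cell_le k a) (ii_ω_left _ _ _)
    · exact (χ_intervalIntegrable _ _ _ _).const_mul _
    · intro x hx1 hx2
      have h := ω_ctr_hor (k + 1) x b
      rw [floor_of_mem_cell hx1 hx2] at h
      refine h.trans ?_
      have hK := Kc_pos (a / 20 ^ k)
      apply mul_le_mul_of_nonneg_left _ hK.le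
      apply χ_anti
      have h2 := le_nxt (R2 κ k (fl (k + 1) x / 20) (b / 20)) (bd (fl (k + 1) x) ∨ bd b)
      rw [← R2_succ, fl_succ_div, (fl_eq_iff k x a).2 ⟨hx1, hx2⟩] at h2
      omega
  refine h1.trans ?_
  rw [intervalIntegral.integral_const_mul, integral_χ_cell']
  unfold D
  have hK := Kc_pos (a / 20 ^ k)
  have h3 : (1 / 9 : ℝ) ^ (R2 κ k a (b / 20) - 1) ≤ 9 * (1 / 9) ^ (R2 κ k a (b / 20)) := by
    rcases Nat.eq_zero_or_pos (R2 κ k a (b / 20)) with h0 | h0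
    · rw [h0]; norm_num
    · obtain ⟨n, hn⟩ := Nat.exists_eq_succ_of_ne_zero h0.ne'
      rw [hn, Nat.succ_eq_add_one, Nat.add_sub_cancel, pow_succ]; linarith [pow_pos (show (0 : ℝ) < 1 / 9 by norm_num) n]
  calc Kc (a / 20 ^ k) * ((1 / 9) ^ (R2 κ k a (b / 20) - 1) / 20 ^ k)
      ≤ Kc (a / 20 ^ k) * ((9 * (1 / 9) ^ (R2 κ k a (b / 20))) / 20 ^ k) := by gcongr
    _ = _ := by ring

end Pool.MP_0f1fb3_an
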